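import Pool.Agent.Lib.MP_72e2e6_nt.W2.C.Spec

/-!
# MP_72e2e6_nt, theorem T3, part C: the absolute values exist
-/

namespace Pool.Agent.MP72W

open Polynomial IntermediateField

private theorem av_fin {F : Type} [Field F] (P : F[X]) (hm : P.Monic) (hP : Irreducible P) :
    ∃ v : AbsoluteValue (RatFunc F) ℝ, IsPl (some P) v := by
  let 𝔭 : IsDedekindDomain.HeightOneSpectrum F[X] :=
    ⟨Ideal.span {P}, (Ideal.span_singleton_prime hP.ne_zero).2 hP.prime, by
      simpa using hP.ne_zero⟩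
  have hb : (1 : NNReal) < 2 := one_lt_two
  have h1 : ∀ p : F[X], ¬ P ∣ p →
      (𝔭.adicAbv hb : AbsoluteValue (RatFunc F) ℝ) (algebraMap F[X] (RatFunc F) p) = 1 :=
    fun p hp => (𝔭.adicAbv_coe_eq_one_iff hb p).2
      (by simpa [𝔭, Ideal.mem_span_singleton] using hp)
  have h2 : (𝔭.adicAbv hb : AbsoluteValue (RatFunc F) ℝ) (algebraMap F[X] (RatFunc F) P) =
      1 / 2 := by
    rw [IsDedekindDomain.HeightOneSpectrum.adicAbv_of_algebraMap]
    change ((𝔭.intAdicAbvDef hb P : NNReal) : ℝ) = 1 / 2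
    rw [IsDedekindDomain.HeightOneSpectrum.intAdicAbvDef,
      𝔭.intValuation_singleton hP.ne_zero rfl]
    have h3 : ∀ (h : WithZero.exp (-1 : ℤ) ≠ 0),
        Multiplicative.toAdd (WithZero.unzero h) = -1 := fun h => rfl
    rw [WithZeroMulInt.toNNReal_neg_apply _ WithZero.exp_ne_zero, h3]
    simp
  refine ⟨𝔭.adicAbv hb, hm, hP, fun p hp => ?_⟩
  obtain ⟨c, hc, hnd⟩ :=
    (FiniteMultiplicity.of_prime_left hP.prime hp).exists_eq_pow_mul_and_not_dvd
  have := congrArg (fun p => (𝔭.adicAbv hb : AbsoluteValue (RatFunc F) ℝ)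
    (algebraMap F[X] (RatFunc F) p)) hc
  simp only [map_mul, map_pow, h1 c hnd, h2, mul_one] at this
  exact this

private theorem av_inf (F : Type) [Field F] :
    ∃ v : AbsoluteValue (RatFunc F) ℝ, IsPl (none : Option F[X]) v := by
  classical
  have hmax : ∀ x y : RatFunc F, (if x + y = 0 then (0 : ℝ) else 2 ^ (x + y).intDegree) ≤
      (if x = 0 then (0 : ℝ) else 2 ^ x.intDegree) +
      (if y = 0 then (0 : ℝ) else 2 ^ y.intDegree) := by
    intro x y
    have h0 : ∀ z : RatFunc F, (0 : ℝ) ≤ (if z = 0 then (0 : ℝ) else 2 ^ z.intDegree) := by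
      intro z
      split_ifs
      · exact le_rfl
      · positivity
    by_cases hx : x = 0
    · simp [hx]
    by_cases hy : y = 0
    · simp [hy]
    by_cases hxy : x + y = 0
    · rw [if_pos hxy]
      exact add_nonneg (h0 x) (h0 y)
    · rw [if_neg hx, if_neg hy, if_neg hxy]
      have hle := RatFunc.intDegree_add_le hy hxy
      have hp : (0 : ℝ) < 2 ^ x.intDegree := by positivity
      have hq : (0 : ℝ) < 2 ^ y.intDegree := by positivity
      rcases le_max_iff.1 hle with h | h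
      · have := zpow_le_zpow_right₀ (one_le_two : (1 : ℝ) ≤ 2) h
        linarith
      · have := zpow_le_zpow_right₀ (one_le_two : (1 : ℝ) ≤ 2) h
        linarith
  refine ⟨⟨⟨fun f => if f = 0 then (0 : ℝ) else 2 ^ f.intDegree, ?_⟩, ?_, ?_, ?_⟩, ?_⟩
  · intro x y
    by_cases hx : x = 0
    · simp [hx]
    by_cases hy : y = 0
    · simp [hy]
    rw [if_neg hx, if_neg hy, if_neg (mul_ne_zero hx hy), RatFunc.intDegree_mul hx hy,
      zpow_add₀ two_ne_zero]
  · intro z
    show (0 : ℝ) ≤ (if z = 0 then (0 : ℝ) else 2 ^ z.intDegree)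
    split_ifs
    · exact le_rfl
    · positivity
  · intro z
    show (if z = 0 then (0 : ℝ) else 2 ^ z.intDegree) = 0 ↔ z = 0
    by_cases hz : z = 0
    · simp [hz]
    · rw [if_neg hz]
      exact iff_of_false (zpow_ne_zero _ two_ne_zero) hz
  · exact hmax
  · intro f hf
    exact if_neg hf

theorem tAv : S_Av := by
  intro F _
  refine ⟨fun P hm hP => av_fin P hm hP, av_inf F, fun w v hv => ?_⟩
  cases w with
  | none =>
    have h := hv RatFunc.X RatFunc.X_ne_zero
    rw [RatFunc.intDegree_X, zpow_one] at h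
    exact ⟨RatFunc.X, RatFunc.X_ne_zero, by rw [h]; norm_num⟩
  | some P =>
    obtain ⟨hm, hP, h⟩ := hv
    have h1 := h P hP.ne_zero
    rw [multiplicity_self, pow_one] at h1
    refine ⟨algebraMap F[X] (RatFunc F) P, ?_, by rw [h1]; norm_num⟩
    intro h0
    rw [h0, map_zero] at h1
    norm_num at h1

end Pool.Agent.MP72W
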