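import Pool.Agent.Lib.MP_72e2e6_nt.W2.C.Spec

/-!
# MP_72e2e6_nt, T3, part C: the constants form a subfield
-/

namespace Pool.Agent.MP72W

open Polynomial IntermediateField

private theorem cst_iter {L : Type} [Field L] (q n : ℕ) (x : L) (h : x ^ q ^ n = x) (k : ℕ) :
    x ^ q ^ (n * k) = x := by
  induction k with
  | zero => rw [mul_zero, pow_zero, pow_one]
  | succ k ih => rw [Nat.mul_succ, pow_add, pow_mul, ih, h]

theorem tCst : S_Cst := by
  intro q r hr hq L _ _ _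
  have hq2 : ∀ n, q ^ n = 2 ^ (r * n) := fun n => by rw [hq, ← pow_mul]
  have hfr : ∀ (n : ℕ) (x y : L), (x + y) ^ q ^ n = x ^ q ^ n + y ^ q ^ n := by
    intro n x y
    rw [hq2]
    exact add_pow_char_pow x y 2 (r * n)
  have hq1 : 1 < q := by
    rw [hq]
    exact Nat.one_lt_two_pow (by omega)
  refine ⟨⟨1, le_rfl, ?_⟩, ⟨1, le_rfl, one_pow _⟩, ?_, ?_, ?_, ?_⟩
  · rw [zero_pow]
    exact (pow_pos (by omega) 1).ne'
  · rintro x ⟨n, hn, hx⟩ y ⟨m, hm, hy⟩
    have hx' := cst_iter q n x hx m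
    have hy' := cst_iter q m y hy n
    rw [mul_comm m n] at hy'
    have hnm : 1 ≤ n * m := Nat.mul_pos hn hm
    refine ⟨⟨n * m, hnm, ?_⟩, ⟨n * m, hnm, ?_⟩⟩
    · rw [hfr, hx', hy']
    · rw [mul_pow, hx', hy']
  · rintro x ⟨n, hn, hx⟩
    exact ⟨n, hn, by rw [inv_pow, hx]⟩
  · rintro x θ ⟨n, hn, hx⟩ hθ
    have h1 : (θ ^ q ^ n) ^ 2 + θ ^ q ^ n = x := by
      have h2 : (θ ^ 2 + θ) ^ q ^ n = x ^ q ^ n := by rw [hθ]
      rw [hfr, hx, ← pow_mul, mul_comm 2, pow_mul] at h2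
      exact h2
    have h2L : (2 : L) = 0 := CharTwo.two_eq_zero
    have h3 : (θ ^ q ^ n + θ) * (θ ^ q ^ n + θ + 1) = 0 := by
      have h4 : (θ ^ q ^ n + θ) * (θ ^ q ^ n + θ + 1) =
          ((θ ^ q ^ n) ^ 2 + θ ^ q ^ n) + (θ ^ 2 + θ) + 2 * (θ ^ q ^ n * θ) := by ring
      rw [h4, h1, hθ, h2L, zero_mul, add_zero, CharTwo.add_self_eq_zero]
    refine ⟨n * 2, by omega, ?_⟩
    rw [pow_mul, pow_two, pow_mul]
    rcases mul_eq_zero.mp h3 with h5 | h5
    · have h6 : θ ^ q ^ n = θ := by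
        rw [← sub_eq_zero, CharTwo.sub_eq_add]
        exact h5
      rw [h6, h6]
    · have h6 : θ ^ q ^ n = θ + 1 := by
        rw [← sub_eq_zero, CharTwo.sub_eq_add, ← add_assoc]
        exact h5
      rw [h6, hfr, h6, one_pow, add_assoc, CharTwo.add_self_eq_zero, add_zero]
  · intro n hn
    have hQ : 1 < q ^ n := Nat.one_lt_pow (by omega) hq1
    have h2Q : 2 ∣ q ^ n := by
      rw [hq2]
      exact dvd_pow_self 2 (Nat.mul_pos (by omega) (by omega)).ne'
    have hsep : (X ^ q ^ n - X : L[X]).Separable := galois_poly_separable 2 (q ^ n) h2Q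
    have hdeg : (X ^ q ^ n - X : L[X]).natDegree = q ^ n :=
      FiniteField.X_pow_card_sub_X_natDegree_eq L hQ
    have hne : (X ^ q ^ n - X : L[X]) ≠ 0 := FiniteField.X_pow_card_sub_X_ne_zero L hQ
    have hcard := splits_iff_card_roots.mp (IsSepClosed.splits_of_separable _ hsep)
    rw [hdeg] at hcard
    classical
    have hset : {x : L | x ^ q ^ n = x} = ((X ^ q ^ n - X : L[X]).roots.toFinset : Set L) := by
      ext x
      rw [Set.mem_ofPred_eq, Finset.mem_coe, Multiset.mem_toFinset, mem_roots hne, IsRoot,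
        eval_sub, eval_pow, eval_X, sub_eq_zero]
    rw [hset, Set.ncard_coe_finset, Multiset.toFinset_card_of_nodup (nodup_roots hsep), hcard]

end Pool.Agent.MP72W
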