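import Pool.Agent.Lib.MP_72e2e6_nt.W2.C.Spec

/-!
# MP_72e2e6_nt, theorem T3, C/Dat: the local data exist (helper82)
-/

namespace Pool.Agent.MP72W

open Polynomial IntermediateField

/-- **Dat.** The local data exist. -/
theorem tDat (h1 : S_Av) (h2 : S_Lw) : S_Dat := by
  intro F _ _ _ κ PP hPP
  have hav : ∀ w : Option PP, ∃ v : AbsoluteValue (RatFunc F) ℝ,
      IsPl (w.map Subtype.val) v := by
    intro w
    rcases w with _ | P
    · exact (h1 F).2.1
    · exact (h1 F).1 P.1 (hPP P.1 P.2).1 (hPP P.1 P.2).2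
  choose av hav using hav
  have hlw := fun w : Option PP => h2 F κ (w.map Subtype.val) (av w) (hav w)
  choose W φ hlw using hlw
  let A : Dat F PP :=
    { av := av
      emb := fun w => IsSepClosed.lift
      W := W
      φ := φ }
  refine ⟨A, ?_⟩
  constructor
  · exact hav
  · exact fun w => (hlw w).1
  · exact fun w => (hlw w).2.1
  · intro w e D hD
    have h := (hlw w).2.2.1
    rcases w with _ | P
    · exact h e D hD
    · exact h e D hD
  · intro w k hk
    have h := (hlw w).2.2.2.1
    rcases w with _ | P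
    · obtain ⟨e, D, hD, h⟩ := h k hk
      exact ⟨e, D, hD, h⟩
    · obtain ⟨e, D, hD, h⟩ := h k hk
      exact ⟨e, D, hD, h⟩
  · intro w e D hD h0
    have h := (hlw w).2.2.2.2.1
    rcases w with _ | P
    · exact h e D hD h0
    · exact h e D hD h0
  · exact fun w => (hlw w).2.2.2.2.2

end Pool.Agent.MP72W
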