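import Pool.Agent.Lib.MP_72e2e6_nt.W2.C.Spec

/-!
# MP_72e2e6_nt, T3, W2/C/Dgr: groups of principal parts (helper77)
-/

namespace Pool.Agent.MP72W

open Polynomial IntermediateField

private theorem dgr_fin {F : Type} [Field F] [Finite F] {P : F[X]} (hP : P ≠ 0) :
    Set.Finite {p : F[X] | p.degree < P.degree} := by
  have h1 : Finite (degreeLT F P.natDegree) :=
    Finite.of_equiv _ (degreeLTEquiv F P.natDegree).toEquiv.symm
  refine Set.Finite.subset (Set.toFinite (degreeLT F P.natDegree : Set F[X])) ?_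
  intro p hp
  rw [SetLike.mem_coe, mem_degreeLT, ← degree_eq_natDegree hP]
  exact hp

private theorem dgr_eps0 {L : Type} [Field L] : eps (0 : L) = 0 := by
  unfold eps
  exact if_pos ⟨0, by simp⟩

private theorem dgr_two (x : ZMod 2) : x = 0 ∨ x = 1 := by
  revert x
  decide

/-- the term with the constant `κ` -/
private noncomputable def dgr_k {F : Type} [Field F] (κ : F) (e : ℕ) (c : F) : F := by
  classical
  exact if 1 ≤ e ∧ eps c ≠ 0 then κ else 0

private theorem dgr_mem {F : Type} [Field F] {κ : F} {e : ℕ} {f : RatFunc F} :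
    f ∈ DI κ e ↔ ∃ c : ℕ → F, f = (∑ i ∈ Finset.range ((e + 1) / 2),
      RatFunc.C (c i) * RatFunc.X ^ (2 * i + 1)) + RatFunc.C (dgr_k κ e (c 0)) := by
  have h : ∀ c : ℕ → F, (if 1 ≤ e ∧ eps (c 0) ≠ 0 then (RatFunc.C κ : RatFunc F) else 0) =
      RatFunc.C (dgr_k κ e (c 0)) := by
    intro c
    unfold dgr_k
    split_ifs
    · rfl
    · rw [map_zero]
  constructor
  · rintro ⟨c, hc⟩
    exact ⟨c, by rw [hc, ← h]⟩
  · rintro ⟨c, hc⟩
    exact ⟨c, by rw [hc, ← h]⟩

private theorem dgr_k0 {F : Type} [Field F] (κ : F) (e : ℕ) : dgr_k κ e 0 = 0 := by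
  unfold dgr_k
  rw [if_neg]
  rintro ⟨_, h⟩
  exact h dgr_eps0

private theorem dgr_kadd (hF : S_Fin2) {F : Type} [Field F] [Finite F] [CharP F 2] (κ : F)
    (e : ℕ) (c d : F) : dgr_k κ e (c + d) = dgr_k κ e c + dgr_k κ e d := by
  have hadd := (hF F).1 c d
  unfold dgr_k
  by_cases he : 1 ≤ e
  · rcases dgr_two (eps c) with h1 | h1 <;> rcases dgr_two (eps d) with h2 | h2 <;>
      rw [hadd, h1, h2]
    · simp
    · simp [he]
    · simp [he]
    · have h3 : (1 : ZMod 2) + 1 = 0 := by decide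
      rw [h3]
      simp only [ne_eq, not_true_eq_false, and_false, if_false, one_ne_zero, not_false_eq_true,
        and_true, he, if_true]
      exact (CharTwo.add_self_eq_zero κ).symm
  · simp [he]

/-- extension of the coefficients by zero -/
private theorem dgr_ext {M R : Type} [Zero M] [AddCommMonoid R] {n n' : ℕ} (h : n ≤ n')
    (a : ℕ → M) (G : ℕ → M → R) (hG : ∀ i, G i 0 = 0) :
    ∑ i ∈ Finset.range n, G i (a i) =
      ∑ i ∈ Finset.range n', G i (if i < n then a i else 0) := by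
  rw [← Finset.sum_subset (Finset.range_mono h)]
  · refine Finset.sum_congr rfl fun i hi => ?_
    rw [if_pos (Finset.mem_range.1 hi)]
  · intro i _ hi
    rw [if_neg (fun h' => hi (Finset.mem_range.2 h')), hG]

theorem tDgr : S_Fin2 → S_Dgr := by
  classical
  intro hF F _ _ _ κ P hPm hPi
  have hP0 : P ≠ 0 := hPm.ne_zero
  refine ⟨fun e => ⟨⟨?_, ?_, ?_⟩, ?_, ?_, ?_⟩, fun e e' hee => ⟨?_, ?_⟩, fun B => ?_⟩
  · refine ⟨fun _ => 0, fun i => ?_, ?_⟩
    · rw [degree_zero, bot_lt_iff_ne_bot]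
      exact fun h => hP0 (degree_eq_bot.1 h)
    · simp
  · rintro f ⟨a, ha, rfl⟩ g ⟨b, hb, rfl⟩
    refine ⟨fun i => a i + b i, fun i =>
      (degree_add_le _ _).trans_lt (max_lt (ha i) (hb i)), ?_⟩
    rw [← Finset.sum_add_distrib]
    refine Finset.sum_congr rfl fun i _ => ?_
    rw [map_add, add_div]
  · have hfin := dgr_fin (F := F) hP0
    have hfin' : Finite {p : F[X] | p.degree < P.degree} := hfin
    refine (Set.finite_range fun a : Fin ((e + 1) / 2) → {p : F[X] | p.degree < P.degree} =>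
      ∑ i : Fin ((e + 1) / 2), algebraMap F[X] (RatFunc F) (a i : F[X]) /
        algebraMap F[X] (RatFunc F) P ^ (2 * (i : ℕ) + 1)).subset ?_
    rintro f ⟨a, ha, rfl⟩
    refine ⟨fun i => ⟨a i, ha i⟩, ?_⟩
    exact (Finset.sum_range fun i : ℕ => algebraMap F[X] (RatFunc F) (a i) /
      algebraMap F[X] (RatFunc F) P ^ (2 * i + 1)).symm
  · refine dgr_mem.2 ⟨fun _ => 0, ?_⟩
    rw [dgr_k0]
    simp
  · intro f hf g hg
    obtain ⟨c, rfl⟩ := dgr_mem.1 hf
    obtain ⟨d, rfl⟩ := dgr_mem.1 hg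
    refine dgr_mem.2 ⟨fun i => c i + d i, ?_⟩
    rw [dgr_kadd hF, map_add, add_add_add_comm, ← Finset.sum_add_distrib]
    congr 1
    refine Finset.sum_congr rfl fun i _ => ?_
    rw [map_add, add_mul]
  · refine (Set.finite_range fun a : (Fin ((e + 1) / 2) → F) × F =>
      (∑ i : Fin ((e + 1) / 2), RatFunc.C (a.1 i) * RatFunc.X ^ (2 * (i : ℕ) + 1)) +
        RatFunc.C a.2).subset ?_
    intro f hf
    obtain ⟨c, rfl⟩ := dgr_mem.1 hf
    refine ⟨(fun i => c i, dgr_k κ e (c 0)), ?_⟩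
    show (∑ i : Fin ((e + 1) / 2), RatFunc.C (c i) * RatFunc.X ^ (2 * (i : ℕ) + 1)) + _ = _
    rw [Finset.sum_range fun i : ℕ => RatFunc.C (c i) * (RatFunc.X : RatFunc F) ^ (2 * i + 1)]
  · rintro f ⟨a, ha, rfl⟩
    refine ⟨fun i => if i < (e + 1) / 2 then a i else 0, fun i => ?_, ?_⟩
    · show (if i < (e + 1) / 2 then a i else 0).degree < P.degree
      split_ifs
      · exact ha i
      · rw [degree_zero, bot_lt_iff_ne_bot]
        exact fun h => hP0 (degree_eq_bot.1 h)
    · exact dgr_ext (show (e + 1) / 2 ≤ (e' + 1) / 2 by omega) a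
        (fun i p => algebraMap F[X] (RatFunc F) p /
          algebraMap F[X] (RatFunc F) P ^ (2 * i + 1)) fun i => by simp
  · intro f hf
    obtain ⟨c, rfl⟩ := dgr_mem.1 hf
    refine dgr_mem.2 ⟨fun i => if i < (e + 1) / 2 then c i else 0, ?_⟩
    rw [dgr_ext (show (e + 1) / 2 ≤ (e' + 1) / 2 by omega) c
      (fun i p => RatFunc.C p * (RatFunc.X : RatFunc F) ^ (2 * i + 1)) fun i => by simp]
    congr 2
    show dgr_k κ e (c 0) = dgr_k κ e' (if 0 < (e + 1) / 2 then c 0 else 0)
    by_cases he : 1 ≤ e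
    · rw [if_pos (show 0 < (e + 1) / 2 by omega)]
      unfold dgr_k
      simp only [he, hee.trans' he, true_and]
    · rw [if_neg (show ¬ 0 < (e + 1) / 2 by omega), dgr_k0]
      unfold dgr_k
      rw [if_neg (fun h => he h.1)]
  · refine ⟨2 * B, ?_⟩
    have hn : (2 * B + 1) / 2 = B := by omega
    let k : ℕ → F := fun i => dgr_k κ (2 * B) (if (0 : ℕ) = i then 1 else 0)
    let f : ℕ → RatFunc F := fun i => algebraMap F[X] (RatFunc F) (X ^ (2 * i + 1) + C (k i))
    have hf : ∀ i < B, f i ∈ DI κ (2 * B) := by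
      intro i hi
      refine dgr_mem.2 ⟨fun j => if j = i then 1 else 0, ?_⟩
      rw [hn, Finset.sum_eq_single i]
      · show algebraMap F[X] (RatFunc F) (X ^ (2 * i + 1) + C (k i)) =
          RatFunc.C (if i = i then 1 else 0) * RatFunc.X ^ (2 * i + 1) + RatFunc.C (k i)
        rw [if_pos rfl, map_one, one_mul, map_add, map_pow, RatFunc.algebraMap_X,
          RatFunc.algebraMap_C]
      · intro j _ hj
        show RatFunc.C (if j = i then 1 else 0) * RatFunc.X ^ (2 * j + 1) = 0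
        rw [if_neg hj, map_zero, zero_mul]
      · intro h
        exact absurd (Finset.mem_range.2 hi) h
    have hinj : Set.InjOn f (Finset.range B : Set ℕ) := by
      intro i _ j _ hij
      have h1 : (X ^ (2 * i + 1) + C (k i) : F[X]) = X ^ (2 * j + 1) + C (k j) :=
        RatFunc.algebraMap_injective F hij
      have h2 := congrArg (fun p : F[X] => p.coeff (2 * i + 1)) h1
      simp only [coeff_add, coeff_X_pow, coeff_C, if_true] at h2
      rw [if_neg (by omega : ¬ 2 * i + 1 = 0), if_neg (by omega : ¬ 2 * i + 1 = 0), add_zero,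
        add_zero] at h2
      by_contra hne
      rw [if_neg (by omega : ¬ 2 * i + 1 = 2 * j + 1)] at h2
      exact one_ne_zero h2
    have hfin : (DI κ (2 * B)).Finite := by
      refine (Set.finite_range fun a : (Fin ((2 * B + 1) / 2) → F) × F =>
        (∑ i : Fin ((2 * B + 1) / 2), RatFunc.C (a.1 i) * RatFunc.X ^ (2 * (i : ℕ) + 1)) +
          RatFunc.C a.2).subset ?_
      intro g hg
      obtain ⟨c, rfl⟩ := dgr_mem.1 hg
      refine ⟨(fun i => c i, dgr_k κ (2 * B) (c 0)), ?_⟩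
      show (∑ i : Fin ((2 * B + 1) / 2), RatFunc.C (c i) * RatFunc.X ^ (2 * (i : ℕ) + 1)) + _ = _
      rw [Finset.sum_range fun i : ℕ => RatFunc.C (c i) * (RatFunc.X : RatFunc F) ^ (2 * i + 1)]
    have h3 : (f '' (Finset.range B : Set ℕ)).ncard = B := by
      rw [hinj.ncard_image, Set.ncard_coe_finset, Finset.card_range]
    have h4 := Set.ncard_le_ncard (s := f '' (Finset.range B : Set ℕ)) (t := DI κ (2 * B)) (by
      rintro _ ⟨i, hi, rfl⟩
      exact hf i (Finset.mem_range.1 (Finset.mem_coe.1 hi))) hfin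
    rw [h3] at h4
    exact h4

end Pool.Agent.MP72W
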