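import Pool.Agent.Lib.MP_72e2e6_nt.W2.C.Spec

/-! # MP_72e2e6_nt, T3, part C: Drg, sizes of the principal parts -/

namespace Pool.Agent.MP72W

open Polynomial IntermediateField

private theorem drg_na {F : Type} [Field F] [CharP F 2] (v : AbsoluteValue (RatFunc F) ℝ) :
    IsNonarchimedean v := by
  haveI : CharP (RatFunc F) 2 :=
    charP_of_injective_algebraMap (algebraMap F (RatFunc F)).injective 2
  have h1 : ∀ n : ℕ, v (n : RatFunc F) ≤ 1 := by
    intro n
    rcases Nat.even_or_odd' n with ⟨k, rfl | rfl⟩
    · have : ((2 * k : ℕ) : RatFunc F) = 0 := by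
        rw [CharP.cast_eq_zero_iff (RatFunc F) 2]; exact dvd_mul_right _ _
      rw [this, map_zero]; exact zero_le_one
    · have : ((2 * k : ℕ) : RatFunc F) = 0 := by
        rw [CharP.cast_eq_zero_iff (RatFunc F) 2]; exact dvd_mul_right _ _
      rw [Nat.cast_add, this, zero_add, Nat.cast_one, map_one]
  have h2 : ∀ n : ℕ, ‖(n : WithAbs v)‖ ≤ 1 := by
    intro n
    rw [WithAbs.norm_eq_apply_ofAbs]
    have h3 : (n : WithAbs v).ofAbs = (n : RatFunc F) := map_natCast (WithAbs.equiv v) n
    rw [h3]
    exact h1 n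
  haveI := IsUltrametricDist.isUltrametricDist_of_forall_norm_natCast_le_one h2
  intro x y
  exact IsUltrametricDist.norm_add_le_max (WithAbs.toAbs v x) (WithAbs.toAbs v y)

private theorem drg_sum_le {F : Type} [Field F] (v : AbsoluteValue (RatFunc F) ℝ)
    (na : IsNonarchimedean v) (t : ℕ → RatFunc F) (h : ∀ i, v (t i) ≤ 1) (m : ℕ) :
    v (∑ i ∈ Finset.range m, t i) ≤ 1 := by
  induction m with
  | zero => simp
  | succ m ih =>
    rw [Finset.sum_range_succ]
    exact (na _ _).trans (max_le ih (h m))

private theorem drg_sum_lt {F : Type} [Field F] (v : AbsoluteValue (RatFunc F) ℝ)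
    (na : IsNonarchimedean v) (t : ℕ → RatFunc F) (h : ∀ i, v (t i) < 1) (m : ℕ) :
    v (∑ i ∈ Finset.range m, t i) < 1 := by
  induction m with
  | zero => simp
  | succ m ih =>
    rw [Finset.sum_range_succ]
    exact lt_of_le_of_lt (na _ _) (max_lt ih (h m))

private theorem drg_sum_eq {F : Type} [Field F] (v : AbsoluteValue (RatFunc F) ℝ)
    (na : IsNonarchimedean v) (t : ℕ → RatFunc F)
    (h : ∀ i, t i = 0 ∨ v (t i) = 2 ^ (2 * i + 1)) (m : ℕ) :
    (∀ i < m, t i = 0) ∨ ∃ i < m, v (∑ i ∈ Finset.range m, t i) = 2 ^ (2 * i + 1) := by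
  induction m with
  | zero => exact Or.inl fun i hi => absurd hi (Nat.not_lt_zero i)
  | succ m ih =>
    rw [Finset.sum_range_succ]
    rcases h m with h1 | h1
    · rcases ih with h2 | ⟨i, hi, h2⟩
      · left
        intro i hi
        rcases Nat.lt_succ_iff_lt_or_eq.mp hi with h3 | h3
        · exact h2 i h3
        · rw [h3]; exact h1
      · right
        exact ⟨i, Nat.lt_succ_of_lt hi, by rw [h1, add_zero, h2]⟩
    · right
      refine ⟨m, Nat.lt_succ_self m, ?_⟩
      rcases ih with h2 | ⟨i, hi, h2⟩
      · rw [Finset.sum_eq_zero fun i hi => h2 i (Finset.mem_range.mp hi), zero_add, h1]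
      · rw [IsNonarchimedean.add_eq_right_of_lt na, h1]
        rw [h1, h2]
        exact pow_lt_pow_right₀ one_lt_two (by omega)

private theorem drg_inf {F : Type} [Field F] (v : AbsoluteValue (RatFunc F) ℝ)
    (hv : IsPl none v) (f : RatFunc F) (hf : f ≠ 0) : v f = 2 ^ f.intDegree := hv f hf

private theorem drg_le {F : Type} [Field F] (Q : F[X]) (v : AbsoluteValue (RatFunc F) ℝ)
    (hv : IsPl (some Q) v) (p : F[X]) : v (algebraMap F[X] (RatFunc F) p) ≤ 1 := by
  by_cases hp : p = 0
  · rw [hp, map_zero, map_zero]; exact zero_le_one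
  · rw [hv.2.2 p hp]
    exact pow_le_one₀ (by norm_num) (by norm_num)

/-- **Drg.** -/
theorem tDrg : S_Drg := by
  intro F _ _ _ κ P hPm hPi w v hv e
  have na := drg_na v
  have hP0 : P ≠ 0 := hPm.ne_zero
  have hPa : algebraMap F[X] (RatFunc F) P ≠ 0 := RatFunc.algebraMap_ne_zero hP0
  refine ⟨?_, ?_⟩
  · rintro D ⟨a, ha, rfl⟩
    refine ⟨?_, ?_⟩
    · rintro rfl hD
      have hvP : v (algebraMap F[X] (RatFunc F) P) = 1 / 2 := by
        rw [hv.2.2 P hP0, multiplicity_self, pow_one]
      have ht : ∀ i, algebraMap F[X] (RatFunc F) (a i) /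
          algebraMap F[X] (RatFunc F) P ^ (2 * i + 1) = 0 ∨
          v (algebraMap F[X] (RatFunc F) (a i) /
            algebraMap F[X] (RatFunc F) P ^ (2 * i + 1)) = 2 ^ (2 * i + 1) := by
        intro i
        by_cases h0 : a i = 0
        · left; rw [h0, map_zero, zero_div]
        · right
          have h1 : ¬ P ∣ a i := not_dvd_of_degree_lt h0 (ha i)
          rw [map_div₀, map_pow, hvP, hv.2.2 _ h0, multiplicity_eq_zero.mpr h1, pow_zero,
            one_div, one_div, inv_pow, inv_inv]
      rcases drg_sum_eq v na _ ht ((e + 1) / 2) with h1 | ⟨i, hi, h1⟩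
      · exact absurd (Finset.sum_eq_zero fun i hi => h1 i (Finset.mem_range.mp hi)) hD
      · exact ⟨i, by omega, h1⟩
    · have hnone : w = none → v (∑ i ∈ Finset.range ((e + 1) / 2),
          algebraMap F[X] (RatFunc F) (a i) /
            algebraMap F[X] (RatFunc F) P ^ (2 * i + 1)) < 1 := by
        rintro rfl
        refine drg_sum_lt v na _ (fun i => ?_) _
        by_cases h0 : a i = 0
        · rw [h0, map_zero, zero_div, map_zero]; exact zero_lt_one
        · have h1 : algebraMap F[X] (RatFunc F) (a i) ≠ 0 := RatFunc.algebraMap_ne_zero h0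
          rw [map_div₀, map_pow, drg_inf v hv _ h1, drg_inf v hv _ hPa,
            RatFunc.intDegree_polynomial, RatFunc.intDegree_polynomial, zpow_natCast,
            zpow_natCast, ← pow_mul, div_lt_one (by positivity)]
          have h2 : (a i).natDegree < P.natDegree := natDegree_lt_natDegree h0 (ha i)
          refine pow_lt_pow_right₀ one_lt_two (lt_of_lt_of_le h2 ?_)
          exact Nat.le_mul_of_pos_right _ (by omega)
      refine ⟨fun hw => ?_, hnone⟩
      rcases w with _ | Q
      · exact (hnone rfl).le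
      · have hQP : ¬ Q ∣ P := by
          intro h
          apply hw
          rw [eq_of_monic_of_associated hv.1 hPm (hv.2.1.associated_of_dvd hPi h)]
        refine drg_sum_le v na _ (fun i => ?_) _
        rw [map_div₀, map_pow, hv.2.2 P hP0, multiplicity_eq_zero.mpr hQP, pow_zero, one_pow,
          div_one]
        exact drg_le Q v hv _
  · rintro D ⟨c, rfl⟩
    refine ⟨?_, ?_⟩
    · rintro rfl hD
      have ht : ∀ i, RatFunc.C (c i) * RatFunc.X ^ (2 * i + 1) = 0 ∨
          v (RatFunc.C (c i) * RatFunc.X ^ (2 * i + 1)) = 2 ^ (2 * i + 1) := by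
        intro i
        by_cases h0 : c i = 0
        · left; rw [h0, map_zero, zero_mul]
        · right
          have h1 : RatFunc.C (c i) ≠ 0 := by
            rw [Ne, map_eq_zero]; exact h0
          rw [map_mul, map_pow, drg_inf v hv _ h1, drg_inf v hv _ RatFunc.X_ne_zero,
            RatFunc.intDegree_C, RatFunc.intDegree_X, zpow_zero, one_mul, zpow_one]
      have hκ : v (if 1 ≤ e ∧ eps (c 0) ≠ 0 then RatFunc.C κ else 0) ≤ 1 := by
        split_ifs
        · by_cases h0 : κ = 0
          · rw [h0, map_zero, map_zero]; exact zero_le_one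
          · have h1 : RatFunc.C κ ≠ 0 := by
              rw [Ne, map_eq_zero]; exact h0
            rw [drg_inf v hv _ h1, RatFunc.intDegree_C, zpow_zero]
        · rw [map_zero]; exact zero_le_one
      rcases drg_sum_eq v na _ ht ((e + 1) / 2) with h1 | ⟨i, hi, h1⟩
      · exfalso
        apply hD
        rw [Finset.sum_eq_zero fun i hi => h1 i (Finset.mem_range.mp hi), zero_add]
        apply if_neg
        rintro ⟨he, h2⟩
        apply h2
        have h3 : c 0 = 0 := by
          have h4 := h1 0 (by omega)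
          rcases mul_eq_zero.mp h4 with h5 | h5
          · exact (map_eq_zero RatFunc.C).mp h5
          · exact absurd h5 (pow_ne_zero _ RatFunc.X_ne_zero)
        rw [h3]
        unfold eps
        rw [if_pos ⟨0, by simp⟩]
      · refine ⟨i, by omega, ?_⟩
        rw [IsNonarchimedean.add_eq_left_of_lt na, h1]
        rw [h1]
        refine lt_of_le_of_lt hκ ?_
        exact one_lt_pow₀ one_lt_two (by omega)
    · intro hw
      rcases w with _ | Q
      · exact absurd rfl hw
      · refine (na _ _).trans (max_le (drg_sum_le v na _ (fun i => ?_) _) ?_)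
        · rw [← RatFunc.algebraMap_C, ← RatFunc.algebraMap_X, ← map_pow, ← map_mul]
          exact drg_le Q v hv _
        · split_ifs
          · rw [← RatFunc.algebraMap_C]; exact drg_le Q v hv _
          · rw [map_zero]; exact zero_le_one

end Pool.Agent.MP72W
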