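import Pool.Agent.Lib.MP_72e2e6_nt.W2.C.Spec

namespace Pool.Agent.MP72W

open Polynomial IntermediateField

private theorem Eps_congr {L : Type} [Field L] [CharP L 2] {f f' θ : L}
    (h : f = f' + (θ ^ 2 + θ)) : eps f = eps f' := by
  have h2 : (2 : L) = 0 := CharTwo.two_eq_zero
  have key : (∃ x : L, x ^ 2 + x = f) ↔ ∃ x : L, x ^ 2 + x = f' := by
    constructor
    · rintro ⟨x, hx⟩
      refine ⟨x + θ, ?_⟩
      linear_combination hx + h + (x * θ + θ ^ 2 + θ) * h2
    · rintro ⟨x, hx⟩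
      refine ⟨x + θ, ?_⟩
      linear_combination hx - h + x * θ * h2
  unfold eps
  by_cases h1 : ∃ x : L, x ^ 2 + x = f
  · rw [if_pos h1, if_pos (key.1 h1)]
  · rw [if_neg h1, if_neg (fun h3 => h1 (key.2 h3))]

private theorem Eps_root {L : Type} [Field L] [CharP L 2] [IsSepClosed L] (m : L) :
    ∃ θ : L, θ ^ 2 + θ = m := by
  have hd : (X ^ 2 + X - C m : L[X]).degree = 2 := by
    compute_degree!
  obtain ⟨x, hx⟩ := IsSepClosed.exists_root (X ^ 2 + X - C m : L[X]) (by rw [hd]; decide) (by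
    refine ⟨0, 1, ?_⟩
    have h2 : (2 : L[X]) = 0 := by
      have := congrArg (C : L →+* L[X]) (CharTwo.two_eq_zero (R := L))
      rwa [map_ofNat, map_zero] at this
    simp only [derivative_sub, derivative_add, derivative_X_pow, derivative_X, derivative_C]
    simp only [Nat.cast_ofNat, map_ofNat]
    rw [h2]
    ring)
  refine ⟨x, ?_⟩
  have h3 : x ^ 2 + x - m = 0 := by simpa [IsRoot] using hx
  exact sub_eq_zero.1 h3

theorem tEps (hLc1 : S_Lc1) (hHas : S_Has) (hFr : S_Fr) : S_Eps := by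
  intro F _ _ _ v d ϖ R hLF
  obtain ⟨hnorm, hdense, hult, -, -, hfrob, hchar, hAS8, -, -⟩ := hLc1 F v d ϖ R hLF
  haveI := hult
  haveI := hchar
  have h2 : (2 : v.Completion) = 0 := CharTwo.two_eq_zero
  obtain ⟨⟨g, hg⟩, hFr2, -⟩ := hFr F v d ϖ R hLF
  have hg2 := hFr2 g hg
  haveI : CharP (Kvs v) 2 :=
    charP_of_injective_algebraMap (algebraMap v.Completion (Kvs v)).injective 2
  obtain ⟨-, -, hH3, -⟩ := hHas v.Completion (Kvs v)
  obtain ⟨r, hr1, hqr⟩ : ∃ r : ℕ, 1 ≤ r ∧ Nat.card F = 2 ^ r := by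
    haveI : Fintype F := Fintype.ofFinite F
    obtain ⟨n, -, hn⟩ := FiniteField.card F 2
    exact ⟨n, n.pos, by rw [Nat.card_eq_fintype_card, hn]⟩
  have hd := hLF.dpos
  -- `Q = 2 ^ t`
  obtain ⟨t, ht⟩ : ∃ t, t = r * d := ⟨_, rfl⟩
  have hQ : Nat.card F ^ d = 2 ^ t := by rw [hqr, ← pow_mul, ht]
  have ht1 : 1 ≤ t := by rw [ht]; exact Nat.mul_pos hr1 hd
  rw [hQ] at hfrob
  have hadd : ∀ x y : v.Completion, (x + y) ^ 2 ^ t = x ^ 2 ^ t + y ^ 2 ^ t := fun x y =>
    add_pow_char_pow x y 2 t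
  have h1 : ∀ f f' : v.Completion, ‖f‖ ≤ 1 → ‖f'‖ ≤ 1 → eps (f + f') = eps f + eps f' := by
    intro f f' hf hf'
    have hs : ‖f + f'‖ ≤ 1 := (IsUltrametricDist.norm_add_le_max f f').trans (max_le hf hf')
    rw [← hg2 _ hf, ← hg2 _ hf', ← hg2 _ hs]
    exact hH3 f f' (Eps_root _) (Eps_root _) g
  have h2' : ∀ f f' : v.Completion, ‖f‖ ≤ 1 → ‖f - f'‖ < 1 → eps f = eps f' := by
    intro f f' _ hff
    obtain ⟨θ, -, hθ⟩ := hAS8 _ hff
    exact Eps_congr (θ := θ) (by rw [hθ]; ring)
  -- norms of roots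
  have hroot : ∀ c y : v.Completion, c ^ 2 ^ t = c → y ^ 2 + y = c → y ^ 2 ^ t = y := by
    intro c y hc hy
    have hc1 : ‖c‖ ≤ 1 := by
      by_contra h
      push Not at h
      have h3 : ‖c‖ ^ 2 ^ t = ‖c‖ := by rw [← norm_pow, hc]
      have h4 : ‖c‖ ^ 1 < ‖c‖ ^ 2 ^ t := by
        apply pow_lt_pow_right₀ h
        exact Nat.one_lt_two_pow (by omega)
      rw [h3, pow_one] at h4
      exact lt_irrefl _ h4
    have hy1 : ‖y‖ ≤ 1 := by
      by_contra h
      push Not at h
      have h3 : ‖y‖ < ‖y ^ 2‖ := by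
        rw [norm_pow]
        nlinarith
      have h4 : ‖y ^ 2 + y‖ = max ‖y ^ 2‖ ‖y‖ :=
        IsUltrametricDist.norm_add_eq_max_of_norm_ne_norm h3.ne'
      rw [hy, max_eq_left h3.le] at h4
      linarith
    have hz := hfrob y hy1
    obtain ⟨z, hzd⟩ : ∃ z, z = y ^ 2 ^ t - y := ⟨_, rfl⟩
    rw [← hzd] at hz
    have hz2 : z * (z + 1) = 0 := by
      have e1 : y ^ 2 ^ t = z + y := by rw [hzd]; ring
      have e2 : (y ^ 2) ^ 2 ^ t = (z + y) ^ 2 := by rw [← e1, ← pow_mul, ← pow_mul, mul_comm]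
      have e3 := congrArg (fun x => x ^ 2 ^ t) hy
      simp only [hadd, hc, e1, e2] at e3
      linear_combination e3 - hy - z * y * h2
    rcases mul_eq_zero.1 hz2 with h3 | h3
    · rw [h3] at hzd
      exact (sub_eq_zero.1 hzd.symm)
    · exfalso
      have h4 : z = 1 := by linear_combination h3 - h2
      rw [h4, norm_one] at hz
      exact lt_irrefl _ hz
  refine ⟨h1, h2', ?_, ?_⟩
  · -- (3)
    classical
    obtain ⟨S, hS⟩ : ∃ S : Set v.Completion, S = {x | x ^ 2 ^ t = x} := ⟨_, rfl⟩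
    have hSf : S.Finite := by
      have hne : (X ^ 2 ^ t - X : v.Completion[X]) ≠ 0 :=
        FiniteField.X_pow_card_sub_X_ne_zero _ (Nat.one_lt_two_pow (by omega))
      refine ((X ^ 2 ^ t - X : v.Completion[X]).roots.toFinset.finite_toSet).subset ?_
      intro x hx
      rw [hS] at hx
      have hx' : x ^ 2 ^ t = x := hx
      simp [hne, hx']
    have hmem : ∀ x ∈ S, x ^ 2 + x ∈ S := by
      intro x hx
      rw [hS] at hx ⊢
      have hx' : x ^ 2 ^ t = x := hx
      show (x ^ 2 + x) ^ 2 ^ t = x ^ 2 + x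
      rw [hadd, hx', ← pow_mul, mul_comm, pow_mul, hx']
    have hns : ∃ c ∈ S, ∀ x ∈ S, x ^ 2 + x ≠ c := by
      by_contra hcon
      push Not at hcon
      have hsurj : Set.SurjOn (fun x : v.Completion => x ^ 2 + x) S S := fun c hc => by
        obtain ⟨x, hx, hxc⟩ := hcon c hc
        exact ⟨x, hx, hxc⟩
      have hinj : Set.InjOn (fun x : v.Completion => x ^ 2 + x) hSf.toFinset := by
        refine Finset.injOn_of_surjOn_of_card_le _ (t := hSf.toFinset) ?_ ?_ (le_refl _)
        · intro x hx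
          simp only [Set.Finite.coe_toFinset] at hx ⊢
          exact hmem x hx
        · simp only [Set.Finite.coe_toFinset]
          exact hsurj
      rw [Set.Finite.coe_toFinset] at hinj
      have h0 : (0 : v.Completion) ∈ S := by
        rw [hS]
        exact zero_pow (by positivity)
      have h1' : (1 : v.Completion) ∈ S := by
        rw [hS]
        exact one_pow _
      have := hinj h0 h1' (by
        show (0 : v.Completion) ^ 2 + 0 = 1 ^ 2 + 1
        linear_combination -h2)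
      exact zero_ne_one this
    obtain ⟨c, hcS, hc⟩ := hns
    have hcQ : c ^ 2 ^ t = c := by rw [hS] at hcS; exact hcS
    have hce : eps c = 1 := by
      unfold eps
      rw [if_neg]
      rintro ⟨y, hy⟩
      refine hc y ?_ hy
      rw [hS]
      exact hroot c y hcQ hy
    have hc1 : ‖c‖ ≤ 1 := by
      by_contra h
      push Not at h
      have h3 : ‖c‖ ^ 2 ^ t = ‖c‖ := by rw [← norm_pow, hcQ]
      have h4 : ‖c‖ ^ 1 < ‖c‖ ^ 2 ^ t := by
        apply pow_lt_pow_right₀ h
        exact Nat.one_lt_two_pow (by omega)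
      rw [h3, pow_one] at h4
      exact lt_irrefl _ h4
    obtain ⟨f, hf⟩ := hdense c 1 one_pos
    refine ⟨f, ?_, ?_⟩
    · rw [← hnorm f]
      have e : algebraMap (RatFunc F) v.Completion f =
          c + -(c - algebraMap (RatFunc F) v.Completion f) := by ring
      rw [e]
      refine (IsUltrametricDist.norm_add_le_max _ _).trans (max_le hc1 ?_)
      rw [norm_neg]
      exact hf.le
    · rw [← h2' c _ hc1 hf, hce]
  · -- (4)
    intro hd1 c
    haveI : Fintype F := Fintype.ofFinite F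
    obtain ⟨ψ, hψ⟩ : ∃ ψ : F →+* v.Completion,
      ψ = (algebraMap (RatFunc F) v.Completion).comp RatFunc.C := ⟨_, rfl⟩
    have hψa : ∀ x, algebraMap (RatFunc F) v.Completion (RatFunc.C x) = ψ x := fun x => by
      rw [hψ]; rfl
    have hq : Fintype.card F = 2 ^ t := by
      rw [← Nat.card_eq_fintype_card, ← hQ, hd1, pow_one]
    rw [hψa]
    have hcard : ∀ y : v.Completion, y ^ 2 ^ t = y → ∃ x : F, ψ x = y := by
      intro y hy
      classical
      have hne : (X ^ 2 ^ t - X : v.Completion[X]) ≠ 0 :=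
        FiniteField.X_pow_card_sub_X_ne_zero _ (Nat.one_lt_two_pow (by omega))
      have hnd : (X ^ 2 ^ t - X : v.Completion[X]).natDegree = 2 ^ t :=
        FiniteField.X_pow_card_sub_X_natDegree_eq _ (Nat.one_lt_two_pow (by omega))
      have hsub : (Finset.univ.image ψ) ⊆ (X ^ 2 ^ t - X : v.Completion[X]).roots.toFinset := by
        intro z hz
        rw [Finset.mem_image] at hz
        obtain ⟨x, -, rfl⟩ := hz
        have hx : x ^ 2 ^ t = x := by rw [← hq]; exact FiniteField.pow_card x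
        have hx' : ψ x ^ 2 ^ t = ψ x := by rw [← map_pow, hx]
        simp [hne, hx']
      have hc1 : (Finset.univ.image ψ).card = 2 ^ t := by
        rw [Finset.card_image_of_injective _ ψ.injective, Finset.card_univ, hq]
      have hc2 : (X ^ 2 ^ t - X : v.Completion[X]).roots.toFinset.card ≤ 2 ^ t := by
        refine (Multiset.toFinset_card_le _).trans ((card_roots' _).trans ?_)
        rw [hnd]
      have heq := Finset.eq_of_subset_of_card_le hsub (by rw [hc1]; exact hc2)
      have hyr : y ∈ (X ^ 2 ^ t - X : v.Completion[X]).roots.toFinset := by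
        simp [hne, hy]
      rw [← heq, Finset.mem_image] at hyr
      obtain ⟨x, -, hx⟩ := hyr
      exact ⟨x, hx⟩
    have key : (∃ x : v.Completion, x ^ 2 + x = ψ c) ↔ ∃ x : F, x ^ 2 + x = c := by
      constructor
      · rintro ⟨y, hy⟩
        have hcc : (ψ c) ^ 2 ^ t = ψ c := by
          rw [← map_pow, ← hq, FiniteField.pow_card]
        obtain ⟨x, rfl⟩ := hcard y (hroot _ y hcc hy)
        refine ⟨x, ψ.injective ?_⟩
        rw [map_add, map_pow, hy]
      · rintro ⟨x, rfl⟩
        exact ⟨ψ x, by rw [map_add, map_pow]⟩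
    unfold eps
    by_cases h : ∃ x : F, x ^ 2 + x = c
    · rw [if_pos h, if_pos (key.2 h)]
    · rw [if_neg h, if_neg (fun h' => h (key.1 h'))]

end Pool.Agent.MP72W
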