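import Pool.Agent.Lib.MP_72e2e6_nt.W2.C.Spec

namespace Pool.Agent.MP72W

open Polynomial IntermediateField

/-- The map `x ↦ x ^ 2 + x`. -/
private def Fin2_p (F : Type) [Field F] [CharP F 2] : F →+ F :=
  AddMonoidHom.mk' (fun x => x ^ 2 + x) (fun a b => by
    show (a + b) ^ 2 + (a + b) = (a ^ 2 + a) + (b ^ 2 + b)
    have h2 : (2 : F) = 0 := CharP.cast_eq_zero F 2
    have h3 : (a + b) ^ 2 = a ^ 2 + b ^ 2 := by
      calc (a + b) ^ 2 = a ^ 2 + b ^ 2 + 2 * (a * b) := by ring
        _ = _ := by rw [h2, zero_mul, add_zero]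
    rw [h3]
    ring)

private theorem Fin2_ker (F : Type) [Field F] [Finite F] [CharP F 2] :
    Nat.card (Fin2_p F).ker = 2 := by
  have h1 : ((Fin2_p F).ker : Set F) = {0, 1} := by
    ext x
    constructor
    · intro hx
      have h2 : x ^ 2 + x = 0 := hx
      have h3 : x * (x + 1) = 0 := by rw [← h2]; ring
      rcases mul_eq_zero.1 h3 with h | h
      · exact Or.inl h
      · right
        have h4 : (1 : F) + 1 = 0 := by
          have h5 : ((2 : ℕ) : F) = 0 := CharP.cast_eq_zero F 2
          rw [← h5]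
          norm_num
        show x = 1
        calc x = (x + 1) - (1 + 1) + 1 := by ring
          _ = 1 := by rw [h, h4]; ring
    · rintro (rfl | rfl)
      · show (0 : F) ^ 2 + 0 = 0
        ring
      · show (1 : F) ^ 2 + 1 = 0
        have h5 : ((2 : ℕ) : F) = 0 := CharP.cast_eq_zero F 2
        rw [← h5]
        norm_num
  have h6 : Nat.card (Fin2_p F).ker = ((Fin2_p F).ker : Set F).ncard := rfl
  rw [h6, h1, Set.ncard_pair zero_ne_one]

private theorem Fin2_index (F : Type) [Field F] [Finite F] [CharP F 2] :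
    (Fin2_p F).range.index = 2 := by
  have h1 := (Fin2_p F).range.card_mul_index
  have h2 := (Fin2_p F).ker.card_mul_index
  rw [AddSubgroup.index_ker, Fin2_ker] at h2
  rw [← h2, mul_comm] at h1
  have h3 : 0 < Nat.card (Fin2_p F).range := Nat.card_pos
  exact Nat.eq_of_mul_eq_mul_right h3 h1

theorem tFin2 : S_Fin2 := by
  intro F _ _ _
  have h2 : (2 : F) = 0 := CharP.cast_eq_zero F 2
  have hadd := fun a b : F => AddSubgroup.add_mem_iff_of_index_two (Fin2_index F) (a := a) (b := b)
  have hmem : ∀ a : F, (∃ x : F, x ^ 2 + x = a) ↔ a ∈ (Fin2_p F).range := fun a => Iff.rfl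
  have he0 : ∀ a : F, a ∈ (Fin2_p F).range → eps a = 0 := fun a h => if_pos h
  have he1 : ∀ a : F, a ∉ (Fin2_p F).range → eps a = 1 := fun a h => if_neg h
  refine ⟨fun a b => ?_, ?_, fun a κ hκ => ?_⟩
  · by_cases ha : a ∈ (Fin2_p F).range
    · by_cases hb : b ∈ (Fin2_p F).range
      · rw [he0 a ha, he0 b hb, he0 _ ((hadd a b).2 ⟨fun _ => hb, fun _ => ha⟩), add_zero]
      · rw [he0 a ha, he1 b hb, he1 _ (fun h => hb (((hadd a b).1 h).1 ha)), zero_add]
    · by_cases hb : b ∈ (Fin2_p F).range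
      · rw [he1 a ha, he0 b hb, he1 _ (fun h => ha (((hadd a b).1 h).2 hb)), add_zero]
      · rw [he1 a ha, he1 b hb,
          he0 _ ((hadd a b).2 ⟨fun h => absurd h ha, fun h => absurd h hb⟩)]
        decide
  · by_contra hn
    push Not at hn
    have h3 : (Fin2_p F).range = ⊤ := by
      rw [eq_top_iff]
      intro a _
      by_contra ha
      exact hn a (he1 a ha)
    have h4 := Fin2_index F
    rw [h3, AddSubgroup.index_top] at h4
    omega
  · have hk : κ ∉ (Fin2_p F).range := fun h => by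
      rw [he0 κ h] at hκ
      exact absurd hκ (by decide)
    by_cases ha : a ∈ (Fin2_p F).range
    · obtain ⟨z, hz⟩ := ha
      exact ⟨z, Or.inl hz.symm⟩
    · obtain ⟨z, hz⟩ := (hadd a κ).2 ⟨fun h => absurd h ha, fun h => absurd h hk⟩
      refine ⟨z, Or.inr ?_⟩
      have hz' : z ^ 2 + z = a + κ := hz
      rw [hz']
      calc a = a + 0 * κ := by ring
        _ = a + 2 * κ := by rw [h2]
        _ = a + κ + κ := by ring

end Pool.Agent.MP72W
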