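import Pool.Agent.Lib.MP_72e2e6_nt.W2.C.Spec

/-!
# MP_72e2e6_nt, T3, part C: local Frobenius elements
-/

namespace Pool.Agent.MP72W

open Polynomial IntermediateField

private theorem as_root' {L : Type} [Field L] [CharP L 2] [IsSepClosed L] (x : L) :
    ∃ θ : L, θ ^ 2 + θ = x := by
  have h2 : (2 : L) = 0 := CharTwo.two_eq_zero
  have hder : derivative (X ^ 2 + X - C x : L[X]) = 1 := by
    have h3 : (2 : L[X]) = 0 := by
      have h4 : (C (2 : L) : L[X]) = 2 := map_ofNat C 2
      rw [← h4, h2, map_zero]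
    simp [derivative_pow]
    first | exact h3 | exact h2
  have hsep : (X ^ 2 + X - C x : L[X]).Separable := by
    rw [separable_def, hder]
    exact isCoprime_one_right
  have hdeg : (X ^ 2 + X - C x : L[X]).degree ≠ 0 := by
    have h3 : (X ^ 2 + X - C x : L[X]).natDegree = 2 := by compute_degree!
    intro h
    have h4 := natDegree_eq_of_degree_eq_some (n := 0) h
    omega
  obtain ⟨θ, hθ⟩ := IsSepClosed.exists_root _ hdeg hsep
  refine ⟨θ, ?_⟩
  rw [IsRoot, eval_sub, eval_add, eval_pow, eval_X, eval_C] at hθ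
  exact sub_eq_zero.mp hθ

/-- The subfield of the solutions of `x ^ (2 ^ s) = x`. -/
private def fixS (L : Type) [Field L] [CharP L 2] (s : ℕ) : Subfield L where
  carrier := {x | x ^ 2 ^ s = x}
  mul_mem' := by
    intro a b ha hb
    change (a * b) ^ 2 ^ s = a * b
    rw [mul_pow, show a ^ 2 ^ s = a from ha, show b ^ 2 ^ s = b from hb]
  one_mem' := one_pow _
  add_mem' := by
    intro a b ha hb
    change (a + b) ^ 2 ^ s = a + b
    rw [add_pow_char_pow, show a ^ 2 ^ s = a from ha, show b ^ 2 ^ s = b from hb]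
  zero_mem' := zero_pow (pow_pos (by norm_num) s).ne'
  neg_mem' := by
    intro a ha
    change (-a) ^ 2 ^ s = -a
    rw [CharTwo.neg_eq]
    exact ha
  inv_mem' := by
    intro a ha
    change (a⁻¹) ^ 2 ^ s = a⁻¹
    rw [inv_pow, show a ^ 2 ^ s = a from ha]

private theorem exists_gen (L : Type) [Field L] [CharP L 2] (s : ℕ) (hs : 1 ≤ s) :
    ∃ c : L, c ^ 2 ^ s = c ∧ ∀ x : L, x ^ 2 ^ s = x → x ≠ 0 → ∃ k : ℕ, x = c ^ k := by
  classical
  have hQ : 1 < 2 ^ s := Nat.one_lt_two_pow (by omega)
  have hne : (X ^ 2 ^ s - X : L[X]) ≠ 0 := FiniteField.X_pow_card_sub_X_ne_zero L hQ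
  have hfin : Finite (fixS L s) := by
    have h1 : {x : L | x ^ 2 ^ s = x}.Finite := by
      refine ((X ^ 2 ^ s - X : L[X]).roots.toFinset.finite_toSet).subset fun x hx => ?_
      rw [Finset.mem_coe, Multiset.mem_toFinset, mem_roots hne, IsRoot, eval_sub, eval_pow,
        eval_X, sub_eq_zero]
      exact hx
    exact h1.to_subtype
  obtain ⟨g, hg⟩ := IsCyclic.exists_generator (α := (fixS L s)ˣ)
  refine ⟨((g : fixS L s) : L), (g : fixS L s).2, fun x hx hx0 => ?_⟩
  have h1 := hg (Units.mk0 (⟨x, hx⟩ : fixS L s) fun h => hx0 (congrArg Subtype.val h))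
  rw [← mem_powers_iff_mem_zpowers] at h1
  obtain ⟨k, hk⟩ := h1
  refine ⟨k, ?_⟩
  have h2 := congrArg (fun t : (fixS L s)ˣ => ((t : fixS L s) : L)) hk
  simp only [Units.val_pow_eq_pow_val, SubmonoidClass.coe_pow, Units.val_mk0] at h2
  exact h2.symm

/-- The set of the `g` with `g x ∈ S` is closed. -/
private theorem isClosed_eval {K L : Type} [Field K] [Field L] [Algebra K L]
    [Algebra.IsAlgebraic K L] (x y : L) : IsClosed {g : Gal(L/K) | g x = y} := by
  rw [← isOpen_compl_iff, isOpen_iff_mem_nhds]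
  intro g hg
  have hfd : FiniteDimensional K (adjoin K {x}) :=
    IntermediateField.adjoin.finiteDimensional (Algebra.IsIntegral.isIntegral x)
  have hopen := IntermediateField.fixingSubgroup_isOpen (adjoin K {x})
  have h1 : (fun h : Gal(L/K) => g⁻¹ * h) ⁻¹' ((adjoin K {x}).fixingSubgroup : Set Gal(L/K)) ∈
      nhds g := by
    refine (hopen.preimage (continuous_const_mul g⁻¹)).mem_nhds ?_
    change g⁻¹ * g ∈ (adjoin K {x}).fixingSubgroup
    rw [inv_mul_cancel]
    exact one_mem _
  refine Filter.mem_of_superset h1 fun h hh hx => hg ?_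
  have h2 := (IntermediateField.mem_fixingSubgroup_iff _ _).mp hh x
    (IntermediateField.mem_adjoin_simple_self K x)
  have h3 : g⁻¹ (h x) = x := h2
  have h4 : h x = y := hx
  rw [h4] at h3
  change g x = y
  rw [← h3]
  exact AlgEquiv.apply_symm_apply g y

theorem tFr (hLc1 : S_Lc1) (hLc2 : S_Lc2) (hCst : S_Cst) (hNr : S_Nr) (hHas : S_Has) : S_Fr := by
  classical
  intro F _ _ _ v d ϖ R hLF
  obtain ⟨hn, _, hult, _, _, _, hchar, h8, h9, _⟩ := hLc1 F v d ϖ R hLF
  have hcharK : CharP (Kvs v) 2 :=
    charP_of_injective_algebraMap (algebraMap v.Completion (Kvs v)).injective 2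
  obtain ⟨r, hr, hq⟩ : ∃ r, 1 ≤ r ∧ Nat.card F = 2 ^ r := by
    have := Fintype.ofFinite F
    obtain ⟨n, -, hn⟩ := FiniteField.card F 2
    exact ⟨n, n.2, by rw [Nat.card_eq_fintype_card, hn]⟩
  have hdpos := hLF.dpos
  have hq1 : 1 < Nat.card F := Finite.one_lt_card
  have hqn : ∀ n, Nat.card F ^ n = 2 ^ (r * n) := fun n => by rw [hq, ← pow_mul]
  obtain ⟨c1, c2, c3, c4, c5, c6⟩ := hCst (Nat.card F) r hr hq (Kvs v)
  have hnr7 := (hNr F v d ϖ R hLF).2.2.2.2.2.2
  have hfrob : ∀ (n : ℕ) (a b : Kvs v),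
      (a + b) ^ Nat.card F ^ n = a ^ Nat.card F ^ n + b ^ Nat.card F ^ n := by
    intro n a b
    rw [hqn]
    exact add_pow_char_pow a b 2 (r * n)
  have hiter : ∀ (n : ℕ) (x : Kvs v), x ^ Nat.card F ^ n = x →
      ∀ k, x ^ Nat.card F ^ (n * k) = x := by
    intro n x hx k
    induction k with
    | zero => rw [mul_zero, pow_zero, pow_one]
    | succ k ih => rw [Nat.mul_succ, pow_add, pow_mul, ih, hx]
  -- the constants as a subring
  let S : Subring (Kvs v) :=
    { carrier := Cst (Nat.card F) (Kvs v)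
      mul_mem' := fun ha hb => (c3 _ ha _ hb).2
      one_mem' := c2
      add_mem' := fun ha hb => (c3 _ ha _ hb).1
      zero_mem' := c1
      neg_mem' := fun {a} ha => by
        change -a ∈ Cst (Nat.card F) (Kvs v)
        rw [CharTwo.neg_eq]
        exact ha }
  -- (1)
  have hone : ∀ n, 1 ≤ n → ∃ g : Gal(Kvs v/v.Completion), ∀ x : Kvs v,
      x ^ Nat.card F ^ n = x → g x = x ^ (Nat.card F ^ d) := by
    intro n hn1
    obtain ⟨c, hc, hcgen⟩ := exists_gen (Kvs v) (r * n) (Nat.mul_pos hr hn1)
    rw [← hqn] at hc hcgen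
    have hcint : IsIntegral v.Completion c := Algebra.IsIntegral.isIntegral c
    let p := minpoly v.Completion c
    have hroot : ∀ z ∈ (p.map (algebraMap v.Completion (Kvs v))).roots, z ∈ S := by
      intro z hz
      have h1 : p ∣ (X ^ Nat.card F ^ n - X : v.Completion[X]) := by
        refine minpoly.dvd _ _ ?_
        rw [map_sub, map_pow, aeval_X, hc, sub_self]
      have h2 : eval z (p.map (algebraMap v.Completion (Kvs v))) = 0 := isRoot_of_mem_roots hz
      obtain ⟨s, hs⟩ := h1
      have h3 : z ^ Nat.card F ^ n = z := by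
        have h4 := congrArg (fun t : v.Completion[X] =>
          eval z (t.map (algebraMap v.Completion (Kvs v)))) hs
        simp only [Polynomial.map_mul, eval_mul, h2, zero_mul, Polynomial.map_sub,
          Polynomial.map_pow, Polynomial.map_X, eval_sub, eval_pow, eval_X] at h4
        exact sub_eq_zero.mp h4
      exact ⟨n, hn1, h3⟩
    have hsplit : (p.map (algebraMap v.Completion (Kvs v))).Splits :=
      Normal.splits inferInstance c
    have hlift : p.map (algebraMap v.Completion (Kvs v)) ∈ lifts S.subtype := by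
      rw [hsplit.eq_prod_roots_of_monic ((minpoly.monic hcint).map _)]
      refine Subsemiring.multiset_prod_mem _ _ fun t ht => ?_
      obtain ⟨z, hz, rfl⟩ := Multiset.mem_map.mp ht
      refine ⟨X - C ⟨z, hroot z hz⟩, ?_⟩
      simp
    have hcoeff : ∀ i, (p.coeff i) ^ (Nat.card F ^ d) = p.coeff i := by
      intro i
      refine hnr7 _ ?_
      rw [lifts_iff_coeff_lifts] at hlift
      obtain ⟨⟨y, hy⟩, hy'⟩ := hlift i
      rw [coeff_map] at hy'
      rw [← hy']
      exact hy
    have hpc : aeval (c ^ (Nat.card F ^ d)) p = 0 := by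
      have h1 : (aeval c p) ^ (Nat.card F ^ d) = 0 := by
        rw [minpoly.aeval, zero_pow (pow_pos (by omega) d).ne']
      rw [← h1, aeval_eq_sum_range, aeval_eq_sum_range, hqn, sum_pow_char_pow]
      refine Finset.sum_congr rfl fun i _ => ?_
      rw [← hqn, Algebra.smul_def, Algebra.smul_def, mul_pow, ← map_pow, hcoeff, ← pow_mul,
        ← pow_mul, mul_comm i]
    obtain ⟨g, hg⟩ := minpoly.exists_algEquiv_of_root' (K := v.Completion) (L := Kvs v)
      (Algebra.IsAlgebraic.isAlgebraic c) hpc
    refine ⟨g, fun x hx => ?_⟩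
    by_cases hx0 : x = 0
    · rw [hx0, map_zero, zero_pow (pow_pos (by omega) d).ne']
    · obtain ⟨k, rfl⟩ := hcgen x hx hx0
      rw [map_pow, hg, ← pow_mul, ← pow_mul, mul_comm k]
  have hexg : ∃ g : Gal(Kvs v/v.Completion), IsFro (Nat.card F) (Nat.card F ^ d) g := by
    have hne : Nonempty {n : ℕ // 1 ≤ n} := ⟨⟨1, le_rfl⟩⟩
    have hclosed : ∀ n : {n : ℕ // 1 ≤ n}, IsClosed {g : Gal(Kvs v/v.Completion) |
        ∀ x : Kvs v, x ^ Nat.card F ^ (n : ℕ) = x → g x = x ^ (Nat.card F ^ d)} := by
      intro n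
      have h1 : {g : Gal(Kvs v/v.Completion) |
          ∀ x : Kvs v, x ^ Nat.card F ^ (n : ℕ) = x → g x = x ^ (Nat.card F ^ d)} =
          ⋂ x : {x : Kvs v // x ^ Nat.card F ^ (n : ℕ) = x},
            {g : Gal(Kvs v/v.Completion) | g x = (x : Kvs v) ^ (Nat.card F ^ d)} := by
        ext g
        rw [Set.mem_iInter]
        constructor
        · intro h x
          exact h x x.2
        · intro h x hx
          exact h ⟨x, hx⟩
      rw [h1]
      exact isClosed_iInter fun x => isClosed_eval _ _
    have h1 := IsCompact.nonempty_iInter_of_directed_nonempty_isCompact_isClosed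
      (fun n : {n : ℕ // 1 ≤ n} => {g : Gal(Kvs v/v.Completion) |
        ∀ x : Kvs v, x ^ Nat.card F ^ (n : ℕ) = x → g x = x ^ (Nat.card F ^ d)}) (by
        rintro ⟨n, hn1⟩ ⟨m, hm1⟩
        refine ⟨⟨n * m, Nat.mul_pos hn1 hm1⟩, ?_, ?_⟩
        · intro g hg x hx
          exact hg x (hiter n x hx m)
        · intro g hg x hx
          refine hg x ?_
          have h2 := hiter m x hx n
          rw [mul_comm m n] at h2
          exact h2)
      (fun n => by
        obtain ⟨g, hg⟩ := hone n n.2
        exact ⟨g, hg⟩)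
      (fun n => (hclosed n).isCompact) hclosed
    obtain ⟨g, hg⟩ := h1
    rw [Set.mem_iInter] at hg
    refine ⟨g, ?_⟩
    rintro x ⟨n, hn1, hx⟩
    exact hg ⟨n, hn1⟩ x hx
  -- (2), (3)
  have has := hHas v.Completion (Kvs v)
  obtain ⟨_, as2, as3, as4⟩ := has
  have hred : ∀ f : v.Completion, ‖f‖ ≤ 1 → ∃ c : v.Completion, c ^ (Nat.card F ^ d) = c ∧
      eps f = eps c ∧ ∀ g, hAS v.Completion (Kvs v) f g = hAS v.Completion (Kvs v) c g := by
    intro f hf
    obtain ⟨c, hc, hfc⟩ := h9 f hf
    obtain ⟨z, -, hz⟩ := h8 _ hfc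
    have hfz : f = c + (z ^ 2 + z) := by
      rw [hz]
      ring
    refine ⟨c, hc, ?_, fun g => ?_⟩
    · have h2 : (2 : v.Completion) = 0 := CharTwo.two_eq_zero
      have hiff : (∃ x : v.Completion, x ^ 2 + x = f) ↔ ∃ x : v.Completion, x ^ 2 + x = c := by
        constructor
        · rintro ⟨x, hx⟩
          refine ⟨x + z, ?_⟩
          have h3 : (x + z) ^ 2 + (x + z) = (x ^ 2 + x) + (z ^ 2 + z) + 2 * (x * z) := by ring
          rw [h3, h2, zero_mul, add_zero, hx, hfz, add_assoc, CharTwo.add_self_eq_zero, add_zero]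
        · rintro ⟨x, hx⟩
          refine ⟨x + z, ?_⟩
          have h3 : (x + z) ^ 2 + (x + z) = (x ^ 2 + x) + (z ^ 2 + z) + 2 * (x * z) := by ring
          rw [h3, h2, zero_mul, add_zero, hx, ← hfz]
      unfold eps
      simp only [hiff]
    · have h3 := as3 c (z ^ 2 + z) (as_root' _) (as_root' _) g
      rw [← hfz, (as4 (z ^ 2 + z) (as_root' _)).mpr ⟨z, rfl⟩ g, add_zero] at h3
      exact h3
  have hcst : ∀ c : v.Completion, c ^ (Nat.card F ^ d) = c →
      algebraMap v.Completion (Kvs v) c ∈ Cst (Nat.card F) (Kvs v) := by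
    intro c hc
    exact ⟨d, hdpos, by rw [← map_pow, hc]⟩
  have ho2 : ∀ a : ZMod 2, (o2 (Kvs v) a = 0 ↔ a = 0) := by
    intro a
    have hz : ∀ c : ZMod 2, c = 0 ∨ c = 1 := by decide
    rcases hz a with rfl | rfl
    · simp [o2]
    · simp [o2]
  refine ⟨hexg, ?_, ?_⟩
  · intro g hg f hf
    obtain ⟨c, hc, heps, hh⟩ := hred f hf
    rw [heps, hh]
    obtain ⟨θ, hθ⟩ := as_root' (algebraMap v.Completion (Kvs v) c)
    have hθc := c5 _ θ (hcst c hc) hθ
    have h1 := as2 c θ hθ g
    rw [hg θ hθc] at h1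
    by_cases h0 : ∃ x : v.Completion, x ^ 2 + x = c
    · have h2 : eps c = 0 := by
        unfold eps
        rw [if_pos h0]
      rw [h2]
      exact (as4 c (as_root' _)).mpr h0 g
    · have h2 : eps c = 1 := by
        unfold eps
        rw [if_neg h0]
      rw [h2]
      have hz : ∀ c : ZMod 2, c = 0 ∨ c = 1 := by decide
      refine (hz _).resolve_left fun h3 => h0 ?_
      rw [(ho2 _).mpr h3, add_zero] at h1
      -- `θ` is in the completion
      have hsurj : ∃ x : v.Completion, algebraMap v.Completion (Kvs v) x = θ := by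
        have hex : ∀ s : R, ∃ x : v.Completion, x ^ (Nat.card F ^ d) = x ∧
            ‖algebraMap (RatFunc F) v.Completion s - x‖ < 1 := by
          intro s
          exact h9 _ (by rw [hn]; exact hLF.int s s.2)
        choose γ hγ1 hγ2 using hex
        have hinj : Function.Injective γ := by
          intro s s' hss
          by_contra hne
          have h4 := hLF.sep s s.2 s' s'.2 fun h => hne (Subtype.ext h)
          have h5 : ‖algebraMap (RatFunc F) v.Completion s -
              algebraMap (RatFunc F) v.Completion s'‖ < 1 := by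
            have h6 : algebraMap (RatFunc F) v.Completion s -
                algebraMap (RatFunc F) v.Completion s' =
                (algebraMap (RatFunc F) v.Completion s - γ s) -
                (algebraMap (RatFunc F) v.Completion s' - γ s') := by
              rw [hss]
              ring
            rw [h6, sub_eq_add_neg]
            refine lt_of_le_of_lt (IsUltrametricDist.norm_add_le_max _ _) (max_lt (hγ2 s) ?_)
            rw [norm_neg]
            exact hγ2 s'
          rw [← map_sub, hn, h4] at h5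
          exact lt_irrefl _ h5
        let T : Finset (Kvs v) := Finset.univ.image fun s : R =>
          algebraMap v.Completion (Kvs v) (γ s)
        have hTcard : T.card = Nat.card F ^ d := by
          have hinj2 : Function.Injective fun s : R => algebraMap v.Completion (Kvs v) (γ s) :=
            (algebraMap v.Completion (Kvs v)).injective.comp hinj
          rw [Finset.card_image_of_injective _ hinj2, Finset.card_univ, Fintype.card_coe,
            hLF.card]
        have hsub : (T : Set (Kvs v)) ⊆ {x : Kvs v | x ^ Nat.card F ^ d = x} := by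
          intro x hx
          obtain ⟨s, -, rfl⟩ := Finset.mem_image.mp (Finset.mem_coe.mp hx)
          change (algebraMap v.Completion (Kvs v) (γ s)) ^ Nat.card F ^ d = _
          rw [← map_pow, hγ1]
        have hfinite : {x : Kvs v | x ^ Nat.card F ^ d = x}.Finite := by
          refine Set.finite_of_ncard_pos ?_
          rw [c6 d hdpos]
          exact pow_pos (by omega) d
        have heq : (T : Set (Kvs v)) = {x : Kvs v | x ^ Nat.card F ^ d = x} := by
          refine Set.eq_of_subset_of_ncard_le hsub ?_ hfinite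
          rw [c6 d hdpos, Set.ncard_coe_finset, hTcard]
        have hmem : θ ∈ (T : Set (Kvs v)) := by
          rw [heq]
          exact h1
        obtain ⟨s, -, hs⟩ := Finset.mem_image.mp (Finset.mem_coe.mp hmem)
        exact ⟨γ s, hs⟩
      obtain ⟨x, rfl⟩ := hsurj
      refine ⟨x, (algebraMap v.Completion (Kvs v)).injective ?_⟩
      rw [map_add, map_pow, hθ]
  · intro g hg f hf
    obtain ⟨c, hc, -, hh⟩ := hred f hf
    rw [hh]
    obtain ⟨θ, hθ⟩ := as_root' (algebraMap v.Completion (Kvs v) c)
    have hθc := c5 _ θ (hcst c hc) hθ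
    have h1 := as2 c θ hθ g
    rw [hg θ hθc] at h1
    exact (ho2 _).mp (by
      have h2 : θ + 0 = θ + o2 (Kvs v) (hAS v.Completion (Kvs v) c g) := by rw [add_zero]; exact h1
      exact (add_left_cancel h2).symm)

end Pool.Agent.MP72W
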