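import Pool.Agent.Lib.MP_72e2e6_nt.W2.C.Spec

/-!
# MP_72e2e6_nt, theorem T3, part C: the completion
-/

namespace Pool.Agent.MP72W

open Polynomial IntermediateField

section
variable {F : Type} [Field F] (v : AbsoluteValue (RatFunc F) ℝ)

private theorem lc1_norm (x : RatFunc F) : ‖algebraMap (RatFunc F) v.Completion x‖ = v x :=
  UniformSpace.Completion.norm_coe (WithAbs.toAbs v x)

private theorem lc1_dense (x : v.Completion) (ε : ℝ) (hε : 0 < ε) :
    ∃ y : RatFunc F, ‖x - algebraMap _ _ y‖ < ε := by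
  obtain ⟨y, hy⟩ := (UniformSpace.Completion.denseRange_coe (α := WithAbs v)).exists_dist_lt x hε
  exact ⟨y.ofAbs, by rw [← dist_eq_norm]; exact hy⟩

private theorem lc1_ultra (hna : IsNonarchimedean v) : IsUltrametricDist v.Completion := by
  refine IsUltrametricDist.isUltrametricDist_of_forall_norm_add_le_max_norm fun x y => ?_
  refine UniformSpace.Completion.induction_on₂ x y ?_ fun a b => ?_
  · exact isClosed_le (by fun_prop) (by fun_prop)
  · rw [← UniformSpace.Completion.coe_add, UniformSpace.Completion.norm_coe,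
      UniformSpace.Completion.norm_coe, UniformSpace.Completion.norm_coe]
    exact hna a.ofAbs b.ofAbs

/-- Solution of `w = w ^ N + z`. -/
private theorem lc1_series {K : Type} [NormedField K] [CompleteSpace K] [IsUltrametricDist K]
    [CharP K 2] (n : ℕ) (hn : 1 ≤ n) (z : K) (hz : ‖z‖ < 1) :
    ∃ w : K, ‖w‖ < 1 ∧ w = w ^ (2 ^ n) + z := by
  have hN : 1 < 2 ^ n := Nat.one_lt_two_pow (by omega)
  have hs : Summable (fun i : ℕ => z ^ ((2 ^ n) ^ i)) := by
    refine Summable.of_norm_bounded (g := fun i => ‖z‖ ^ i)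
      (summable_geometric_of_lt_one (norm_nonneg _) hz) fun i => ?_
    rw [norm_pow]
    exact pow_le_pow_of_le_one (norm_nonneg _) hz.le (Nat.lt_pow_self hN).le
  refine ⟨∑' i, z ^ ((2 ^ n) ^ i), ?_, ?_⟩
  · refine lt_of_le_of_lt (IsUltrametricDist.norm_tsum_le_of_forall_le_of_nonneg
      (norm_nonneg z) fun i => ?_) hz
    rw [norm_pow]
    exact (pow_le_pow_of_le_one (norm_nonneg _) hz.le
      (Nat.one_le_pow _ _ (by positivity))).trans (pow_one _).le
  · have hcont : Continuous (iterateFrobenius K 2 n) := by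
      have : (iterateFrobenius K 2 n : K → K) = fun x => x ^ (2 ^ n) := by
        funext x
        exact iterateFrobenius_def _ _ _
      rw [this]
      fun_prop
    have h1 := hs.map_tsum (iterateFrobenius K 2 n) hcont
    rw [iterateFrobenius_def] at h1
    rw [h1]
    conv_lhs => rw [hs.tsum_eq_zero_add]
    rw [pow_zero, pow_one, add_comm]
    congr 1
    refine tsum_congr fun i => ?_
    rw [iterateFrobenius_def, pow_succ (2 ^ n) i, pow_mul]

end

theorem tLc1 : S_Lc1 := by
  intro F _ _ _ v d ϖ R h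
  have hU : IsUltrametricDist v.Completion := lc1_ultra v h.na
  have : CharP (RatFunc F) 2 := charP_of_injective_algebraMap
    (algebraMap F (RatFunc F)).injective 2
  have hC : CharP v.Completion 2 := charP_of_injective_algebraMap
    (algebraMap (RatFunc F) v.Completion).injective 2
  have : Fintype F := Fintype.ofFinite F
  obtain ⟨n, -, hn⟩ := FiniteField.card F 2
  have hq : Nat.card F ^ d = 2 ^ ((n : ℕ) * d) := by
    rw [Nat.card_eq_fintype_card, hn, pow_mul]
  have hnd : 1 ≤ (n : ℕ) * d := Nat.mul_pos n.pos h.dpos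
  have hap : ∀ x : v.Completion, ‖x‖ ≤ 1 → ∃ y : RatFunc F, v y ≤ 1 ∧
      ‖x - algebraMap _ _ y‖ < 1 := by
    intro x hx
    obtain ⟨y, hy⟩ := lc1_dense v x 1 one_pos
    refine ⟨y, ?_, hy⟩
    rw [← lc1_norm v y]
    have h1 : algebraMap (RatFunc F) v.Completion y = x + -(x - algebraMap _ _ y) := by ring
    rw [h1]
    refine (IsUltrametricDist.norm_add_le_max _ _).trans (max_le hx ?_)
    rw [norm_neg]
    exact hy.le
  have h6 : ∀ x : v.Completion, ‖x‖ ≤ 1 → ‖x ^ (Nat.card F ^ d) - x‖ < 1 := by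
    intro x hx
    obtain ⟨y, hy1, hy⟩ := hap x hx
    have h1 := h.frob y hy1
    rw [← lc1_norm v, map_sub, map_pow] at h1
    have he : x ^ (Nat.card F ^ d) - x =
        (x - algebraMap _ _ y) ^ (2 ^ ((n : ℕ) * d)) +
        (((algebraMap (RatFunc F) v.Completion y) ^ (Nat.card F ^ d) -
          algebraMap (RatFunc F) v.Completion y) + -(x - algebraMap _ _ y)) := by
      rw [hq, sub_pow_char_pow]
      ring
    rw [he]
    refine (IsUltrametricDist.norm_add_le_max _ _).trans_lt (max_lt ?_ ?_)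
    · rw [norm_pow]
      exact pow_lt_one₀ (norm_nonneg _) hy (by positivity)
    · refine (IsUltrametricDist.norm_add_le_max _ _).trans_lt (max_lt h1 ?_)
      rw [norm_neg]
      exact hy
  refine ⟨lc1_norm v, lc1_dense v, hU, ?_, ?_, h6, hC, ?_, ?_, ?_⟩
  · intro x hx
    obtain ⟨y, hy⟩ := lc1_dense v x ‖x‖ (norm_pos_iff.2 hx)
    have h1 : algebraMap (RatFunc F) v.Completion y = x + -(x - algebraMap _ _ y) := by ring
    have h2 : ‖algebraMap (RatFunc F) v.Completion y‖ = ‖x‖ := by
      rw [h1, IsUltrametricDist.norm_add_eq_max_of_norm_ne_norm, norm_neg]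
      · exact max_eq_left hy.le
      · rw [norm_neg]
        exact hy.ne'
    rw [lc1_norm] at h2
    have hy0 : y ≠ 0 := by
      rintro rfl
      rw [map_zero] at h2
      exact hx (norm_eq_zero.1 h2.symm)
    rw [← h2]
    exact h.disc y hy0
  · intro x hx
    obtain ⟨y, hy1, hy⟩ := hap x hx
    obtain ⟨r, hr, hyr⟩ := h.cov y hy1
    refine ⟨r, hr, ?_⟩
    have h1 : x - algebraMap (RatFunc F) v.Completion r =
        (x - algebraMap _ _ y) + algebraMap _ _ (y - r) := by
      rw [map_sub]
      ring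
    rw [h1]
    refine (IsUltrametricDist.norm_add_le_max _ _).trans_lt (max_lt hy ?_)
    rw [lc1_norm]
    exact hyr
  · intro x hx
    obtain ⟨w, hw, he⟩ := lc1_series 1 le_rfl x hx
    refine ⟨w, hw, ?_⟩
    have h2 : (2 : v.Completion) = 0 := CharTwo.two_eq_zero
    rw [pow_one] at he
    linear_combination he + w ^ 2 * h2
  · intro x hx
    obtain ⟨w, hw, he⟩ := lc1_series ((n : ℕ) * d) hnd (x ^ (Nat.card F ^ d) - x) (h6 x hx)
    refine ⟨x + w, ?_, ?_⟩
    · rw [hq, add_pow_char_pow]
      rw [hq] at he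
      linear_combination (-1 : v.Completion) * he
    · rw [sub_add_cancel_left, norm_neg]
      exact hw
  · intro y hy
    have hy1 : 1 < ‖y‖ := by
      by_contra hle
      rw [not_lt] at hle
      refine absurd hy (not_lt.2 ((IsUltrametricDist.norm_add_le_max _ _).trans
        (max_le ?_ hle)))
      rw [norm_pow]
      exact pow_le_one₀ (norm_nonneg _) hle
    have hlt : ‖y‖ < ‖y ^ 2‖ := by
      rw [norm_pow]
      exact lt_self_pow₀ hy1 one_lt_two
    refine ⟨hy1, ?_⟩
    rw [IsUltrametricDist.norm_add_eq_max_of_norm_ne_norm hlt.ne', max_eq_left hlt.le, norm_pow]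

end Pool.Agent.MP72W
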