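import Pool.Agent.Lib.MP_72e2e6_nt.W2.C.Spec

/-!
# MP_72e2e6_nt, T3, part C: the spectral norm on the separable closure
-/

namespace Pool.Agent.MP72W

open Polynomial IntermediateField

private theorem as_root {L : Type} [Field L] [CharP L 2] [IsSepClosed L] (x : L) :
    ∃ θ : L, θ ^ 2 + θ = x := by
  have h2 : (2 : L) = 0 := CharTwo.two_eq_zero
  have hder : derivative (X ^ 2 + X - C x : L[X]) = 1 := by
    have h3 : (2 : L[X]) = 0 := by
      have h4 : (C (2 : L) : L[X]) = 2 := map_ofNat C 2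
      rw [← h4, h2, map_zero]
    simp [derivative_pow]
    first | exact h3 | exact h2
  have hsep : (X ^ 2 + X - C x : L[X]).Separable := by
    rw [separable_def, hder]
    exact isCoprime_one_right
  have hdeg : (X ^ 2 + X - C x : L[X]).degree ≠ 0 := by
    have h3 : (X ^ 2 + X - C x : L[X]).natDegree = 2 := by compute_degree!
    intro h
    have h4 := natDegree_eq_of_degree_eq_some (n := 0) h
    omega
  obtain ⟨θ, hθ⟩ := IsSepClosed.exists_root _ hdeg hsep
  refine ⟨θ, ?_⟩
  rw [IsRoot, eval_sub, eval_add, eval_pow, eval_X, eval_C] at hθ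
  exact sub_eq_zero.mp hθ

theorem tLc2 (hLc1 : S_Lc1) : S_Lc2 := by
  intro F _ _ _ v d ϖ R hLF
  obtain ⟨hn, _, hult, _, _, _, hchar, _, _, _⟩ := hLc1 F v d ϖ R hLF
  have hcharK : CharP (Kvs v) 2 :=
    charP_of_injective_algebraMap (algebraMap v.Completion (Kvs v)).injective 2
  have hne : ∃ x : v.Completion, x ≠ 0 ∧ ‖x‖ ≠ 1 := by
    refine ⟨algebraMap (RatFunc F) v.Completion ϖ, ?_, ?_⟩
    · intro h
      have h1 := hn ϖ
      rw [h, norm_zero] at h1
      exact hLF.pi0.ne h1
    · rw [hn]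
      exact hLF.pi1.ne
  have hnn : ∀ x : Kvs v, 0 ≤ nm v x := fun x => spectralNorm_nonneg x
  have hext : ∀ x : v.Completion, nm v (algebraMap v.Completion (Kvs v) x) = ‖x‖ :=
    fun x => spectralNorm_extends x
  have hz : ∀ x : Kvs v, nm v x = 0 ↔ x = 0 := by
    intro x
    constructor
    · intro h
      exact eq_zero_of_map_spectralNorm_eq_zero h (Algebra.IsAlgebraic.isAlgebraic x)
    · rintro rfl
      have h1 := hext 0
      rw [map_zero, norm_zero] at h1
      exact h1
  have hmul : ∀ x y : Kvs v, nm v (x * y) = nm v x * nm v y := by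
    let _ : NontriviallyNormedField v.Completion := NontriviallyNormedField.ofNormNeOne hne
    intro x y
    exact spectralAlgNorm_mul (K := v.Completion) (L := Kvs v) x y
  have hadd : ∀ x y : Kvs v, nm v (x + y) ≤ max (nm v x) (nm v y) := fun x y =>
    isNonarchimedean_spectralNorm (K := v.Completion) (L := Kvs v) x y
  have hgal : ∀ (g : Gal(Kvs v/v.Completion)) (x : Kvs v), nm v (g x) = nm v x := fun g x =>
    (spectralNorm_eq_of_equiv g x).symm
  have hone : nm v 1 = 1 := by
    have h1 := hext 1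
    rw [map_one, norm_one] at h1
    exact h1
  have hpow : ∀ (x : Kvs v) (n : ℕ), nm v (x ^ n) = nm v x ^ n := by
    intro x n
    induction n with
    | zero => rw [pow_zero, pow_zero, hone]
    | succ n ih => rw [pow_succ, pow_succ, hmul, ih]
  refine ⟨hnn, hz, hmul, hadd, hext, hgal, ?_, ?_, hcharK⟩
  · rintro x ⟨n, hn1, hx⟩ hx0
    have hq : 1 < Nat.card F := Finite.one_lt_card
    have hQ : 1 < Nat.card F ^ n := Nat.one_lt_pow (by omega) hq
    have h1 : nm v x ^ (Nat.card F ^ n) = nm v x := by rw [← hpow, hx]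
    have hpos : 0 < nm v x := lt_of_le_of_ne (hnn x) fun h => hx0 ((hz x).mp h.symm)
    obtain ⟨N, hN⟩ : ∃ N, Nat.card F ^ n = N + 2 := ⟨Nat.card F ^ n - 2, by omega⟩
    rw [hN, pow_succ] at h1
    have h2 : nm v x ^ (N + 1) = 1 := by
      have h3 : nm v x ^ (N + 1) * nm v x = 1 * nm v x := by rw [h1, one_mul]
      exact mul_right_cancel₀ hpos.ne' h3
    exact (pow_eq_one_iff_of_nonneg hpos.le (by omega)).mp h2
  · intro x hx
    obtain ⟨θ, hθ⟩ := as_root x
    have h2 : (2 : Kvs v) = 0 := CharTwo.two_eq_zero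
    by_cases h : nm v θ < 1
    · exact ⟨θ, h, hθ⟩
    · refine ⟨θ + 1, ?_, ?_⟩
      · have h3 : nm v θ * nm v (θ + 1) < 1 := by
          rw [← hmul]
          have h4 : θ * (θ + 1) = x := by rw [← hθ]; ring
          rw [h4]
          exact hx
        push Not at h
        by_contra h5
        push Not at h5
        exact absurd h3 (not_lt.mpr (one_le_mul_of_one_le_of_one_le h h5))
      · have h3 : (θ + 1) ^ 2 + (θ + 1) = θ ^ 2 + θ + 2 * (θ + 1) := by ring
        rw [h3, h2, zero_mul, add_zero, hθ]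

end Pool.Agent.MP72W
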