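import Pool.Agent.Lib.MP_72e2e6_nt.W2.C.Spec

/-!
# MP_72e2e6_nt, theorem T3, part C: the place at infinity
-/

namespace Pool.Agent.MP72W

open Polynomial IntermediateField

section
variable {F : Type} [Field F] {v : AbsoluteValue (RatFunc F) ℝ}

private theorem lfi_poly (h : IsPl (none : Option F[X]) v) {p : F[X]} (hp : p ≠ 0) :
    v (algebraMap F[X] (RatFunc F) p) = 2 ^ p.natDegree := by
  have hp' : algebraMap F[X] (RatFunc F) p ≠ 0 := by
    rwa [Ne, FaithfulSMul.algebraMap_eq_zero_iff]
  rw [show v _ = _ from h _ hp', RatFunc.intDegree_polynomial, zpow_natCast]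

private theorem lfi_na (h : IsPl (none : Option F[X]) v) : IsNonarchimedean v := by
  intro x y
  by_cases hx : x = 0
  · simp [hx]
  by_cases hy : y = 0
  · simp [hy]
  by_cases hxy : x + y = 0
  · rw [hxy, map_zero]
    exact le_max_of_le_left (v.nonneg x)
  · rw [show v _ = _ from h _ hx, show v _ = _ from h _ hy, show v _ = _ from h _ hxy]
    rcases le_max_iff.1 (RatFunc.intDegree_add_le hy hxy) with h1 | h1
    · exact le_max_of_le_left (zpow_le_zpow_right₀ (one_le_two : (1 : ℝ) ≤ 2) h1)
    · exact le_max_of_le_right (zpow_le_zpow_right₀ (one_le_two : (1 : ℝ) ≤ 2) h1)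

private theorem lfi_lt (h : IsPl (none : Option F[X]) v) {p q : F[X]} (hpq : p.degree < q.degree) :
    v (algebraMap F[X] (RatFunc F) p) < v (algebraMap F[X] (RatFunc F) q) := by
  have hq : q ≠ 0 := by
    rintro rfl
    simp at hpq
  by_cases hp : p = 0
  · rw [hp, map_zero, map_zero, lfi_poly h hq]
    positivity
  · rw [lfi_poly h hp, lfi_poly h hq]
    exact pow_lt_pow_right₀ one_lt_two (natDegree_lt_natDegree hp hpq)

private theorem lfi_cov (h : IsPl (none : Option F[X]) v) (f : RatFunc F) (hf : v f ≤ 1) :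
    ∃ c : F, v (f - RatFunc.C c) < 1 := by
  have hb : f.denom ≠ 0 := f.denom_ne_zero
  have hb' : algebraMap F[X] (RatFunc F) f.denom ≠ 0 := by
    rwa [Ne, FaithfulSMul.algebraMap_eq_zero_iff]
  have hvb : 0 < v (algebraMap F[X] (RatFunc F) f.denom) := v.pos hb'
  have hfe : f = algebraMap F[X] (RatFunc F) f.num / algebraMap F[X] (RatFunc F) f.denom :=
    (RatFunc.num_div_denom f).symm
  have hdeg : f.num.natDegree ≤ f.denom.natDegree := by
    by_cases ha : f.num = 0
    · rw [ha, natDegree_zero]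
      exact Nat.zero_le _
    · rw [hfe, map_div₀, div_le_one hvb, lfi_poly h ha, lfi_poly h hb] at hf
      exact (pow_le_pow_iff_right₀ one_lt_two).1 hf
  refine ⟨f.num.coeff f.denom.natDegree / f.denom.leadingCoeff, ?_⟩
  set c := f.num.coeff f.denom.natDegree / f.denom.leadingCoeff with hc
  have hlt : (f.num - Polynomial.C c * f.denom).degree < f.denom.degree := by
    rw [degree_eq_natDegree hb, degree_lt_iff_coeff_zero]
    intro m hm
    rw [coeff_sub, coeff_C_mul]
    rcases hm.eq_or_lt with rfl | hm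
    · rw [hc, ← leadingCoeff, div_mul_cancel₀ _ (leadingCoeff_ne_zero.2 hb), sub_self]
    · rw [coeff_eq_zero_of_natDegree_lt hm, coeff_eq_zero_of_natDegree_lt (hdeg.trans_lt hm),
        mul_zero, sub_zero]
  have he : f - RatFunc.C c = algebraMap F[X] (RatFunc F) (f.num - Polynomial.C c * f.denom) /
      algebraMap F[X] (RatFunc F) f.denom := by
    rw [map_sub, map_mul, sub_div, mul_div_cancel_right₀ _ hb', RatFunc.algebraMap_C,
      RatFunc.num_div_denom]
  rw [he, map_div₀, div_lt_one hvb]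
  exact lfi_lt h hlt

end

theorem tLfI : S_LfI := by
  intro F _ _ _ v h
  classical
  have : Fintype F := Fintype.ofFinite F
  have hone : ∀ c : F, c ≠ 0 → v (RatFunc.C c) = 1 := by
    intro c hc
    have hc' : (RatFunc.C c : RatFunc F) ≠ 0 := by
      rwa [Ne, map_eq_zero]
    rw [show v _ = _ from h _ hc', RatFunc.intDegree_C, zpow_zero]
  have hX : v (RatFunc.X⁻¹) = 2⁻¹ := by
    rw [map_inv₀, show v _ = _ from h _ RatFunc.X_ne_zero, RatFunc.intDegree_X, zpow_one]
  have hint : ∀ c : F, v (RatFunc.C c) ≤ 1 := by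
    intro c
    by_cases hc : c = 0
    · rw [hc, map_zero, map_zero]
      exact zero_le_one
    · exact (hone c hc).le
  have hna := lfi_na h
  have : CharP (RatFunc F) 2 := charP_of_injective_algebraMap
    (algebraMap F (RatFunc F)).injective 2
  refine ⟨Finset.univ.image (fun c : F => RatFunc.C c), ?_⟩
  refine ⟨hna, hone, ?_, ?_, ?_, one_pos, ?_, ?_, ?_, ?_, ?_⟩
  · rw [hX]
    norm_num
  · rw [hX]
    norm_num
  · intro x hx
    refine ⟨- x.intDegree, ?_⟩
    rw [hX, show v _ = _ from h _ hx, inv_zpow, ← zpow_neg, neg_neg]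
  · intro x hx
    obtain ⟨c, hc⟩ := lfi_cov h x hx
    obtain ⟨n, -, hn⟩ := FiniteField.card F 2
    set g := x - RatFunc.C c with hg
    have hxe : x = RatFunc.C c + g := by rw [hg]; ring
    have hq : Nat.card F ^ 1 = 2 ^ (n : ℕ) := by
      rw [pow_one, Nat.card_eq_fintype_card, hn]
    have hcq : (RatFunc.C c : RatFunc F) ^ (2 ^ (n : ℕ)) = RatFunc.C c := by
      rw [← map_pow, ← hn, FiniteField.pow_card]
    have he : x ^ (Nat.card F ^ 1) - x = g ^ (2 ^ (n : ℕ)) + (- g) := by
      rw [hq]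
      conv_lhs => rw [hxe, add_pow_char_pow, hcq]
      ring
    rw [he]
    refine (hna _ _).trans_lt (max_lt ?_ ?_)
    · rw [map_pow]
      exact pow_lt_one₀ (v.nonneg _) hc (by positivity)
    · rw [AbsoluteValue.map_neg]
      exact hc
  · rw [Finset.card_image_of_injective _ RatFunc.C_injective, Finset.card_univ, pow_one,
      Nat.card_eq_fintype_card]
  · intro r hr
    obtain ⟨c, -, rfl⟩ := Finset.mem_image.1 hr
    exact hint c
  · intro r hr r' hr' hne
    obtain ⟨c, -, rfl⟩ := Finset.mem_image.1 hr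
    obtain ⟨c', -, rfl⟩ := Finset.mem_image.1 hr'
    rw [← map_sub]
    refine hone _ (sub_ne_zero.2 ?_)
    rintro rfl
    exact hne rfl
  · intro x hx
    obtain ⟨c, hc⟩ := lfi_cov h x hx
    exact ⟨RatFunc.C c, Finset.mem_image_of_mem _ (Finset.mem_univ c), hc⟩

end Pool.Agent.MP72W
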