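import Pool.Agent.Lib.MP_72e2e6_nt.W2.C.Spec

/-!
# MP_72e2e6_nt, theorem T3, part C: the finite places
-/

namespace Pool.Agent.MP72W

open Polynomial IntermediateField

section
variable {F : Type} [Field F] {P : F[X]} {v : AbsoluteValue (RatFunc F) ℝ}

private theorem lfp_ne {p : F[X]} (hp : p ≠ 0) : algebraMap F[X] (RatFunc F) p ≠ 0 := by
  rwa [Ne, FaithfulSMul.algebraMap_eq_zero_iff]

private theorem lfp_one (h : IsPl (some P) v) {p : F[X]} (hp : ¬ P ∣ p) :
    v (algebraMap F[X] (RatFunc F) p) = 1 := by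
  have hp0 : p ≠ 0 := by
    rintro rfl
    exact hp (dvd_zero _)
  rw [h.2.2 p hp0, multiplicity_eq_zero.2 hp, pow_zero]

private theorem lfp_le (h : IsPl (some P) v) (p : F[X]) :
    v (algebraMap F[X] (RatFunc F) p) ≤ 1 := by
  by_cases hp : p = 0
  · rw [hp, map_zero, map_zero]
    exact zero_le_one
  · rw [h.2.2 p hp]
    exact pow_le_one₀ (by norm_num) (by norm_num)

private theorem lfp_lt (h : IsPl (some P) v) {p : F[X]} (hp : P ∣ p) :
    v (algebraMap F[X] (RatFunc F) p) < 1 := by
  by_cases hp0 : p = 0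
  · rw [hp0, map_zero, map_zero]
    exact zero_lt_one
  · rw [h.2.2 p hp0]
    refine pow_lt_one₀ (by norm_num) (by norm_num) ?_
    intro h0
    exact multiplicity_eq_zero.1 h0 hp

private theorem lfp_nap (h : IsPl (some P) v) (p q : F[X]) :
    v (algebraMap F[X] (RatFunc F) (p + q)) ≤
      max (v (algebraMap F[X] (RatFunc F) p)) (v (algebraMap F[X] (RatFunc F) q)) := by
  by_cases hp : p = 0
  · rw [hp, zero_add]
    exact le_max_right _ _
  by_cases hq : q = 0
  · rw [hq, add_zero]
    exact le_max_left _ _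
  by_cases hpq : p + q = 0
  · rw [hpq, map_zero, map_zero]
    exact le_max_of_le_left (v.nonneg _)
  have hf : FiniteMultiplicity P (p + q) := FiniteMultiplicity.of_prime_left h.2.1.prime hpq
  have hfp : FiniteMultiplicity P p := FiniteMultiplicity.of_prime_left h.2.1.prime hp
  have hfq : FiniteMultiplicity P q := FiniteMultiplicity.of_prime_left h.2.1.prime hq
  rw [h.2.2 _ hpq, h.2.2 _ hp, h.2.2 _ hq]
  rcases le_total (multiplicity P p) (multiplicity P q) with hle | hle
  · refine le_max_of_le_left (pow_le_pow_of_le_one (by norm_num) (by norm_num) ?_)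
    exact hf.le_multiplicity_of_pow_dvd
      (dvd_add (pow_multiplicity_dvd P p) ((pow_dvd_pow P hle).trans (pow_multiplicity_dvd P q)))
  · refine le_max_of_le_right (pow_le_pow_of_le_one (by norm_num) (by norm_num) ?_)
    exact hf.le_multiplicity_of_pow_dvd
      (dvd_add ((pow_dvd_pow P hle).trans (pow_multiplicity_dvd P p)) (pow_multiplicity_dvd P q))

private theorem lfp_na (h : IsPl (some P) v) : IsNonarchimedean v := by
  intro x y
  have hb := x.denom_ne_zero
  have he := y.denom_ne_zero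
  have hb' := lfp_ne hb
  have he' := lfp_ne he
  set a := algebraMap F[X] (RatFunc F) x.num with ha
  set b := algebraMap F[X] (RatFunc F) x.denom with hbd
  set c := algebraMap F[X] (RatFunc F) y.num with hc
  set e := algebraMap F[X] (RatFunc F) y.denom with hed
  have hx : x = a / b := (RatFunc.num_div_denom x).symm
  have hy : y = c / e := (RatFunc.num_div_denom y).symm
  have hvb : 0 < v b := v.pos hb'
  have hve : 0 < v e := v.pos he'
  have h1 : x + y = (a * e + c * b) / (b * e) := by
    rw [hx, hy]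
    field_simp
  have h2 : v (a * e + c * b) ≤ max (v (a * e)) (v (c * b)) := by
    have := lfp_nap h (x.num * y.denom) (y.num * x.denom)
    rw [map_add, map_mul, map_mul] at this
    exact this
  rw [h1, map_div₀, map_mul, div_le_iff₀ (mul_pos hvb hve), max_mul_of_nonneg _ _ (by positivity)]
  refine h2.trans (le_of_eq ?_)
  congr 1
  · rw [hx, map_div₀, map_mul]
    field_simp
  · rw [hy, map_div₀, map_mul]
    field_simp

private theorem lfp_cov (h : IsPl (some P) v) (f : RatFunc F) (hf : v f ≤ 1) :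
    ∃ r : F[X], r.degree < P.degree ∧ v (f - algebraMap F[X] (RatFunc F) r) < 1 := by
  have hP := h.2.1
  have hb := f.denom_ne_zero
  have hb' := lfp_ne hb
  have hvb : 0 < v (algebraMap F[X] (RatFunc F) f.denom) := v.pos hb'
  have hnd : ¬ P ∣ f.denom := by
    intro hd
    have hcop := f.isCoprime_num_denom
    have hna : ¬ P ∣ f.num := fun hn => hP.not_isUnit (hcop.isUnit_of_dvd' hn hd)
    have h1 : v f = 1 / v (algebraMap F[X] (RatFunc F) f.denom) := by
      conv_lhs => rw [← RatFunc.num_div_denom f, map_div₀, lfp_one h hna]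
    rw [h1, div_le_one hvb] at hf
    exact absurd hf (not_le.2 (lfp_lt h hd))
  obtain ⟨s, t, hst⟩ : IsCoprime P f.denom := (Irreducible.coprime_iff_not_dvd hP).2 hnd
  refine ⟨(f.num * t) % P, EuclideanDomain.mod_lt _ hP.ne_zero, ?_⟩
  have h1 : f - algebraMap F[X] (RatFunc F) ((f.num * t) % P) =
      algebraMap F[X] (RatFunc F) (f.num - (f.num * t) % P * f.denom) /
        algebraMap F[X] (RatFunc F) f.denom := by
    rw [map_sub, map_mul, sub_div, mul_div_cancel_right₀ _ hb', RatFunc.num_div_denom]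
  rw [h1, map_div₀, lfp_one h hnd, div_one]
  refine lfp_lt h ⟨f.num * s + f.num * t / P * f.denom, ?_⟩
  have h2 := EuclideanDomain.div_add_mod (f.num * t) P
  linear_combination (-f.num) * hst - f.denom * h2

end

theorem tLfP : S_LfP := by
  intro F _ _ _ P v h
  classical
  have : Fintype F := Fintype.ofFinite F
  have hP := h.2.1
  have hna := lfp_na h
  have : CharP (RatFunc F) 2 := charP_of_injective_algebraMap
    (algebraMap F (RatFunc F)).injective 2
  have hinj : Function.Injective (algebraMap F[X] (RatFunc F)) :=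
    FaithfulSMul.algebraMap_injective _ _
  have hPv : v (algebraMap F[X] (RatFunc F) P) = 1 / 2 := by
    rw [h.2.2 P hP.ne_zero, multiplicity_self, pow_one]
  set d := P.natDegree with hd
  have hnd : ∀ p : F[X], p ≠ 0 → p.degree < P.degree → ¬ P ∣ p := fun p hp hlt hdv =>
    absurd (degree_le_of_dvd hdv hp) (not_le.2 hlt)
  have hmem : ∀ p : F[X], p ∈ degreeLT F d ↔ p.degree < P.degree := by
    intro p
    rw [mem_degreeLT, degree_eq_natDegree hP.ne_zero]
  let φ : (Fin d → F) → RatFunc F := fun c =>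
    algebraMap F[X] (RatFunc F) ((degreeLTEquiv F d).symm c : F[X])
  have hφi : Function.Injective φ := fun c c' hcc =>
    (degreeLTEquiv F d).symm.injective (Subtype.ext (hinj hcc))
  have hφ1 : ∀ c, ∃ p : F[X], p.degree < P.degree ∧ φ c = algebraMap F[X] (RatFunc F) p :=
    fun c => ⟨_, (hmem _).1 ((degreeLTEquiv F d).symm c).2, rfl⟩
  have hφ2 : ∀ p : F[X], p.degree < P.degree → ∃ c, φ c = algebraMap F[X] (RatFunc F) p := by
    intro p hp
    refine ⟨degreeLTEquiv F d ⟨p, (hmem p).2 hp⟩, ?_⟩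
    simp only [φ, LinearEquiv.symm_apply_apply]
  refine ⟨Finset.univ.image φ, ?_⟩
  refine ⟨hna, ?_, ?_, ?_, ?_, hP.natDegree_pos, ?_, ?_, ?_, ?_, ?_⟩
  · intro c hc
    rw [← RatFunc.algebraMap_C]
    exact lfp_one h (fun hdv => hP.not_isUnit
      (isUnit_of_dvd_unit hdv ((isUnit_C).2 (isUnit_iff_ne_zero.2 hc))))
  · rw [hPv]
    norm_num
  · rw [hPv]
    norm_num
  · intro x hx
    have ha : x.num ≠ 0 := RatFunc.num_ne_zero hx
    refine ⟨(multiplicity P x.num : ℤ) - multiplicity P x.denom, ?_⟩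
    conv_lhs => rw [← RatFunc.num_div_denom x, map_div₀, h.2.2 _ ha, h.2.2 _ x.denom_ne_zero]
    rw [hPv, zpow_sub₀ (by norm_num), zpow_natCast, zpow_natCast]
  · intro x hx
    obtain ⟨r, -, hr⟩ := lfp_cov h x hx
    obtain ⟨n, -, hn⟩ := FiniteField.card F 2
    set g := x - algebraMap F[X] (RatFunc F) r with hg
    have hxe : x = algebraMap F[X] (RatFunc F) r + g := by rw [hg]; ring
    have hq : Nat.card F ^ d = 2 ^ ((n : ℕ) * d) := by
      rw [Nat.card_eq_fintype_card, hn, pow_mul]
    have hdv : P ∣ r ^ (2 ^ ((n : ℕ) * d)) - r := by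
      have : Fact (Irreducible P) := ⟨hP⟩
      have hfin : Module.Finite F (AdjoinRoot P) := (AdjoinRoot.powerBasis hP.ne_zero).finite
      have hfin' : Finite (AdjoinRoot P) := Module.finite_of_finite F
      have : Fintype (AdjoinRoot P) := Fintype.ofFinite _
      have hcard : Fintype.card (AdjoinRoot P) = 2 ^ ((n : ℕ) * d) := by
        rw [← Nat.card_eq_fintype_card, Module.natCard_eq_pow_finrank (K := F),
          (AdjoinRoot.powerBasis hP.ne_zero).finrank, AdjoinRoot.powerBasis_dim, hq]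
      rw [← AdjoinRoot.mk_eq_zero, map_sub, map_pow, ← hcard, FiniteField.pow_card, sub_self]
    have he : x ^ (Nat.card F ^ d) - x =
        algebraMap F[X] (RatFunc F) (r ^ (2 ^ ((n : ℕ) * d)) - r) +
          (g ^ (2 ^ ((n : ℕ) * d)) + (- g)) := by
      rw [hq]
      conv_lhs => rw [hxe, add_pow_char_pow]
      rw [map_sub, map_pow]
      ring
    rw [he]
    refine (hna _ _).trans_lt (max_lt (lfp_lt h hdv) ?_)
    refine (hna _ _).trans_lt (max_lt ?_ ?_)
    · rw [map_pow]
      exact pow_lt_one₀ (v.nonneg _) hr (by positivity)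
    · rw [AbsoluteValue.map_neg]
      exact hr
  · rw [Finset.card_image_of_injective _ hφi, Finset.card_univ, Fintype.card_fun,
      Fintype.card_fin, Nat.card_eq_fintype_card]
  · intro r hr
    obtain ⟨c, -, rfl⟩ := Finset.mem_image.1 hr
    exact lfp_le h _
  · intro r hr r' hr' hne
    obtain ⟨c, -, rfl⟩ := Finset.mem_image.1 hr
    obtain ⟨c', -, rfl⟩ := Finset.mem_image.1 hr'
    obtain ⟨p, hp, hpe⟩ := hφ1 c
    obtain ⟨p', hp', hpe'⟩ := hφ1 c'
    rw [hpe, hpe', ← map_sub]
    refine lfp_one h (hnd _ (sub_ne_zero.2 ?_) ?_)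
    · rintro rfl
      exact hne (hpe.trans hpe'.symm)
    · exact (degree_sub_le _ _).trans_lt (max_lt hp hp')
  · intro x hx
    obtain ⟨r, hr1, hr⟩ := lfp_cov h x hx
    obtain ⟨c, hc⟩ := hφ2 r hr1
    exact ⟨φ c, Finset.mem_image_of_mem _ (Finset.mem_univ c), by rw [hc]; exact hr⟩

end Pool.Agent.MP72W
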