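import Pool.Agent.Lib.MP_72e2e6_nt.W2.C.Spec

/-!
# MP_72e2e6_nt, theorem T3, part C, Lw (helper19)
-/

namespace Pool.Agent.MP72W

open Polynomial IntermediateField

private theorem Lw_z2 (a : ZMod 2) : a = 0 ∨ a = 1 := by
  revert a
  decide

private theorem Lw_add_self (a : ZMod 2) : a + a = 0 := by
  revert a
  decide

private theorem Lw_eq (a b : ZMod 2) (h : a + b = 0) : a = b := by
  revert a b
  decide

private theorem Lw_hom {G : Type*} [Group G] [TopologicalSpace G] {h h' : G → ZMod 2}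
    (hh : Hom2 h) (hh' : Hom2 h') (c : ZMod 2) : Hom2 fun g => h g + c * h' g where
  loc := (hh.loc.prodMk hh'.loc).comp fun p : ZMod 2 × ZMod 2 => p.1 + c * p.2
  add a b := by
    rw [hh.add, hh'.add]
    ring

private theorem Lw_eps_zero {L : Type} [Field L] {f : L} (h : eps f = 0) :
    ∃ x : L, x ^ 2 + x = f := by
  classical
  unfold eps at h
  by_contra hcon
  rw [if_neg hcon] at h
  exact one_ne_zero h

private theorem Lw_eps_of {L : Type} [Field L] {f : L} (h : ∃ x : L, x ^ 2 + x = f) :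
    eps f = 0 := by
  classical
  unfold eps
  rw [if_pos h]

/-- The core: `DD e` are the principal parts. -/
private theorem Lw_core (hLc1 : S_Lc1) (hHas : S_Has) (hSep : S_Sep) (hEps : S_Eps)
    (hZor : S_Zor) {F : Type} [Field F] [Finite F] [CharP F 2] (v : AbsoluteValue (RatFunc F) ℝ)
    {d : ℕ} {ϖ : RatFunc F} {R : Finset (RatFunc F)} (hLF : LF v d ϖ R)
    (DD : ℕ → Set (RatFunc F)) (hzero : ∀ e, 0 ∈ DD e)
    (hadd : ∀ e, ∀ f ∈ DD e, ∀ g ∈ DD e, f + g ∈ DD e) (hmono : ∀ e e', e ≤ e' → DD e ⊆ DD e')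
    (hT1 : ∀ x : v.Completion, ∃ (e : ℕ) (D : RatFunc F), D ∈ DD e ∧
      ∃ c y : v.Completion, ‖c‖ ≤ 1 ∧
        x = algebraMap (RatFunc F) v.Completion D + c + (y ^ 2 + y))
    (hT2 : ∀ (e : ℕ) (D : RatFunc F), D ∈ DD e →
      ∀ c y : v.Completion, ‖c‖ ≤ 1 →
        algebraMap (RatFunc F) v.Completion D = c + (y ^ 2 + y) → D = 0) :
    ∃ (W : Subgroup Gal(Kvs v/v.Completion)) (φ : Gal(Kvs v/v.Completion)),
      (∀ f : v.Completion, ‖f‖ ≤ 1 → ∀ g ∈ W, hAS _ (Kvs v) f g = 0) ∧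
      (∀ f : v.Completion, ‖f‖ ≤ 1 → hAS _ (Kvs v) f φ = eps f) ∧
      (∀ (e : ℕ) (D : RatFunc F), D ∈ DD e →
        hAS _ (Kvs v) (algebraMap (RatFunc F) v.Completion D) φ = 0) ∧
      (∀ k : W → ZMod 2, Hom2 k → ∃ (e : ℕ) (D : RatFunc F), D ∈ DD e ∧
        ∀ g : W, k g = hAS _ (Kvs v) (algebraMap (RatFunc F) v.Completion D) g) ∧
      (∀ (e : ℕ) (D : RatFunc F), D ∈ DD e →
        (∀ g ∈ W, hAS _ (Kvs v) (algebraMap (RatFunc F) v.Completion D) g = 0) → D = 0) ∧
      UEx (fun _ : Unit => W) φ := by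
  classical
  obtain ⟨l1, l2, l3, l4, l5, l6, l7, l8, l9, l10⟩ := hLc1 F v d ϖ R hLF
  have := l3
  have := l7
  obtain ⟨e1, e2, ⟨f₁, hf₁, hf₁e⟩, -⟩ := hEps F v d ϖ R hLF
  obtain ⟨-, hroot, hsep⟩ := hSep v.Completion
  obtain ⟨a1, -, a3, a4⟩ := hHas v.Completion (Kvs v)
  have hR : ∀ f : v.Completion, ∃ θ : Kvs v, θ ^ 2 + θ = algebraMap v.Completion (Kvs v) f :=
    fun f => hroot _
  have h2 : ∀ x : v.Completion, x + x = 0 := fun x => by
    have h3 : (2 : v.Completion) = 0 := by exact_mod_cast CharP.cast_eq_zero v.Completion 2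
    rw [← two_mul, h3, zero_mul]
  have h2R : ∀ x : RatFunc F, -x = x := fun x => by
    have h3 : (2 : RatFunc F) = 0 := by
      have h4 : (2 : F) = 0 := by exact_mod_cast CharP.cast_eq_zero F 2
      have h5 := congrArg (algebraMap F (RatFunc F)) h4
      rw [map_zero, map_ofNat] at h5
      exact h5
    have h4 : x + x = 0 := by rw [← two_mul, h3, zero_mul]
    exact (eq_neg_of_add_eq_zero_left h4).symm
  have hAS0 : ∀ f : v.Completion, (∃ x : v.Completion, x ^ 2 + x = f) →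
      ∀ g, hAS v.Completion (Kvs v) f g = 0 := fun f hf => (a4 f (hR f)).mpr hf
  set F₁ : v.Completion := algebraMap (RatFunc F) v.Completion f₁ with hF₁
  have hF₁n : ‖F₁‖ ≤ 1 := by rw [hF₁, l1]; exact hf₁
  set κv : Gal(Kvs v/v.Completion) → ZMod 2 := hAS v.Completion (Kvs v) F₁ with hκv
  have hκ : Hom2 κv := a1 F₁ (hR F₁)
  -- integral elements
  have hint : ∀ f : v.Completion, ‖f‖ ≤ 1 → ∀ g, hAS v.Completion (Kvs v) f g = eps f * κv g := by
    intro f hf g
    rcases Lw_z2 (eps f) with h | h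
    · rw [h, zero_mul]
      exact hAS0 f (Lw_eps_zero h) g
    · rw [h, one_mul]
      have h3 : eps (f + F₁) = 0 := by
        rw [e1 f F₁ hf hF₁n, h, hf₁e]
        decide
      have h4 := hAS0 (f + F₁) (Lw_eps_zero h3) g
      rw [a3 f F₁ (hR f) (hR F₁) g] at h4
      exact Lw_eq _ _ h4
  -- the group of principal parts
  let Y : AddSubgroup (RatFunc F) :=
    { carrier := {D | ∃ e, D ∈ DD e}
      zero_mem' := ⟨0, hzero 0⟩
      add_mem' := by
        rintro a b ⟨e, he⟩ ⟨e', he'⟩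
        exact ⟨max e e', hadd _ _ (hmono _ _ (le_max_left _ _) he) _
          (hmono _ _ (le_max_right _ _) he')⟩
      neg_mem' := by
        rintro a ⟨e, he⟩
        exact ⟨e, by rwa [h2R]⟩ }
  have hY : ∀ D : Y, ∃ e, (D : RatFunc F) ∈ DD e := fun D => D.2
  obtain ⟨W, φ, w1, w2, w3, w4, w5⟩ := hZor Gal(Kvs v/v.Completion) Y
    (fun D => hAS v.Completion (Kvs v) (algebraMap (RatFunc F) v.Completion (D : RatFunc F))) κv
    (fun D => a1 _ (hR _))
    (fun D D' g => by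
      show hAS v.Completion (Kvs v) (algebraMap (RatFunc F) v.Completion
        ((D : RatFunc F) + (D' : RatFunc F))) g = _
      rw [map_add]
      exact a3 _ _ (hR _) (hR _) g)
    hκ
    (by
      intro D c hc
      rcases Lw_z2 c with h | h
      · exact h
      exfalso
      rw [h] at hc
      have h3 : ∀ g, hAS v.Completion (Kvs v)
          (algebraMap (RatFunc F) v.Completion (D : RatFunc F) + F₁) g = 0 := by
        intro g
        rw [a3 _ _ (hR _) (hR _) g]
        have := hc g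
        rwa [one_mul] at this
      obtain ⟨x, hx⟩ := (a4 _ (hR _)).mp h3
      obtain ⟨e, he⟩ := hY D
      have h4 : algebraMap (RatFunc F) v.Completion (D : RatFunc F) = F₁ + (x ^ 2 + x) := by
        rw [hx]
        linear_combination (-1 : v.Completion) * h2 F₁
      have h5 : (D : RatFunc F) = 0 := hT2 e _ he F₁ x hF₁n h4
      rw [h5, map_zero, zero_add] at hx
      have h6 := Lw_eps_of ⟨x, hx⟩
      rw [h6] at hf₁e
      exact zero_ne_one hf₁e)
  have c5 : ∀ (e : ℕ) (D : RatFunc F), D ∈ DD e →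
      (∀ g ∈ W, hAS _ (Kvs v) (algebraMap (RatFunc F) v.Completion D) g = 0) → D = 0 := by
    intro e D hD h
    have h3 := w5 ⟨D, e, hD⟩ h
    obtain ⟨x, hx⟩ := (a4 _ (hR _)).mp h3
    refine hT2 e D hD 0 x (by rw [norm_zero]; norm_num) ?_
    rw [zero_add]
    exact hx.symm
  refine ⟨W, φ, ?_, ?_, ?_, ?_, c5, ?_⟩
  · intro f hf g hg
    rw [hint f hf g, w1 g hg, mul_zero]
  · intro f hf
    rw [hint f hf φ, w2, mul_one]
  · intro e D hD
    exact w3 ⟨D, e, hD⟩
  · intro k hk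
    obtain ⟨y, hy⟩ := w4 k hk
    obtain ⟨e, he⟩ := hY y
    exact ⟨e, y, he, hy⟩
  · intro h hh c
    obtain ⟨y, hy⟩ := w4 (h ()) (hh ())
    have hHom : Hom2 (hAS v.Completion (Kvs v)
      (algebraMap (RatFunc F) v.Completion (y : RatFunc F))) := a1 _ (hR _)
    set H : Gal(Kvs v/v.Completion) → ZMod 2 := fun g =>
      hAS v.Completion (Kvs v) (algebraMap (RatFunc F) v.Completion (y : RatFunc F)) g +
        c * κv g with hH
    have hHH : Hom2 H := Lw_hom hHom hκ c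
    have hHφ : H φ = c := by
      have h3 := w3 y
      simp only [hH]
      rw [h3, w2, zero_add, mul_one]
    have hHW : ∀ g : W, H g = h () g := by
      intro g
      simp only [hH]
      rw [w1 g g.2, mul_zero, add_zero]
      exact (hy g).symm
    refine ⟨H, ⟨hHH, fun _ g => hHW g, hHφ⟩, ?_⟩
    rintro H' ⟨hH', hH'W, hH'φ⟩
    have hD : Hom2 fun g => H' g + 1 * H g := Lw_hom hH' hHH 1
    obtain ⟨x, hx⟩ := hsep _ hD
    obtain ⟨e, D, hDe, c', z, hc', hxe⟩ := hT1 x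
    have hval : ∀ g, H' g + 1 * H g = hAS v.Completion (Kvs v)
        (algebraMap (RatFunc F) v.Completion D) g + eps c' * κv g := by
      intro g
      have h3 : H' g + 1 * H g = hAS v.Completion (Kvs v) x g := congrFun hx g
      rw [h3, hxe, a3 _ _ (hR _) (hR _) g, a3 _ _ (hR _) (hR _) g,
        hAS0 (z ^ 2 + z) ⟨z, rfl⟩ g, add_zero, hint c' hc' g]
    have hD0 : D = 0 := by
      apply c5 e D hDe
      intro g hg
      have h3 := hval g
      rw [w1 g hg, mul_zero, add_zero] at h3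
      rw [← h3, hH'W () ⟨g, hg⟩, hHW ⟨g, hg⟩, one_mul]
      exact Lw_add_self _
    have h0 : ∀ g, hAS v.Completion (Kvs v) (algebraMap (RatFunc F) v.Completion D) g = 0 := by
      rw [hD0, map_zero]
      exact hAS0 0 ⟨0, by ring⟩
    have he0 : eps c' = 0 := by
      have h3 := hval φ
      rw [h0, zero_add, w2, mul_one, hH'φ, hHφ, one_mul, Lw_add_self] at h3
      exact h3.symm
    funext g
    have h3 := hval g
    rw [h0, he0, zero_mul, add_zero, one_mul] at h3
    exact Lw_eq _ _ h3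

theorem tLw (hLfP : S_LfP) (hLfI : S_LfI) (hLc1 : S_Lc1) (hHas : S_Has) (hSep : S_Sep)
    (hEps : S_Eps) (hZor : S_Zor) (hDgr : S_Dgr) (hTls : S_Tls) (_hFr : S_Fr) : S_Lw := by
  intro F _ _ _ κ w v hv
  rcases w with _ | P
  · obtain ⟨R, hLF⟩ := hLfI F v hv
    obtain ⟨g1, g2, -⟩ := hDgr F κ X monic_X irreducible_X
    obtain ⟨t1, t2⟩ := hTls F κ none v hv
    exact Lw_core hLc1 hHas hSep hEps hZor v hLF (DI κ) (fun e => (g1 e).2.1)
      (fun e => (g1 e).2.2.1) (fun e e' h => (g2 e e' h).2) t1 t2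
  · obtain ⟨R, hLF⟩ := hLfP F P v hv
    obtain ⟨g1, g2, -⟩ := hDgr F κ P hv.1 hv.2.1
    obtain ⟨t1, t2⟩ := hTls F κ (some P) v hv
    exact Lw_core hLc1 hHas hSep hEps hZor v hLF (DP P) (fun e => (g1 e).1.1)
      (fun e => (g1 e).1.2.1) (fun e e' h => (g2 e e' h).1) t1 t2

end Pool.Agent.MP72W
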