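import Pool.Agent.Lib.MP_72e2e6_nt.W2.C.Spec

/-!
# MP_72e2e6_nt, T3, part C: the maximal unramified extension
-/

namespace Pool.Agent.MP72W

open Polynomial IntermediateField

private theorem as_root3 {L : Type} [Field L] [CharP L 2] [IsSepClosed L] (x : L) :
    ∃ θ : L, θ ^ 2 + θ = x := by
  have h2 : (2 : L) = 0 := CharTwo.two_eq_zero
  have hder : derivative (X ^ 2 + X - C x : L[X]) = 1 := by
    have h3 : (2 : L[X]) = 0 := by
      have h4 : (C (2 : L) : L[X]) = 2 := map_ofNat C 2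
      rw [← h4, h2, map_zero]
    simp [derivative_pow]
    first | exact h3 | exact h2
  have hsep : (X ^ 2 + X - C x : L[X]).Separable := by
    rw [separable_def, hder]
    exact isCoprime_one_right
  have hdeg : (X ^ 2 + X - C x : L[X]).degree ≠ 0 := by
    have h3 : (X ^ 2 + X - C x : L[X]).natDegree = 2 := by compute_degree!
    intro h
    have h4 := natDegree_eq_of_degree_eq_some (n := 0) h
    omega
  obtain ⟨θ, hθ⟩ := IsSepClosed.exists_root _ hdeg hsep
  refine ⟨θ, ?_⟩
  rw [IsRoot, eval_sub, eval_add, eval_pow, eval_X, eval_C] at hθ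
  exact sub_eq_zero.mp hθ

theorem tNr (hLc1 : S_Lc1) (hLc2 : S_Lc2) (hCst : S_Cst) : S_Nr := by
  classical
  intro F _ _ _ v d ϖ R hLF
  obtain ⟨hn, _, hult, hdisc, _, l6, hchar, h8, h9, _⟩ := hLc1 F v d ϖ R hLF
  obtain ⟨n0, nz, nmul, nadd, next, ngal, ncst, nas, hcharK⟩ := hLc2 F v d ϖ R hLF
  obtain ⟨r, hr, hq⟩ : ∃ r, 1 ≤ r ∧ Nat.card F = 2 ^ r := by
    have := Fintype.ofFinite F
    obtain ⟨n, -, hn⟩ := FiniteField.card F 2
    exact ⟨n, n.2, by rw [Nat.card_eq_fintype_card, hn]⟩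
  have hdpos := hLF.dpos
  have hq1 : 1 < Nat.card F := Finite.one_lt_card
  obtain ⟨c1, c2, c3, c4, c5, c6⟩ := hCst (Nat.card F) r hr hq (Kvs v)
  have none1 : nm v 1 = 1 := by
    have h1 := next 1
    rw [map_one, norm_one] at h1
    exact h1
  -- the constants
  let S : Subring (Kvs v) :=
    { carrier := Cst (Nat.card F) (Kvs v)
      mul_mem' := fun ha hb => (c3 _ ha _ hb).2
      one_mem' := c2
      add_mem' := fun ha hb => (c3 _ ha _ hb).1
      zero_mem' := c1
      neg_mem' := fun {a} ha => by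
        change -a ∈ Cst (Nat.card F) (Kvs v)
        rw [CharTwo.neg_eq]
        exact ha }
  have hS : ∀ x, x ∈ S ↔ x ∈ Cst (Nat.card F) (Kvs v) := fun _ => Iff.rfl
  have ncle : ∀ x ∈ S, nm v x ≤ 1 := by
    intro x hx
    by_cases hx0 : x = 0
    · rw [hx0, (nz 0).mpr rfl]
      exact zero_le_one
    · exact (ncst x hx hx0).le
  -- (7)
  have h7 : ∀ x : v.Completion, algebraMap v.Completion (Kvs v) x ∈ Cst (Nat.card F) (Kvs v) →
      x ^ (Nat.card F ^ d) = x := by
    intro x hx
    have hle : ‖x‖ ≤ 1 := by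
      rw [← next]
      exact ncle _ hx
    have hlt := l6 x hle
    have hmem : algebraMap v.Completion (Kvs v) (x ^ Nat.card F ^ d - x) ∈ S := by
      rw [map_sub, map_pow]
      exact sub_mem (pow_mem (show _ ∈ S from hx) _) hx
    by_contra hne
    have hne' : algebraMap v.Completion (Kvs v) (x ^ Nat.card F ^ d - x) ≠ 0 := by
      intro h
      refine hne (sub_eq_zero.mp ((algebraMap v.Completion (Kvs v)).injective ?_))
      rw [h, map_zero]
    have h1 := ncst _ hmem hne'
    rw [next] at h1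
    rw [h1] at hlt
    exact lt_irrefl _ hlt
  have hcst : ∀ c : v.Completion, c ^ (Nat.card F ^ d) = c →
      algebraMap v.Completion (Kvs v) c ∈ S := by
    intro c hc
    exact ⟨d, hdpos, by rw [← map_pow, hc]⟩
  -- sums
  have nsum : ∀ (ι : Type) (s : Finset ι) (f : ι → Kvs v), (∀ i ∈ s, nm v (f i) < 1) →
      nm v (∑ i ∈ s, f i) < 1 := by
    intro ι s f
    induction s using Finset.induction_on with
    | empty =>
      intro _
      rw [Finset.sum_empty, (nz 0).mpr rfl]
      exact zero_lt_one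
    | insert a s ha ih =>
      intro h
      rw [Finset.sum_insert ha]
      exact lt_of_le_of_lt (nadd _ _) (max_lt (h a (Finset.mem_insert_self a s))
        (ih fun i hi => h i (Finset.mem_insert_of_mem hi)))
  -- a basis
  obtain ⟨B, hBS, hBspan, hBind⟩ := exists_linearIndependent v.Completion
    (Cst (Nat.card F) (Kvs v))
  have hspan : ∀ x ∈ Knr v, x ∈ Submodule.span v.Completion B := by
    intro x hx
    rw [hBspan]
    have h1 : x ∈ (adjoin v.Completion (Cst (Nat.card F) (Kvs v))).toSubalgebra := hx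
    rw [IntermediateField.adjoin_toSubalgebra_of_isAlgebraic
      (fun y _ => Algebra.IsAlgebraic.isAlgebraic y)] at h1
    have h2 : x ∈ Subalgebra.toSubmodule
        (Algebra.adjoin v.Completion (Cst (Nat.card F) (Kvs v))) := h1
    rw [Algebra.adjoin_eq_span] at h2
    refine Submodule.span_mono ?_ h2
    have h3 : Submonoid.closure (Cst (Nat.card F) (Kvs v)) ≤ S.toSubmonoid :=
      Submonoid.closure_le.mpr fun _ h => h
    exact h3
  -- the main claim
  have hmain : ∀ x ∈ Knr v, x ≠ 0 → ∃ (f : B →₀ v.Completion) (b0 : B),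
      Finsupp.linearCombination v.Completion ((↑) : B → Kvs v) f = x ∧ f b0 ≠ 0 ∧
      (∀ b, ‖f b‖ ≤ ‖f b0‖) ∧ nm v x = ‖f b0‖ := by
    intro x hx hx0
    obtain ⟨f, hf⟩ := (Finsupp.mem_span_iff_linearCombination _ _ _).mp (hspan x hx)
    have hf0 : f ≠ 0 := by
      rintro rfl
      rw [map_zero] at hf
      exact hx0 hf.symm
    obtain ⟨b0, hb0, hmax⟩ := Finset.exists_max_image f.support (fun b => ‖f b‖)
      (Finsupp.support_nonempty_iff.mpr hf0)
    have hfb0 : f b0 ≠ 0 := Finsupp.mem_support_iff.mp hb0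
    have hmax' : ∀ b, ‖f b‖ ≤ ‖f b0‖ := by
      intro b
      by_cases hb : b ∈ f.support
      · exact hmax b hb
      · rw [Finsupp.notMem_support_iff.mp hb, norm_zero]
        exact norm_nonneg _
    refine ⟨f, b0, hf, hfb0, hmax', ?_⟩
    have hquo : ∀ b, ‖f b / f b0‖ ≤ 1 := by
      intro b
      rw [norm_div]
      exact div_le_one_of_le₀ (hmax' b) (norm_nonneg _)
    choose ρ hρ1 hρ2 using fun b => h9 _ (hquo b)
    have hρ0 : ρ b0 ≠ 0 := by
      intro h
      have h1 := hρ2 b0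
      rw [h, sub_zero, div_self hfb0, norm_one] at h1
      exact lt_irrefl _ h1
    -- the constant
    have hcS : ∑ b ∈ f.support, algebraMap v.Completion (Kvs v) (ρ b) * (b : Kvs v) ∈ S :=
      sum_mem fun b _ => mul_mem (hcst _ (hρ1 b)) (hBS b.2)
    have hc0 : ∑ b ∈ f.support, algebraMap v.Completion (Kvs v) (ρ b) * (b : Kvs v) ≠ 0 := by
      intro h
      have h1 := (linearIndependent_iff'.mp hBind) f.support ρ (by
        rw [← h]
        exact Finset.sum_congr rfl fun b _ => Algebra.smul_def _ _) b0 hb0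
      exact hρ0 h1
    have hcn := ncst _ hcS hc0
    have hdiff : nm v (∑ b ∈ f.support,
        algebraMap v.Completion (Kvs v) (f b / f b0 - ρ b) * (b : Kvs v)) < 1 := by
      refine nsum _ _ _ fun b _ => ?_
      rw [nmul, next]
      exact lt_of_le_of_lt (mul_le_of_le_one_right (norm_nonneg _) (ncle _ (hBS b.2))) (hρ2 b)
    have hsum : x = algebraMap v.Completion (Kvs v) (f b0) *
        (∑ b ∈ f.support, algebraMap v.Completion (Kvs v) (ρ b) * (b : Kvs v) +
          ∑ b ∈ f.support,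
            algebraMap v.Completion (Kvs v) (f b / f b0 - ρ b) * (b : Kvs v)) := by
      rw [← hf, Finsupp.linearCombination_apply, Finsupp.sum, ← Finset.sum_add_distrib,
        Finset.mul_sum]
      refine Finset.sum_congr rfl fun b _ => ?_
      rw [← add_mul, ← map_add, ← mul_assoc, ← map_mul, Algebra.smul_def]
      congr 2
      field_simp
      ring
    have hone : nm v (∑ b ∈ f.support, algebraMap v.Completion (Kvs v) (ρ b) * (b : Kvs v) +
          ∑ b ∈ f.support,
            algebraMap v.Completion (Kvs v) (f b / f b0 - ρ b) * (b : Kvs v)) = 1 := by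
      refine le_antisymm ((nadd _ _).trans (max_le hcn.le hdiff.le)) ?_
      by_contra hlt
      push Not at hlt
      have h1 : nm v (∑ b ∈ f.support, algebraMap v.Completion (Kvs v) (ρ b) * (b : Kvs v)) < 1 := by
        have h2 : ∑ b ∈ f.support, algebraMap v.Completion (Kvs v) (ρ b) * (b : Kvs v) =
            (∑ b ∈ f.support, algebraMap v.Completion (Kvs v) (ρ b) * (b : Kvs v) +
            ∑ b ∈ f.support,
              algebraMap v.Completion (Kvs v) (f b / f b0 - ρ b) * (b : Kvs v)) +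
            ∑ b ∈ f.support,
              algebraMap v.Completion (Kvs v) (f b / f b0 - ρ b) * (b : Kvs v) := by
          rw [add_assoc, CharTwo.add_self_eq_zero, add_zero]
        rw [h2]
        exact lt_of_le_of_lt (nadd _ _) (max_lt hlt hdiff)
      rw [hcn] at h1
      exact lt_irrefl _ h1
    rw [hsum, nmul, next, hone, mul_one]
  have p2 : ∀ x ∈ Knr v, nm v x ≤ 1 → ∃ c ∈ Cst (Nat.card F) (Kvs v), nm v (x - c) < 1 := by
    intro x hx hx1
    by_cases hx0 : x = 0
    · refine ⟨0, c1, ?_⟩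
      rw [hx0, sub_zero, (nz 0).mpr rfl]
      exact zero_lt_one
    · obtain ⟨f, b0, hf, -, hmax, hnm⟩ := hmain x hx hx0
      have hle : ∀ b, ‖f b‖ ≤ 1 := fun b => (hmax b).trans (hnm ▸ hx1)
      choose ρ hρ1 hρ2 using fun b => h9 _ (hle b)
      refine ⟨∑ b ∈ f.support, algebraMap v.Completion (Kvs v) (ρ b) * (b : Kvs v),
        show _ ∈ S from sum_mem fun b _ => mul_mem (hcst _ (hρ1 b)) (hBS b.2), ?_⟩
      rw [← hf, Finsupp.linearCombination_apply, Finsupp.sum, ← Finset.sum_sub_distrib]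
      refine nsum _ _ _ fun b _ => ?_
      rw [Algebra.smul_def, ← sub_mul, ← map_sub, nmul, next]
      exact lt_of_le_of_lt (mul_le_of_le_one_right (norm_nonneg _) (ncle _ (hBS b.2))) (hρ2 b)
  have p4 : ∀ x ∈ Cst (Nat.card F) (Kvs v), x ∈ Knr v := fun x hx =>
    IntermediateField.subset_adjoin _ _ hx
  have hfix : ∀ x : Kvs v, (∀ g : Gal(Kvs v/v.Completion), (∀ y ∈ Knr v, g y = y) → g x = x) →
      x ∈ Knr v := by
    intro x hx
    rw [← InfiniteGalois.fixedField_fixingSubgroup (Knr v), IntermediateField.mem_fixedField_iff]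
    intro g hg
    exact hx g ((IntermediateField.mem_fixingSubgroup_iff _ _).mp hg)
  refine ⟨?_, p2, ?_, p4, ?_, ?_, h7⟩
  · intro x hx hx0
    obtain ⟨f, b0, -, hfb0, -, hnm⟩ := hmain x hx hx0
    obtain ⟨n, hn⟩ := hdisc _ hfb0
    exact ⟨n, hnm.trans hn⟩
  · intro x hx hx1
    obtain ⟨c, hc, hxc⟩ := p2 x hx hx1
    obtain ⟨θ₁, hθ₁⟩ := as_root3 c
    have hθ₁K := p4 _ (c5 c θ₁ hc hθ₁)
    obtain ⟨θ₂, hθ₂n, hθ₂⟩ := nas _ hxc
    have h2 : (2 : Kvs v) = 0 := CharTwo.two_eq_zero
    have hθ₂K : θ₂ ∈ Knr v := by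
      refine hfix θ₂ fun g hg => ?_
      have h3 : g (x - c) = x - c := hg _ (sub_mem hx (p4 c hc))
      have h4 : (g θ₂) ^ 2 + g θ₂ = θ₂ ^ 2 + θ₂ := by
        rw [← map_pow, ← map_add, hθ₂, h3]
      have h5 : (g θ₂ + θ₂) * (g θ₂ + θ₂ + 1) = 0 := by
        have h6 : (g θ₂ + θ₂) * (g θ₂ + θ₂ + 1) =
            ((g θ₂) ^ 2 + g θ₂) + (θ₂ ^ 2 + θ₂) + 2 * (g θ₂ * θ₂) := by ring
        rw [h6, h4, h2, zero_mul, add_zero, CharTwo.add_self_eq_zero]
      rcases mul_eq_zero.mp h5 with h6 | h6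
      · rw [← sub_eq_zero, CharTwo.sub_eq_add]
        exact h6
      · exfalso
        have h7 : g θ₂ + θ₂ = 1 := by
          rw [← sub_eq_zero, CharTwo.sub_eq_add]
          exact h6
        have h8 := nadd (g θ₂) θ₂
        rw [h7, none1, ngal, max_self] at h8
        exact absurd hθ₂n (not_lt.mpr h8)
    refine ⟨θ₁ + θ₂, add_mem hθ₁K hθ₂K, ?_⟩
    have h3 : (θ₁ + θ₂) ^ 2 + (θ₁ + θ₂) = (θ₁ ^ 2 + θ₁) + (θ₂ ^ 2 + θ₂) + 2 * (θ₁ * θ₂) := by ring
    rw [h3, hθ₁, hθ₂, h2, zero_mul, add_zero]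
    ring
  · intro x k hx
    refine hfix x fun g hg => ?_
    have h1 : (g x) ^ 2 ^ k = x ^ 2 ^ k := by
      rw [← map_pow]
      exact hg _ hx
    have h2 : (g x - x) ^ 2 ^ k = 0 := by
      rw [sub_pow_char_pow, h1, sub_self]
    exact sub_eq_zero.mp (pow_eq_zero_iff (pow_pos (by norm_num) k).ne' |>.mp h2)
  · intro g
    constructor
    · intro hg x hx
      induction hx using IntermediateField.adjoin_induction with
      | mem x hx => exact hg x hx
      | algebraMap x => exact g.commutes x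
      | add x y _ _ hx hy => rw [map_add, hx, hy]
      | inv x _ hx => rw [map_inv₀, hx]
      | mul x y _ _ hx hy => rw [map_mul, hx, hy]
    · intro hg x hx
      exact hg x (p4 x hx)

end Pool.Agent.MP72W
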