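import Pool.Agent.Lib.MP_72e2e6_nt.W2.C.Spec

/-!
# MP_72e2e6_nt, T3, C/PfI: polynomials modulo Artin-Schreier
-/

set_option autoImplicit false

namespace Pool.Agent.MP72W

open Polynomial

private theorem PfI_base (F : Type) [Field F] [Finite F] [CharP F 2] : ∀ (k : ℕ) (p : F[X]),
    p.natDegree ≤ k → ∃ (c : ℕ → F) (c0 : F) (s : F[X]), s.natDegree ≤ k ∧
      p = (∑ i ∈ Finset.range ((k + 1) / 2), C (c i) * X ^ (2 * i + 1)) + C c0 + (s ^ 2 + s) := by
  intro k
  have : CharP F[X] 2 := inferInstance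
  induction k with
  | zero =>
    intro p hp
    refine ⟨fun _ => 0, p.coeff 0, 0, by simp, ?_⟩
    simpa using Polynomial.eq_C_of_natDegree_le_zero hp
  | succ k ih =>
    intro p hp
    set a := p.coeff (k + 1) with ha
    set p' := p - C a * X ^ (k + 1) with hp'
    have hp'd : p'.natDegree ≤ k := by
      rw [Polynomial.natDegree_le_iff_coeff_eq_zero]
      intro N hN
      rw [hp', coeff_sub, coeff_C_mul, coeff_X_pow]
      by_cases h : N = k + 1
      · subst h; simp [ha]
      · have h2 : k + 1 < N := by omega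
        rw [if_neg h, mul_zero, sub_zero]
        exact Polynomial.coeff_eq_zero_of_natDegree_lt (lt_of_le_of_lt hp h2)
    rcases Nat.even_or_odd' k with ⟨j, hj | hj⟩
    · -- k = 2 j, k + 1 odd
      obtain ⟨c, c0, s, hs, he⟩ := ih p' hp'd
      refine ⟨fun i => if i = j then a else c i, c0, s, by omega, ?_⟩
      have e1 : (k + 1 + 1) / 2 = j + 1 := by omega
      have e2 : (k + 1) / 2 = j := by omega
      rw [e1, Finset.sum_range_succ]
      rw [e2] at he
      have e3 : ∑ i ∈ Finset.range j, C (if i = j then a else c i) * X ^ (2 * i + 1) =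
          ∑ i ∈ Finset.range j, C (c i) * X ^ (2 * i + 1) := by
        refine Finset.sum_congr rfl fun i hi => ?_
        rw [if_neg (by have := Finset.mem_range.1 hi; omega)]
      have e6 : C ((fun i => if i = j then a else c i) j) = C a := by simp
      rw [e3, e6]
      have e4 : p = p' + C a * X ^ (k + 1) := by rw [hp']; ring
      rw [e4, he, hj]
      ring
    · -- k = 2 j + 1, k + 1 = 2 (j + 1)
      have hsq : ∃ b : F, b ^ 2 = a := by
        have := Fintype.ofFinite F
        have hb := (frobeniusEquiv F 2).surjective a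
        obtain ⟨b, hb⟩ := hb
        exact ⟨b, by simpa [frobeniusEquiv_apply, frobenius_def] using hb⟩
      obtain ⟨b, hb⟩ := hsq
      have hbd : (C b * X ^ (j + 1) : F[X]).natDegree ≤ j + 1 := natDegree_C_mul_X_pow_le b (j + 1)
      have hp2 : (p' + C b * X ^ (j + 1)).natDegree ≤ k := by
        refine (natDegree_add_le _ _).trans (max_le hp'd (hbd.trans (by omega)))
      obtain ⟨c, c0, s, hs, he⟩ := ih _ hp2
      have e1 : (k + 1 + 1) / 2 = j + 1 := by omega
      have e2 : (k + 1) / 2 = j + 1 := by omega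
      refine ⟨c, c0, s + C b * X ^ (j + 1), ?_, ?_⟩
      · refine (natDegree_add_le _ _).trans (max_le (by omega) (hbd.trans (by omega)))
      · rw [e1]
        rw [e2] at he
        have h2 : (2 : F[X]) = 0 := CharP.cast_eq_zero F[X] 2
        have e4 : p = (p' + C b * X ^ (j + 1)) - C b * X ^ (j + 1) + C a * X ^ (k + 1) := by
          rw [hp']; ring
        have e5 : (C a * X ^ (k + 1) : F[X]) = (C b * X ^ (j + 1)) ^ 2 := by
          rw [← hb, hj, C_pow]; ring
        rw [e4, he, e5]
        linear_combination (- s * (C b * X ^ (j + 1)) - C b * X ^ (j + 1)) * h2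

theorem tPfI : S_PfI := by
  classical
  intro F _ _ _ κ k p hp
  obtain ⟨c, c0, s, hs, he⟩ := PfI_base F k p hp
  refine ⟨_, ⟨c, rfl⟩, c0 - (if 1 ≤ k ∧ eps (c 0) ≠ 0 then κ else 0), s, hs, ?_⟩
  have h1 : (algebraMap F[X] (RatFunc F)) (∑ i ∈ Finset.range ((k + 1) / 2), C (c i) * X ^ (2 * i + 1)) =
      ∑ i ∈ Finset.range ((k + 1) / 2), RatFunc.C (c i) * RatFunc.X ^ (2 * i + 1) := by
    rw [map_sum]
    refine Finset.sum_congr rfl fun i _ => ?_
    rw [map_mul, map_pow, RatFunc.algebraMap_C, RatFunc.algebraMap_X]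
  have h2 : (if 1 ≤ k ∧ eps (c 0) ≠ 0 then RatFunc.C κ else 0 : RatFunc F) =
      RatFunc.C (if 1 ≤ k ∧ eps (c 0) ≠ 0 then κ else 0) := by
    split_ifs <;> simp
  conv_lhs => rw [he]
  rw [map_add, map_add, h1, map_add, map_pow, RatFunc.algebraMap_C, h2, map_sub]
  ring

end Pool.Agent.MP72W
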