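import Pool.Agent.Lib.MP_72e2e6_nt.W2.C.Spec

namespace Pool.Agent.MP72W

open Polynomial IntermediateField

private theorem PfP_dml {F : Type} [Field F] {a b : F[X]} {m n : ℕ}
    (ha : a.degree < (m : WithBot ℕ)) (hb : b.natDegree ≤ n) :
    (a * b).degree < ((m + n : ℕ) : WithBot ℕ) := by
  by_cases h : a * b = 0
  · rw [h, degree_zero]
    exact WithBot.bot_lt_coe _
  · have ha0 : a ≠ 0 := left_ne_zero_of_mul h
    have hb0 : b ≠ 0 := right_ne_zero_of_mul h
    rw [degree_eq_natDegree ha0] at ha
    have h1 : a.natDegree < m := by exact_mod_cast ha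
    rw [degree_eq_natDegree h, natDegree_mul ha0 hb0]
    exact_mod_cast (show a.natDegree + b.natDegree < m + n by omega)

private theorem PfP_mono {F : Type} [Field F] {a : F[X]} {m n : ℕ}
    (ha : a.degree < (m : WithBot ℕ)) (h : m ≤ n) : a.degree < (n : WithBot ℕ) :=
  lt_of_lt_of_le ha (by exact_mod_cast h)

private theorem PfP_add {F : Type} [Field F] {a b : F[X]} {n : ℕ}
    (ha : a.degree < (n : WithBot ℕ)) (hb : b.degree < (n : WithBot ℕ)) :
    (a + b).degree < (n : WithBot ℕ) :=
  lt_of_le_of_lt (degree_add_le a b) (max_lt ha hb)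

/-- square roots modulo `P` -/
private theorem PfP_sqrt {F : Type} [Field F] [Finite F] [CharP F 2] {P : F[X]} (hP : P.Monic)
    (hirr : Irreducible P) (a : F[X]) (ha : a.degree < P.degree) :
    ∃ s a' : F[X], s.degree < P.degree ∧ a'.degree < P.degree ∧ s ^ 2 = a + P * a' := by
  classical
  haveI : Fact (Irreducible P) := ⟨hirr⟩
  have hd : 0 < P.natDegree := hirr.natDegree_pos
  haveI : Module.Finite F (AdjoinRoot P) := hP.finite_adjoinRoot
  haveI : Finite (AdjoinRoot P) := Module.finite_of_finite F
  haveI : CharP (AdjoinRoot P) 2 :=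
    charP_of_injective_algebraMap (algebraMap F (AdjoinRoot P)).injective 2
  have hrc : ringChar (AdjoinRoot P) = 2 := ringChar.eq _ 2
  obtain ⟨x, hx⟩ := FiniteField.isSquare_of_char_two hrc (AdjoinRoot.mk P a)
  obtain ⟨t, rfl⟩ := AdjoinRoot.mk_surjective x
  have hs : AdjoinRoot.mk P (t %ₘ P) = AdjoinRoot.mk P t := by
    rw [AdjoinRoot.mk_eq_mk]
    refine ⟨-(t /ₘ P), ?_⟩
    have := modByMonic_add_div t P
    linear_combination this
  obtain ⟨s, hsdef⟩ : ∃ s, s = t %ₘ P := ⟨_, rfl⟩
  have hsd : s.degree < P.degree := by rw [hsdef]; exact degree_modByMonic_lt t hP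
  have h1 : P ∣ s ^ 2 - a := by
    rw [← AdjoinRoot.mk_eq_mk, map_pow, hsdef, hs, hx]
    ring
  obtain ⟨a', ha'⟩ := h1
  refine ⟨s, a', hsd, ?_, by linear_combination ha'⟩
  by_cases h0 : a' = 0
  · rw [h0, degree_zero]
    exact bot_lt_iff_ne_bot.2 (fun h => hP.ne_zero (degree_eq_bot.1 h))
  · have hP0 : P ≠ 0 := hP.ne_zero
    have hn : (s ^ 2 - a).natDegree = P.natDegree + a'.natDegree := by
      rw [ha', natDegree_mul hP0 h0]
    have hsn : s.natDegree < P.natDegree := natDegree_lt_natDegree' hsd hd
    have han : a.natDegree < P.natDegree := natDegree_lt_natDegree' ha hd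
    have h2 : (s ^ 2 - a).natDegree ≤ max (s ^ 2).natDegree a.natDegree := natDegree_sub_le _ _
    have h3 : (s ^ 2).natDegree ≤ 2 * s.natDegree := natDegree_pow_le
    have h4 : a'.natDegree < P.natDegree := by
      rcases le_total (s ^ 2).natDegree a.natDegree with h | h
      · rw [max_eq_right h] at h2; omega
      · rw [max_eq_left h] at h2; omega
    exact degree_lt_degree h4
where
  natDegree_lt_natDegree' {F : Type} [Field F] {s P : F[X]} (h : s.degree < P.degree)
      (hd : 0 < P.natDegree) : s.natDegree < P.natDegree := by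
    by_cases h0 : s = 0
    · rw [h0, natDegree_zero]; exact hd
    · exact natDegree_lt_natDegree h0 h

theorem tPfP : S_PfP := by
  intro F _ _ _ P hP hirr k
  have hd : 0 < P.natDegree := hirr.natDegree_pos
  have hPd : P.degree = ((P.natDegree : ℕ) : WithBot ℕ) := degree_eq_natDegree hP.ne_zero
  have h2F : (2 : F) = 0 := CharTwo.two_eq_zero
  have h2 : (2 : RatFunc F) = 0 := by
    have := congrArg (algebraMap F (RatFunc F)) h2F
    rwa [map_ofNat, map_zero] at this
  obtain ⟨φ, hφ⟩ : ∃ φ : F[X] →+* RatFunc F, φ = algebraMap F[X] (RatFunc F) := ⟨_, rfl⟩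
  have hφP : φ P ≠ 0 := by
    rw [hφ]
    intro h
    exact hP.ne_zero (RatFunc.algebraMap_injective F (by rw [h, map_zero]))
  simp only [← hφ]
  induction k with
  | zero =>
    intro g hg
    have hg0 : g = 0 := by
      rw [zero_mul] at hg
      exact degree_eq_bot.1 (by
        by_contra h
        rw [degree_eq_natDegree (fun h' => h (by rw [h', degree_zero]))] at hg
        have : g.natDegree < 0 := by exact_mod_cast hg
        omega)
    subst hg0
    refine ⟨0, ⟨fun _ => 0, fun _ => by rw [degree_zero, hPd]; exact WithBot.bot_lt_coe _, by simp⟩,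
      0, hg, by simp⟩
  | succ k ih =>
    intro g hg
    obtain ⟨g', hg'⟩ : ∃ g', g' = g /ₘ P := ⟨_, rfl⟩
    obtain ⟨a, haa⟩ : ∃ a, a = g %ₘ P := ⟨_, rfl⟩
    have hga : g = P * g' + a := by
      rw [hg', haa]
      have := modByMonic_add_div g P
      linear_combination -this
    have had : a.degree < P.degree := by rw [haa]; exact degree_modByMonic_lt g hP
    have hg'd : g'.degree < ((k * P.natDegree : ℕ) : WithBot ℕ) := by
      by_cases h0 : g' = 0
      · rw [h0, degree_zero]; exact WithBot.bot_lt_coe _
      · have h1 : P.degree ≤ g.degree := by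
          by_contra h
          push Not at h
          apply h0
          rw [hg']
          exact (divByMonic_eq_zero_iff hP).2 h
        have hg0 : g ≠ 0 := by
          rintro rfl
          apply h0
          rw [hg', zero_divByMonic]
        have h2 : P.natDegree ≤ g.natDegree := natDegree_le_natDegree h1
        have h3 : g'.natDegree = g.natDegree - P.natDegree := by
          rw [hg', natDegree_divByMonic g hP]
        rw [degree_eq_natDegree hg0] at hg
        have h4 : g.natDegree < (k + 1) * P.natDegree := by exact_mod_cast hg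
        rw [degree_eq_natDegree h0]
        have h5 : g'.natDegree < k * P.natDegree := by
          rw [h3]
          have : (k + 1) * P.natDegree = k * P.natDegree + P.natDegree := by ring
          omega
        exact_mod_cast h5
    have hPs : ∀ s : F[X], s.degree < ((k * P.natDegree : ℕ) : WithBot ℕ) →
        (s * P).degree < (((k + 1) * P.natDegree : ℕ) : WithBot ℕ) := by
      intro s hs
      have := PfP_dml hs (le_refl P.natDegree)
      rw [show k * P.natDegree + P.natDegree = (k + 1) * P.natDegree by ring] at this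
      exact this
    rcases Nat.even_or_odd' k with ⟨j, hj | hj⟩
    · -- `k + 1` odd
      obtain ⟨D', ⟨c, hc, hD'⟩, s', hs', hE⟩ := ih g' hg'd
      have e1 : (k + 1) / 2 = j := by omega
      have e2 : (k + 1 + 1) / 2 = j + 1 := by omega
      refine ⟨D' + φ a / φ P ^ (2 * j + 1), ?_, s' * P, hPs s' hs', ?_⟩
      · refine ⟨fun i => if i = j then a else c i, ?_, ?_⟩
        · intro i
          by_cases h : i = j
          · simp only [if_pos h]; exact had
          · simp only [if_neg h]; exact hc i
        · rw [e2, Finset.sum_range_succ, hD', e1, hφ]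
          simp only [if_true]
          congr 1
          refine Finset.sum_congr rfl fun i hi => ?_
          rw [Finset.mem_range] at hi
          rw [if_neg (by omega)]
      · have e3 : φ (s' * P) / φ P ^ (k + 1) = φ s' / φ P ^ k := by
          rw [map_mul, pow_succ]
          exact mul_div_mul_right _ _ hφP
        have e4 : φ g / φ P ^ (k + 1) = φ g' / φ P ^ k + φ a / φ P ^ (2 * j + 1) := by
          rw [hga, map_add, map_mul, hj]
          field_simp
          ring
        rw [e3, e4, hE]
        ring
    · -- `k + 1` even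
      obtain ⟨s₀, a', hs₀, ha', hsq⟩ := PfP_sqrt hP hirr a had
      rw [hPd] at hs₀ ha'
      have hnP : ∀ n : ℕ, (P ^ n).natDegree ≤ n * P.natDegree := fun n => natDegree_pow_le
      obtain ⟨D', hD', s', hs', hE⟩ := ih (g' + s₀ * P ^ j + a') (by
        refine PfP_add (PfP_add hg'd ?_) ?_
        · refine PfP_mono (PfP_dml hs₀ (hnP j)) ?_
          rw [hj]
          nlinarith
        · refine PfP_mono ha' ?_
          rw [hj]
          nlinarith)
      have hDP : DP P k ⊆ DP P (k + 1) := by
        rintro x ⟨c, hc, hx⟩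
        refine ⟨c, hc, ?_⟩
        have e1 : (k + 1 + 1) / 2 = (k + 1) / 2 := by omega
        rw [e1]
        exact hx
      refine ⟨D', hDP hD', s' * P + s₀ * P ^ (j + 1), ?_, ?_⟩
      · refine PfP_add (hPs s' hs') ?_
        refine PfP_mono (PfP_dml hs₀ (hnP (j + 1))) ?_
        rw [hj]
        nlinarith
      · obtain ⟨x, hx⟩ : ∃ x, x = φ s' / φ P ^ k := ⟨_, rfl⟩
        obtain ⟨y, hy⟩ : ∃ y, y = φ s₀ / φ P ^ (j + 1) := ⟨_, rfl⟩
        obtain ⟨G, hG⟩ : ∃ G, G = φ g' / φ P ^ k := ⟨_, rfl⟩
        obtain ⟨A, hA⟩ : ∃ A, A = φ a / φ P ^ (k + 1) := ⟨_, rfl⟩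
        obtain ⟨A', hA'⟩ : ∃ A', A' = φ a' / φ P ^ k := ⟨_, rfl⟩
        have e1 : φ (s' * P + s₀ * P ^ (j + 1)) / φ P ^ (k + 1) = x + y := by
          rw [hx, hy, map_add, map_mul, map_mul, map_pow, hj]
          field_simp
          ring
        have e2 : φ g / φ P ^ (k + 1) = G + A := by
          rw [hG, hA, hga, map_add, map_mul]
          field_simp
          ring
        have e3 : y ^ 2 = A + A' := by
          have h5 := congrArg φ hsq
          rw [map_pow, map_add, map_mul] at h5
          rw [hy, hA, hA', div_pow, h5, hj]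
          field_simp
          ring
        have e4 : G + y + A' = D' + (x ^ 2 + x) := by
          rw [← hx] at hE
          rw [← hE, hG, hA', hy, map_add, map_add, map_mul, map_pow, hj]
          field_simp
          ring
        rw [e1, e2]
        linear_combination e4 - e3 - (y + x * y + A') * h2

end Pool.Agent.MP72W
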