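import Pool.Agent.Lib.MP_72e2e6_nt.W2.C.Spec

/-!
# MP_72e2e6_nt, T3, part C: restriction homomorphisms
-/

namespace Pool.Agent.MP72W

open Polynomial IntermediateField

private theorem o2_inj {L : Type} [Field L] {a b : ZMod 2} (h : o2 L a = o2 L b) : a = b := by
  have hz : ∀ c : ZMod 2, c = 0 ∨ c = 1 := by decide
  unfold o2 at h
  rcases hz a with rfl | rfl <;> rcases hz b with rfl | rfl
  · rfl
  · simp at h
  · simp at h
  · rfl

private theorem o2_map {Ω L : Type} [Field Ω] [Field L] (ι : Ω →+* L) (a : ZMod 2) :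
    ι (o2 Ω a) = o2 L a := by
  unfold o2
  split_ifs
  · exact map_zero ι
  · exact map_one ι

/-- The restriction homomorphism exists. -/
private theorem exists_res {K Ω M L : Type} [Field K] [Field Ω] [Field M] [Field L] [Algebra K Ω]
    [Algebra K M] [Algebra K L] [Algebra M L] [IsScalarTower K M L] [IsGalois K Ω] [IsGalois M L]
    (ι : Ω →ₐ[K] L) :
    ∃ r : Gal(L/M) →* Gal(Ω/K), Continuous r ∧ ∀ g : Gal(L/M), Rst ι g (r g) := by
  let _ : Algebra Ω L := ι.toRingHom.toAlgebra
  have htow : IsScalarTower K Ω L := IsScalarTower.of_algebraMap_eq fun x => (ι.commutes x).symm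
  let r : Gal(L/M) →* Gal(Ω/K) :=
    (AlgEquiv.restrictNormalHom (F := K) (K₁ := L) Ω).comp
      (AlgEquiv.restrictScalarsHom K : (L ≃ₐ[M] L) →* (L ≃ₐ[K] L))
  have hr : ∀ g : Gal(L/M), Rst ι g (r g) := by
    intro g x
    exact (AlgEquiv.restrictNormal_commutes (AlgEquiv.restrictScalarsHom K g) Ω x).symm
  refine ⟨r, ?_, hr⟩
  refine continuous_of_continuousAt_one r ?_
  rw [ContinuousAt, map_one]
  intro U hU
  rw [krullTopology_mem_nhds_one_iff] at hU
  obtain ⟨E, hE, hEU⟩ := hU
  have hfg : E.FG := by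
    refine IntermediateField.fg_of_fg_toSubalgebra E ?_
    rw [Subalgebra.fg_iff_finiteType]
    exact inferInstanceAs (Algebra.FiniteType K E)
  obtain ⟨t, htfin, htE⟩ := IntermediateField.fg_def.mp hfg
  have hfin : Finite (ι '' t : Set L) := (htfin.image ι).to_subtype
  have hfd : FiniteDimensional M (adjoin M (ι '' t)) :=
    IntermediateField.finiteDimensional_adjoin fun x _ => Algebra.IsIntegral.isIntegral x
  have hopen := IntermediateField.fixingSubgroup_isOpen (adjoin M (ι '' t))
  have hnhds : ((adjoin M (ι '' t)).fixingSubgroup : Set Gal(L/M)) ∈ nhds 1 :=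
    hopen.mem_nhds (one_mem _)
  rw [Filter.mem_map]
  refine Filter.mem_of_superset hnhds fun g hg => hEU ?_
  have hg' := (IntermediateField.mem_fixingSubgroup_iff _ _).mp hg
  refine (IntermediateField.mem_fixingSubgroup_iff _ _).mpr fun x hx => ?_
  rw [← htE] at hx
  induction hx using IntermediateField.adjoin_induction with
  | mem x hx =>
    exact ι.injective
      ((hr g x).symm.trans (hg' _ (IntermediateField.subset_adjoin M _ ⟨x, hx, rfl⟩)))
  | algebraMap x => exact (r g).commutes x
  | add x y _ _ hx hy => rw [map_add, hx, hy]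
  | inv x _ hx => rw [map_inv₀, hx]
  | mul x y _ _ hx hy => rw [map_mul, hx, hy]

theorem tRes (hHas : S_Has) : S_Res := by
  intro K Ω M L _ _ _ _ _ _ _ _ _ _ _ _ ι
  have hex := exists_res (M := M) ι
  have hdef : rsH (M := M) ι = hex.choose := dif_pos hex
  have h1 : Continuous (rsH (M := M) ι) := by
    rw [hdef]
    exact hex.choose_spec.1
  have h2 : ∀ g : Gal(L/M), Rst ι g (rsH (M := M) ι g) := by
    rw [hdef]
    exact hex.choose_spec.2
  have hchar : CharP M 2 := charP_of_injective_algebraMap (algebraMap K M).injective 2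
  refine ⟨h1, h2, ?_, ?_⟩
  · intro g σ hσ
    refine AlgEquiv.ext fun x => ι.injective ?_
    exact (hσ x).symm.trans (h2 g x)
  · rintro f g ⟨θ, hθ⟩
    have h3 := (hHas K Ω).2.1 f θ hθ (rsH (M := M) ι g)
    have h4 : (ι θ) ^ 2 + ι θ = algebraMap M L (algebraMap K M f) := by
      rw [← map_pow, ← map_add, hθ, ι.commutes, ← IsScalarTower.algebraMap_apply]
    have h5 := (hHas M L).2.1 (algebraMap K M f) (ι θ) h4 g
    have h6 := h2 g θ
    rw [h3, map_add, h5] at h6
    have h7 := add_left_cancel h6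
    have h8 : ι (o2 Ω (hAS K Ω f (rsH (M := M) ι g))) = o2 L (hAS K Ω f (rsH (M := M) ι g)) :=
      o2_map ι.toRingHom _
    rw [h8] at h7
    exact (o2_inj h7).symm

end Pool.Agent.MP72W
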