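import Pool.Agent.Lib.MP_72e2e6_nt.W2.C.Spec

/-!
# MP_72e2e6_nt, T3, part C: the subgroup `W` and the element `φ` (abstract)
-/

namespace Pool.Agent.MP72W

private theorem z2 (a : ZMod 2) : a = 0 ∨ a = 1 := by
  revert a
  decide

private theorem z2_self (a : ZMod 2) : a + a = 0 := by
  revert a
  decide

private theorem dich {G : Type} [Group G] (k l : G → ZMod 2)
    (hk : ∀ a b, k (a * b) = k a + k b) (hl : ∀ a b, l (a * b) = l a + l b)
    (h : ∀ g, k g = 0 → l g = 0) : (∀ g, l g = 0) ∨ ∀ g, l g = k g := by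
  by_cases hex : ∃ g0, k g0 = 1 ∧ l g0 = 1
  · right
    obtain ⟨g0, hk0, hl0⟩ := hex
    intro g
    rcases z2 (k g) with hg | hg
    · rw [hg, h g hg]
    · have h1 : k (g * g0) = 0 := by rw [hk, hg, hk0]; decide
      have h2 := h _ h1
      rw [hl, hl0] at h2
      rcases z2 (l g) with h3 | h3
      · rw [h3] at h2
        exact absurd h2 (by decide)
      · rw [h3, hg]
  · left
    intro g
    rcases z2 (k g) with hg | hg
    · exact h g hg
    · rcases z2 (l g) with h3 | h3
      · exact h3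
      · exact absurd ⟨g, hg, h3⟩ hex

/-- A common zero of finitely many homomorphisms where another one does not vanish. -/
private theorem fin_zero {Γ Y : Type} [Group Γ] [AddCommGroup Y] (h : Y → Γ → ZMod 2)
    (hadd : ∀ y a b, h y (a * b) = h y a + h y b)
    (hY : ∀ y y' g, h (y + y') g = h y g + h y' g) (u : Finset Y) :
    ∀ κ : Γ → ZMod 2, (∀ a b, κ (a * b) = κ a + κ b) → (∀ y, ∃ g, h y g ≠ κ g) →
      ∃ g, κ g = 1 ∧ ∀ y ∈ u, h y g = 0 := by
  classical
  have h0 : ∀ g, h 0 g = 0 := by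
    intro g
    have h1 := hY 0 0 g
    rw [add_zero] at h1
    rw [z2_self] at h1
    exact h1
  induction u using Finset.induction_on with
  | empty =>
    intro κ hκ hne
    obtain ⟨g, hg⟩ := hne 0
    rw [h0] at hg
    exact ⟨g, (z2 (κ g)).resolve_left (Ne.symm hg), fun y hy => absurd hy (Finset.notMem_empty y)⟩
  | insert z s _ ih =>
    intro κ hκ hne
    obtain ⟨g0, hκ0, hs0⟩ := ih κ hκ hne
    rcases z2 (h z g0) with hz | hz
    · refine ⟨g0, hκ0, fun y hy => ?_⟩
      rcases Finset.mem_insert.mp hy with rfl | hy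
      · exact hz
      · exact hs0 y hy
    · obtain ⟨g1, hκ1, hs1⟩ := ih (fun g => κ g + h z g)
        (fun a b => by rw [hκ, hadd]; ring)
        (fun y => by
          obtain ⟨g, hg⟩ := hne (y + z)
          refine ⟨g, fun h1 => hg ?_⟩
          rw [hY, h1, add_assoc, z2_self, add_zero])
      rcases z2 (h z g1) with hz1 | hz1
      · refine ⟨g1, ?_, fun y hy => ?_⟩
        · rw [hz1, add_zero] at hκ1
          exact hκ1
        · rcases Finset.mem_insert.mp hy with rfl | hy
          · exact hz1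
          · exact hs1 y hy
      · have hκ1' : κ g1 = 0 := by
          rw [hz1] at hκ1
          rcases z2 (κ g1) with h2 | h2
          · exact h2
          · rw [h2] at hκ1
            exact absurd hκ1 (by decide)
        refine ⟨g0 * g1, by rw [hκ, hκ0, hκ1', add_zero], fun y hy => ?_⟩
        rw [hadd]
        rcases Finset.mem_insert.mp hy with rfl | hy
        · rw [hz, hz1]
          decide
        · rw [hs0 y hy, hs1 y hy, add_zero]

theorem tZor : S_Zor := by
  classical
  intro Γ _ _ _ _ Y _ h κ hh hY hκ hinj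
  have hadd : ∀ y a b, h y (a * b) = h y a + h y b := fun y => (hh y).add
  have hne : ∀ y, ∃ g, h y g ≠ κ g := by
    intro y
    by_contra hcon
    push Not at hcon
    have h1 := hinj y 1 (fun g => by rw [hcon g, one_mul, z2_self])
    exact one_ne_zero h1
  have h0 : ∀ g, h 0 g = 0 := by
    intro g
    have h1 := hY 0 0 g
    rw [add_zero, z2_self] at h1
    exact h1
  have hone : ∀ (k : Γ → ZMod 2), (∀ a b, k (a * b) = k a + k b) → k 1 = 0 := by
    intro k hk
    have h1 := hk 1 1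
    rw [mul_one, z2_self] at h1
    exact h1
  have hinv : ∀ (k : Γ → ZMod 2), (∀ a b, k (a * b) = k a + k b) → ∀ g, k g = 0 → k g⁻¹ = 0 := by
    intro k hk g hg
    have h1 := hk g g⁻¹
    rw [mul_inv_cancel, hone k hk, hg, zero_add] at h1
    exact h1.symm
  have hcl : ∀ (k : Γ → ZMod 2), IsLocallyConstant k → ∀ s : Set (ZMod 2), IsClosed (k ⁻¹' s) := by
    intro k hk s
    rw [← isOpen_compl_iff, ← Set.preimage_compl]
    exact hk _
  -- the element `φ`
  obtain ⟨φ, hφ1, hφ2⟩ : ∃ φ, κ φ = 1 ∧ ∀ y, h y φ = 0 := by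
    have h1 : (Set.univ ∩ ⋂ y, {g : Γ | κ g = 1 ∧ h y g = 0}).Nonempty := by
      refine isCompact_univ.inter_iInter_nonempty _ (fun y => ?_) (fun u => ?_)
      · exact (hcl κ hκ.loc {1}).inter (hcl (h y) (hh y).loc {0})
      · obtain ⟨g, hg1, hg2⟩ := fin_zero h hadd hY u κ hκ.add hne
        refine ⟨g, Set.mem_univ g, ?_⟩
        simp only [Set.mem_iInter]
        exact fun y hy => ⟨hg1, hg2 y hy⟩
    obtain ⟨φ, -, hφ⟩ := h1
    rw [Set.mem_iInter] at hφ
    exact ⟨φ, (hφ 0).1, fun y => (hφ y).2⟩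
  -- the subgroup `W`
  let 𝒲 : Set (Set Γ) := {A | ∃ W : Subgroup Γ, (W : Set Γ) = A ∧ IsClosed A ∧
    (∀ g ∈ A, κ g = 0) ∧ ∀ y, (∀ g ∈ A, h y g = 0) → ∀ g, h y g = 0}
  have hker : {g : Γ | κ g = 0} ∈ 𝒲 := by
    refine ⟨{ carrier := {g | κ g = 0}
              one_mem' := hone κ hκ.add
              mul_mem' := ?_
              inv_mem' := ?_ }, rfl, hcl κ hκ.loc {0}, fun g hg => hg, fun y hy => ?_⟩
    · intro a b ha hb
      change κ (a * b) = 0
      rw [hκ.add, show κ a = 0 from ha, show κ b = 0 from hb, add_zero]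
    · intro a ha
      exact hinv κ hκ.add a ha
    · rcases dich κ (h y) hκ.add (hadd y) hy with h1 | h1
      · exact h1
      · obtain ⟨g, hg⟩ := hne y
        exact absurd (h1 g) hg
  obtain ⟨A, -, hA⟩ := zorn_superset_nonempty 𝒲 (by
    intro c hc hchain hcne
    obtain ⟨A0, hA0⟩ := hcne
    let 𝒢 : Set (Subgroup Γ) := {W | (W : Set Γ) ∈ c}
    have hmem : ∀ g, g ∈ (sInf 𝒢 : Subgroup Γ) ↔ g ∈ ⋂₀ c := by
      intro g
      rw [Subgroup.mem_sInf, Set.mem_sInter]
      constructor
      · intro hg A hA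
        obtain ⟨W, hW, -⟩ := hc hA
        have h1 : W ∈ 𝒢 := by
          change (W : Set Γ) ∈ c
          rw [hW]
          exact hA
        have h2 := hg W h1
        rw [← hW]
        exact h2
      · intro hg W hW
        exact hg _ hW
    refine ⟨⋂₀ c, ⟨sInf 𝒢, Set.ext hmem, ?_, ?_, ?_⟩, fun s hs => Set.sInter_subset_of_mem hs⟩
    · exact isClosed_sInter fun A hA => (hc hA).choose_spec.2.1
    · intro g hg
      exact (hc hA0).choose_spec.2.2.1 g (Set.mem_sInter.mp hg A0 hA0)
    · intro y hy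
      by_contra hcon
      have hall : ∀ A ∈ c, (A ∩ {g | h y g = 1}).Nonempty := by
        intro A hA
        by_contra hemp
        refine hcon ((hc hA).choose_spec.2.2.2 y fun g hg => ?_)
        rcases z2 (h y g) with h1 | h1
        · exact h1
        · exact absurd ⟨g, hg, h1⟩ hemp
      have hcne : Nonempty c := ⟨⟨A0, hA0⟩⟩
      have h1 := IsCompact.nonempty_iInter_of_directed_nonempty_isCompact_isClosed
        (fun A : c => (A : Set Γ) ∩ {g | h y g = 1}) (by
          intro A B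
          rcases hchain.total A.2 B.2 with hAB | hAB
          · exact ⟨A, subset_rfl, Set.inter_subset_inter_left _ hAB⟩
          · exact ⟨B, Set.inter_subset_inter_left _ hAB, subset_rfl⟩)
        (fun A => hall A A.2)
        (fun A => (((hc A.2).choose_spec.2.1).inter (hcl (h y) (hh y).loc {1})).isCompact)
        (fun A => ((hc A.2).choose_spec.2.1).inter (hcl (h y) (hh y).loc {1}))
      obtain ⟨g, hg⟩ := h1
      rw [Set.mem_iInter] at hg
      have h2 : g ∈ ⋂₀ c := Set.mem_sInter.mpr fun A hA => (hg ⟨A, hA⟩).1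
      have h3 : h y g = 1 := (hg ⟨A0, hA0⟩).2
      rw [hy g h2] at h3
      exact zero_ne_one h3) _ hker
  obtain ⟨W, hWA, hWc, hWκ, hWh⟩ := hA.prop
  subst hWA
  refine ⟨W, φ, hWκ, hφ1, hφ2, ?_, hWh⟩
  intro k hk
  by_contra hcon
  push Not at hcon
  have hk1 : k 1 = 0 := by
    have h1 := hk.add 1 1
    rw [mul_one, z2_self] at h1
    exact h1
  let W' : Subgroup Γ :=
    { carrier := {g | ∃ hg : g ∈ W, k ⟨g, hg⟩ = 0}
      one_mem' := ⟨W.one_mem, hk1⟩
      mul_mem' := by
        rintro a b ⟨ha, ha'⟩ ⟨hb, hb'⟩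
        refine ⟨W.mul_mem ha hb, ?_⟩
        have h1 := hk.add ⟨a, ha⟩ ⟨b, hb⟩
        rw [ha', hb', add_zero] at h1
        exact h1
      inv_mem' := by
        rintro a ⟨ha, ha'⟩
        refine ⟨W.inv_mem ha, ?_⟩
        have h1 := hk.add ⟨a, ha⟩ ⟨a, ha⟩⁻¹
        rw [mul_inv_cancel, hk1, ha', zero_add] at h1
        exact h1.symm }
  have hW'W : (W' : Set Γ) ⊆ W := fun g hg => hg.1
  have hW' : (W' : Set Γ) ∈ 𝒲 := by
    refine ⟨W', rfl, ?_, fun g hg => hWκ g (hW'W hg), fun y hy => ?_⟩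
    · have h1 : IsClosed (k ⁻¹' {0}) := by
        rw [← isOpen_compl_iff, ← Set.preimage_compl]
        exact hk.loc _
      have h2 := (hWc.isClosedEmbedding_subtypeVal.isClosed_iff_image_isClosed).mp h1
      have h3 : Subtype.val '' (k ⁻¹' {0}) = (W' : Set Γ) := by
        ext g
        constructor
        · rintro ⟨⟨g, hg⟩, hg0, rfl⟩
          exact ⟨hg, hg0⟩
        · rintro ⟨hg, hg0⟩
          exact ⟨⟨g, hg⟩, hg0, rfl⟩
      rw [← h3]
      exact h2
    · rcases dich k (fun g : W => h y g) hk.add (fun a b => hadd y a b)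
        (fun g hg => hy g ⟨g.2, hg⟩) with h1 | h1
      · exact hWh y fun g hg => h1 ⟨g, hg⟩
      · obtain ⟨g, hg⟩ := hcon y
        exact absurd (h1 g).symm hg
  have hle := hA.le_of_le hW' hW'W
  obtain ⟨g, hg⟩ := hcon 0
  obtain ⟨hg1, hg2⟩ := hle g.2
  exact hg (by rw [h0]; exact hg2)

end Pool.Agent.MP72W
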