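import Pool.Agent.Lib.MP_72e2e6_nt.W2.C.Defs
import Pool.Agent.Lib.MP_72e2e6_nt.W2.B.Spec

/-!
# MP_72e2e6_nt, theorem T3, part C: the places of `F(t)`, local theory

The proofs are complete in the docstrings; every module is independent (used statements are
hypotheses): file `W2/C/<Name>.lean` (import this file only) with `theorem t<Name> : S_<Name>` or
`theorem t<Name> (h1 : S_X) (h2 : S_Y) .. : S_<Name>` (in the order of the docstring), namespace
`Pool.Agent.MP72W`, other declarations `private`. `F` is a finite field of characteristic two,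
`q = Nat.card F`, `K = F(t)`, `Q = q ^ d`. In characteristic two `(a + b) ^ Q = a ^ Q + b ^ Q`, and
`+` and `-` are the same. `℘(x) = x ^ 2 + x`.
-/

namespace Pool.Agent.MP72W

open Polynomial IntermediateField

/-- **Av** (120 lines). The absolute values exist and are not trivial.

Proof. `P`: the ideal `(P)` is a `HeightOneSpectrum F[X]` `𝔭`; take `𝔭.adicAbv` with base `b = 2`
(`AdicValuation.lean`); for a polynomial `p ≠ 0` its value is `2 ^ (- multiplicity)`
(`intValuation`, `associates count`; or induct: `p = P ^ k * p'` with `P ∤ p'`,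
`adicAbv_coe_lt_one_iff`, and the value of `P` is `1 / 2` as `P ∉ (P) ^ 2`).
Infinity: `f ↦ if f = 0 then 0 else 2 ^ intDegree f`: multiplicative by `RatFunc.intDegree_mul`,
`intDegree (f + g) ≤ max`: `RatFunc.intDegree_add_le`. Nontrivial: the value of `P`, `X` is not `1`. -/
def S_Av : Prop :=
  ∀ (F : Type) [Field F],
    (∀ P : F[X], P.Monic → Irreducible P → ∃ v, IsPl (some P) v) ∧ (∃ v, IsPl (none : Option F[X]) v) ∧
    ∀ (w : Option F[X]) (v : AbsoluteValue (RatFunc F) ℝ), IsPl w v → v.IsNontrivial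

/-- **LfP** (200 lines). The properties `LF` for the finite places. `d = deg P`, `ϖ = P`, `R` the set
of the polynomials of degree less than `d`.

Proof. For `f = a / b` we have `v f = 2 ^ (m(b) - m(a))`, `m` the multiplicity of `P`; `na`:
`m(a + b) ≥ min`. `cov`: let `v f ≤ 1`, `f = a / b` with `a, b` coprime; then `P ∤ b`; let `b b' ≡ 1`
modulo `P` and `r` the remainder of `a b'` modulo `P`; `f - r = (a - r b) / b` and `P ∣ a - r b`.
`frob`: `f = r + g` with `r` as before, `v g < 1`; `f ^ Q - f = (r ^ Q - r) + (g ^ Q - g)` and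
`P ∣ r ^ Q - r` since `F[X] ⧸ (P)` is a field with `Q` elements. `sep`: `P` does not divide a nonzero
polynomial of degree less than `d`. `card`: `q ^ d` polynomials. `one`: `P ∤ c`. -/
def S_LfP : Prop :=
  ∀ (F : Type) [Field F] [Finite F] [CharP F 2] (P : F[X]) (v : AbsoluteValue (RatFunc F) ℝ),
    IsPl (some P) v → ∃ R, LF v P.natDegree (algebraMap F[X] (RatFunc F) P) R

/-- **LfI** (120 lines). The properties `LF` for the place at infinity, `d = 1`, `ϖ = 1 / t`, `R` the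
constants.

Proof. `v f = 2 ^ intDegree f`. `cov`: if `v f ≤ 1`, `f = a / b ≠ 0` with `deg a ≤ deg b`, let `c` be the
quotient of the leading coefficients if `deg a = deg b` and `0` otherwise; `deg (a - c b) < deg b`.
`frob`: `f = c + g`, `c ^ q = c`. -/
def S_LfI : Prop :=
  ∀ (F : Type) [Field F] [Finite F] [CharP F 2] (v : AbsoluteValue (RatFunc F) ℝ),
    IsPl none v → ∃ R, LF v 1 (RatFunc.X⁻¹ : RatFunc F) R

/-- **Lc1** (250 lines). The completion.

Proof. (1) The norm extends `v` (`UniformSpace.Completion.norm_coe`, `WithAbs`). (2) dense image of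
`K`. (3) by density (2) and (1) (the strong triangle inequality is a closed condition). (4) For
`x ≠ 0` take `y ∈ K` with `‖x - y‖ < ‖x‖`; then `‖x‖ = ‖y‖ = v y`. (5) Take `y ∈ K` with `‖x - y‖ < 1`;
`v y ≤ 1`; use `LF.cov`. (6) the same with `LF.frob` and `(x - y) ^ Q`. (7) `K → K_v` is a ring
homomorphism. (8) `θ = ∑_{i ≥ 0} x ^ (2 ^ i)` converges (complete, ultrametric, or geometric series:
`‖x ^ (2 ^ i)‖ ≤ ‖x‖ ^ i..`) and `θ ^ 2 + θ = x`, `‖θ‖ ≤ ‖x‖`. (9) `c = lim x ^ (Q ^ k)`: the sequence is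
Cauchy since `x ^ (Q ^ (k + 1)) - x ^ (Q ^ k) = (x ^ Q - x) ^ (Q ^ k)` and `‖x ^ Q - x‖ < 1`; `c ^ Q = c`
by continuity, and `‖c - x‖ < 1` (all the differences have norm at most `‖x ^ Q - x‖`). (10) If
`‖y‖ ≤ 1` then `‖y ^ 2 + y‖ ≤ 1`; so `‖y‖ > 1` and `‖y ^ 2 + y‖ = ‖y‖ ^ 2` (different norms). -/
def S_Lc1 : Prop :=
  ∀ (F : Type) [Field F] [Finite F] [CharP F 2] (v : AbsoluteValue (RatFunc F) ℝ) (d : ℕ)
    (ϖ : RatFunc F) (R : Finset (RatFunc F)), LF v d ϖ R →
    (∀ x : RatFunc F, ‖algebraMap (RatFunc F) v.Completion x‖ = v x) ∧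
    (∀ (x : v.Completion) (ε : ℝ), 0 < ε → ∃ y : RatFunc F, ‖x - algebraMap _ _ y‖ < ε) ∧
    IsUltrametricDist v.Completion ∧
    (∀ x : v.Completion, x ≠ 0 → ∃ n : ℤ, ‖x‖ = v ϖ ^ n) ∧
    (∀ x : v.Completion, ‖x‖ ≤ 1 → ∃ r ∈ R, ‖x - algebraMap _ _ r‖ < 1) ∧
    (∀ x : v.Completion, ‖x‖ ≤ 1 → ‖x ^ (Nat.card F ^ d) - x‖ < 1) ∧
    CharP v.Completion 2 ∧
    (∀ x : v.Completion, ‖x‖ < 1 → ∃ θ : v.Completion, ‖θ‖ < 1 ∧ θ ^ 2 + θ = x) ∧
    (∀ x : v.Completion, ‖x‖ ≤ 1 → ∃ c : v.Completion, c ^ (Nat.card F ^ d) = c ∧ ‖x - c‖ < 1) ∧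
    ∀ y : v.Completion, 1 < ‖y ^ 2 + y‖ → 1 < ‖y‖ ∧ ‖y ^ 2 + y‖ = ‖y‖ ^ 2

/-- **Lc2** (150 lines, uses `S_Lc1`). The spectral norm on the separable closure.

Proof. By `S_Lc1` the completion is a complete ultrametric normed field with a nontrivial norm
(`0 < ‖ϖ‖ < 1`), so `spectralNorm` is a multiplicative nonarchimedean norm extending the norm, invariant
under automorphisms (`spectralAlgNorm_mul`, `isNonarchimedean_spectralNorm`, `spectralNorm_extends`,
`spectralNorm_eq_of_equiv`, `eq_zero_of_map_spectralNorm_eq_zero`, `spectralNorm_nonneg`). (7) for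
`c ≠ 0` with `c ^ (q ^ n) = c` we get `nm c ^ (q ^ n) = nm c`, so `nm c = 1`. (8) `X ^ 2 + X - x` is
separable, so it has roots `θ`, `θ + 1`, and `nm θ * nm (θ + 1) = nm x < 1`. (9) characteristic two. -/
def S_Lc2 : Prop :=
  ∀ (F : Type) [Field F] [Finite F] [CharP F 2] (v : AbsoluteValue (RatFunc F) ℝ) (d : ℕ)
    (ϖ : RatFunc F) (R : Finset (RatFunc F)), LF v d ϖ R →
    (∀ x : Kvs v, 0 ≤ nm v x) ∧ (∀ x : Kvs v, nm v x = 0 ↔ x = 0) ∧
    (∀ x y : Kvs v, nm v (x * y) = nm v x * nm v y) ∧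
    (∀ x y : Kvs v, nm v (x + y) ≤ max (nm v x) (nm v y)) ∧
    (∀ x : v.Completion, nm v (algebraMap v.Completion (Kvs v) x) = ‖x‖) ∧
    (∀ (g : Gal(Kvs v/v.Completion)) (x : Kvs v), nm v (g x) = nm v x) ∧
    (∀ x ∈ Cst (Nat.card F) (Kvs v), x ≠ 0 → nm v x = 1) ∧
    (∀ x : Kvs v, nm v x < 1 → ∃ θ : Kvs v, nm v θ < 1 ∧ θ ^ 2 + θ = x) ∧
    CharP (Kvs v) 2

/-- **Cst** (100 lines). The constants form a subfield. `L` is a separable closure of a field of
characteristic two (only: `L` separably closed).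

Proof. If `x ^ (q ^ n) = x`, then `x ^ (q ^ (n k)) = x` for all `k ≥ 1`; for two elements use the exponent
`n n'`; sums, products and inverses are clear (`q` is a power of `2`, characteristic two:
`add_pow_char_pow`). Roots: let `θ ^ 2 + θ = c` (a separable polynomial); with
`Q = q ^ n = 2 ^ k`, `c ^ Q = c`, `(θ ^ Q + θ) ^ 2 + (θ ^ Q + θ) = c ^ Q + c = 0`, so `θ ^ Q = θ` or `θ + 1`, and
`θ ^ (Q ^ 2) = θ`. Finally for `n ≥ 1` the set of the `x` with `x ^ (q ^ n) = x` has `q ^ n` elements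
(separable polynomial `X ^ (q ^ n) - X`). -/
def S_Cst : Prop :=
  ∀ (q r : ℕ), 1 ≤ r → q = 2 ^ r → ∀ (L : Type) [Field L] [CharP L 2] [IsSepClosed L],
    (0 : L) ∈ Cst q L ∧ (1 : L) ∈ Cst q L ∧
    (∀ x ∈ Cst q L, ∀ y ∈ Cst q L, x + y ∈ Cst q L ∧ x * y ∈ Cst q L) ∧
    (∀ x ∈ Cst q L, x⁻¹ ∈ Cst q L) ∧
    (∀ x θ : L, x ∈ Cst q L → θ ^ 2 + θ = x → θ ∈ Cst q L) ∧
    ∀ n, 1 ≤ n → {x : L | x ^ q ^ n = x}.ncard = q ^ n

/-- **Nr** (300 lines, uses `S_Lc1`, `S_Lc2`, `S_Cst`). The maximal unramified extension.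

Proof. Let `Q = q ^ d`, `κ = {x ∈ K_v | x ^ Q = x}`. (0) `κ = K_v ∩ Cst`: if `x ∈ K_v` and
`x ^ (q ^ n) = x` then `‖x‖ ≤ 1`, `‖x ^ Q - x‖ < 1` (`S_Lc1` (6)) and `x ^ Q - x` is a constant, so it is `0`
(`S_Lc2` (7)). This is (7). For `n` divisible by `d` let `F_n = {x | x ^ (q ^ n) = x} ⊂ Kvs`, a finite
field containing (the image of) `κ`, and `c_1, ..., c_m` a basis of `F_n` over `κ`. The set
`T = {∑ x_i c_i | x_i ∈ K_v}` is a subring (products of the `c_i` are combinations with coefficients in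
`κ`), it contains `K_v` (`1` is a combination) and `F_n`; it is an integral domain, finite over `K_v`, so a
field, and equal to `K_v(F_n)`. `Knr` is the union of the `K_v(F_n)` (`d ∣ n`; they are directed:
`F_n, F_m ⊂ F_{nm}`).
Claim: `nm (∑ x_i c_i) = max ‖x_i‖`. We may assume that the maximum is `1` (multiply by an element of
`K_v`; if all `x_i` are `0` it is clear). By `S_Lc1` (9) let `r_i ∈ κ` with `‖x_i - r_i‖ < 1`. Not all `r_i`
are `0`, so `∑ r_i c_i` is a nonzero element of `F_n` with norm `1`, and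
`nm (∑ (x_i - r_i) c_i) < 1`; so the norm is `1`.
(1) follows from the claim and `S_Lc1` (4). (2): if the norm is at most `1`, all `‖x_i‖ ≤ 1`, and
`c = ∑ r_i c_i` with `r_i` as before. (3): `x = c + y`, `nm y < 1`, `y ∈ Knr`. A root of `θ ^ 2 + θ = c` is in
`Cst` (`S_Cst`). Let `θ'` be the root of `θ' ^ 2 + θ' = y` with `nm θ' < 1` (`S_Lc2` (8)); every `g` which
fixes `Knr` maps it to a root of norm less than `1`, i.e. to `θ'` (the other root is `θ' + 1`). So
`θ' ∈ Knr` (`InfiniteGalois.fixedField_fixingSubgroup`). (4) clear. (5) If `x ^ (2 ^ k) ∈ Knr` then every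
`g` fixing `Knr` satisfies `(g x) ^ (2 ^ k) = x ^ (2 ^ k)`, so `g x = x` (characteristic two). (6) `g`
fixes `Knr` iff it fixes `Cst` (adjoin). -/
def S_Nr : Prop :=
  ∀ (F : Type) [Field F] [Finite F] [CharP F 2] (v : AbsoluteValue (RatFunc F) ℝ) (d : ℕ)
    (ϖ : RatFunc F) (R : Finset (RatFunc F)), LF v d ϖ R →
    (∀ x ∈ Knr v, x ≠ 0 → ∃ n : ℤ, nm v x = v ϖ ^ n) ∧
    (∀ x ∈ Knr v, nm v x ≤ 1 → ∃ c ∈ Cst (Nat.card F) (Kvs v), nm v (x - c) < 1) ∧
    (∀ x ∈ Knr v, nm v x ≤ 1 → ∃ θ ∈ Knr v, θ ^ 2 + θ = x) ∧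
    (∀ x ∈ Cst (Nat.card F) (Kvs v), x ∈ Knr v) ∧
    (∀ (x : Kvs v) (k : ℕ), x ^ 2 ^ k ∈ Knr v → x ∈ Knr v) ∧
    (∀ g : Gal(Kvs v/v.Completion), IsGeo (Nat.card F) g ↔ ∀ x ∈ Knr v, g x = x) ∧
    ∀ x : v.Completion, algebraMap v.Completion (Kvs v) x ∈ Cst (Nat.card F) (Kvs v) →
      x ^ (Nat.card F ^ d) = x

/-- **Fr** (200 lines, uses `S_Lc1`, `S_Lc2`, `S_Cst`, `S_Nr`, `S_Has`). Local Frobenius elements.

Proof. `Q = q ^ d`. (1) For `n ≥ 1` let `F_n = {x | x ^ (q ^ n) = x}`, a finite field stable under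
`G_v = Gal(Kvs/K_v)`, and `c` a generator of its multiplicative group. Let `R_n = {g c | g ∈ G_v} ⊂ F_n`.
The coefficients of `∏_{x ∈ R_n} (X - x)` are fixed by `G_v`, so in `K_v`, and constants, so fixed by
`y ↦ y ^ Q` (`S_Nr` (7)). So `x ↦ x ^ Q` maps the roots to the roots, and `c ^ Q = g c` for some `g`; then
`g x = x ^ Q` for all `x ∈ F_n` (powers of `c`, and `0`). The sets
`C_n = {g | ∀ x ∈ F_n, g x = x ^ Q}` are closed in the compact group `G_v`, nonempty, and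
`C_{nm} ⊂ C_n ∩ C_m`; so their intersection is not empty.
(2) Let `‖f‖ ≤ 1`, `f = c + y` with `c ^ Q = c`, `‖y‖ < 1` (`S_Lc1` (9)), `y = ℘(z)`, `z ∈ K_v` (`S_Lc1` (8)).
So `eps f = eps c` and `hAS f g = hAS c g` (`S_Has` (3), (4)). Let `θ ∈ Kvs`, `θ ^ 2 + θ = c`, a constant
(`S_Cst`). If `g` is trivial on the constants then `hAS c g = 0`: this is (3). Let `g` be a Frobenius:
`g θ = θ ^ Q`. If `hAS c g = 0` then `θ ^ Q = θ`. The polynomial `X ^ Q - X` has `Q` roots in `K_v` (the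
elements `c_r` of `S_Lc1` (9) for `r ∈ R`, which are different by `LF.sep`; `R.card = Q`), so all its
roots in `Kvs` are in `K_v`; so `θ ∈ K_v` and `eps c = 0`. Conversely if `c = x ^ 2 + x`, `x ∈ K_v`, then
`θ = x` or `x + 1`, so `g θ = θ`. -/
def S_Fr : Prop :=
  ∀ (F : Type) [Field F] [Finite F] [CharP F 2] (v : AbsoluteValue (RatFunc F) ℝ) (d : ℕ)
    (ϖ : RatFunc F) (R : Finset (RatFunc F)), LF v d ϖ R →
    (∃ g : Gal(Kvs v/v.Completion), IsFro (Nat.card F) (Nat.card F ^ d) g) ∧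
    (∀ g : Gal(Kvs v/v.Completion), IsFro (Nat.card F) (Nat.card F ^ d) g →
      ∀ f : v.Completion, ‖f‖ ≤ 1 → hAS v.Completion (Kvs v) f g = eps f) ∧
    ∀ g : Gal(Kvs v/v.Completion), IsGeo (Nat.card F) g →
      ∀ f : v.Completion, ‖f‖ ≤ 1 → hAS v.Completion (Kvs v) f g = 0

/-- **FrG** (150 lines, uses `S_Cst`). The global constants and Frobenius elements.

Proof. (1) Let `x ∈ K`, `x ^ (q ^ n) = x`, `x = a / b` in lowest terms; `a ^ (q ^ n) * b = a * b ^ (q ^ n)`,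
so for `x ≠ 0` `a ^ (q ^ n - 1) = b ^ (q ^ n - 1)`, and `a, b` are units (coprime); so `x = C c`.
(2) as in `S_Fr` (1) with `K`, `Q = q`: the coefficients are in `K` and constants, so in `F` and
fixed by `y ↦ y ^ q`. (3) `g` fixes the field generated by `Cst` iff it fixes `Cst`. (4) `ι c` is a
constant if `c` is. Conversely for `n ≥ 1` the `q ^ n` roots of `X ^ (q ^ n) - X` in `K^s` are mapped
injectively to roots in `L`, so they are all of them. (5) follows from (4) and injectivity of `ι`: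
`ι (σ c) = g (ι c)`. -/
def S_FrG : Prop :=
  ∀ (F : Type) [Field F] [Finite F] [CharP F 2],
    (∀ x : RatFunc F, algebraMap (RatFunc F) (Kgs F) x ∈ Cst (Nat.card F) (Kgs F) →
      ∃ c : F, x = RatFunc.C c) ∧
    (∃ g : Gal(Kgs F/RatFunc F), IsFro (Nat.card F) (Nat.card F) g) ∧
    (∀ g : Gal(Kgs F/RatFunc F), IsGeo (Nat.card F) g ↔ ∀ x ∈ Kgeo F, g x = x) ∧
    (∀ (L : Type) [Field L] [Algebra (RatFunc F) L] (ι : Kgs F →ₐ[RatFunc F] L),
      (∀ c ∈ Cst (Nat.card F) (Kgs F), ι c ∈ Cst (Nat.card F) L) ∧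
      ∀ c ∈ Cst (Nat.card F) L, ∃ c' ∈ Cst (Nat.card F) (Kgs F), ι c' = c) ∧
    ∀ (L : Type) [Field L] [Algebra (RatFunc F) L] (ι : Kgs F →ₐ[RatFunc F] L) (g : L → L)
      (σ : Gal(Kgs F/RatFunc F)), Rst ι g σ →
      (IsGeo (Nat.card F) g ↔ IsGeo (Nat.card F) σ) ∧
      ∀ Q : ℕ, IsFro (Nat.card F) Q g ↔ IsFro (Nat.card F) Q σ

/-- **Eps** (120 lines, uses `S_Lc1`, `S_Has`, `S_Fr`). The class of integral elements modulo `℘`.

Proof. (1) Let `g` be a Frobenius element of `S_Fr`; `eps f = hAS f g`, additive in `f` (`S_Has` (3); all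
roots exist in `Kvs`). (2) if `‖f - f'‖ < 1` then `f - f' = ℘(z)` with `z ∈ K_v`. (3) Let
`κ = {x ∈ K_v | x ^ Q = x}`, a finite set; `x ↦ x ^ 2 + x` maps it to itself and is not injective
(`0, 1`), so there is `c ∈ κ` which is not `x ^ 2 + x` with `x ∈ κ`. If `c = y ^ 2 + y` with `y ∈ K_v`, then
`‖y‖ ≤ 1` (as `‖c‖ ≤ 1`, see `S_Lc1` (10)), `z = y ^ Q - y` satisfies `z ^ 2 + z = c ^ Q - c = 0` and
`‖z‖ < 1`, so `z = 0` and `y ∈ κ`: contradiction. So `eps c = 1`; take `f ∈ K` with `‖f - c‖ < 1` and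
use (2). (4) `c ∈ F` at infinity, `Q = q`: if `c = x ^ 2 + x` with `x ∈ F` both are `0`. If
`c = y ^ 2 + y` with `y ∈ K_v` then as in (3) `y ^ q = y`; the `q` elements of `F` are roots of `X ^ q - X`,
so `y ∈ F`. -/
def S_Eps : Prop :=
  ∀ (F : Type) [Field F] [Finite F] [CharP F 2] (v : AbsoluteValue (RatFunc F) ℝ) (d : ℕ)
    (ϖ : RatFunc F) (R : Finset (RatFunc F)), LF v d ϖ R →
    (∀ f f' : v.Completion, ‖f‖ ≤ 1 → ‖f'‖ ≤ 1 → eps (f + f') = eps f + eps f') ∧
    (∀ f f' : v.Completion, ‖f‖ ≤ 1 → ‖f - f'‖ < 1 → eps f = eps f') ∧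
    (∃ f : RatFunc F, v f ≤ 1 ∧ eps (algebraMap (RatFunc F) v.Completion f) = 1) ∧
    (d = 1 → ∀ c : F, eps (algebraMap (RatFunc F) v.Completion (RatFunc.C c)) = eps c)

/-- **Fin2** (40 lines). Finite fields of characteristic two: `eps` is additive.

Proof. `x ↦ x ^ 2 + x` is additive with kernel `{0, 1}`, so its image `H` has index `2` in the additive
group of `F` (finite), and `eps` is the homomorphism `F → F / H = ZMod 2`. -/
def S_Fin2 : Prop :=
  ∀ (F : Type) [Field F] [Finite F] [CharP F 2],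
    (∀ a b : F, eps (a + b) = eps a + eps b) ∧ (∃ κ : F, eps κ = 1) ∧
    ∀ a κ : F, eps κ = 1 → ∃ z : F, a = z ^ 2 + z ∨ a = z ^ 2 + z + κ

/-- **Zor** (150 lines). The subgroup `W` and the element `φ` (abstract).

Proof. `φ`: for every finite set of `y ∈ Y` the homomorphisms `h y`, and `κ`: consider the finite
dimensional space `V` of functions generated by the `h y` (`y` in a finite set) and `κ`; by `hinj` `κ` is
not a sum of `h y`'s, i.e. there is `g ∈ Γ` with `h y g = 0` for the finitely many `y` and `κ g = 1`: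
the image `I` of `Γ` in `(ZMod 2)^n × ZMod 2` under `(h y_1, ..., h y_n, κ)` is a subspace; if it did not contain
`(0, 1)` there would be a linear form vanishing on `I` but not on `(0, 1)`, i.e. `κ = ∑ c_i h y_i = h (∑ ..)`,
contradicting `hinj` (with `c = 1`). The closed sets `{g | κ g = 1 ∧ h y g = 0}` have the finite
intersection property; `Γ` is compact.
`W`: consider the set `𝒲` of the closed subgroups `W ≤ ker κ` such that
`(∀ g ∈ W, h y g = 0) → ∀ g, h y g = 0` for all `y`. `ker κ ∈ 𝒲`: if `h y = 0` on `ker κ`, then `h y = 0` or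
`h y = κ` (`ker κ` has index at most two), and `h y + κ = 0` is impossible by `hinj`. A chain in `𝒲` has a
lower bound, its intersection: if `h y = 0` on the intersection, then by compactness (`{g | h y g ≠ 0}`
is closed; the chain is directed) `h y = 0` on a member. By Zorn let `W` be minimal. Let `k` be a
`Hom2` on `W` and suppose that `k` is not a restriction `h y`. `W' = ker k` is a closed subgroup,
`W' ≠ W` (`k ≠ 0 = h 0`). If `h y = 0` on `W'`, then `h y` restricted to `W` is `0` or `k`, so `0`, so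
`h y = 0`. So `W' ∈ 𝒲`, contradicting minimality. -/
def S_Zor : Prop :=
  ∀ (Γ : Type) [Group Γ] [TopologicalSpace Γ] [IsTopologicalGroup Γ] [CompactSpace Γ] (Y : Type)
    [AddCommGroup Y] (h : Y → Γ → ZMod 2) (κ : Γ → ZMod 2), (∀ y, Hom2 (h y)) →
    (∀ y y' g, h (y + y') g = h y g + h y' g) → Hom2 κ →
    (∀ y (c : ZMod 2), (∀ g, h y g + c * κ g = 0) → c = 0) →
    ∃ (W : Subgroup Γ) (φ : Γ), (∀ g ∈ W, κ g = 0) ∧ κ φ = 1 ∧ (∀ y, h y φ = 0) ∧
      (∀ k : W → ZMod 2, Hom2 k → ∃ y, ∀ g : W, k g = h y g) ∧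
      ∀ y, (∀ g ∈ W, h y g = 0) → ∀ g, h y g = 0

/-- **PfP** (150 lines). Principal parts at `P`: every `g / P ^ k` with `deg g < k deg P` is a principal
part with odd orders plus `℘` of an element of the same form.

Proof. `g / P ^ k = ∑_{i = 1}^k a_i / P ^ i` with `deg a_i < deg P` (expansion of `g` in base `P`,
induction on `k`: `g = P g' + a`, `g / P ^ k = g' / P ^ (k - 1) + a / P ^ k`). By induction it suffices to treat
one term `a / P ^ (2 i)`, `i ≥ 1`, in terms of terms of lower order: the residue field `F[X] ⧸ (P)` is a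
finite field of characteristic two, so there is `s` with `deg s < deg P` and `P ∣ s ^ 2 - a`, say
`s ^ 2 = a + P a'`, `deg a' < deg P`; then
`a / P ^ (2 i) = (s / P ^ i) ^ 2 + a' / P ^ (2 i - 1) = ℘(s / P ^ i) + s / P ^ i + a' / P ^ (2 i - 1)`
(characteristic two). Strong induction on the largest even order which occurs (the sets of the
`D`'s are closed under sums, and `℘` is additive). The `D` obtained lies in `DP P k`. -/
def S_PfP : Prop :=
  ∀ (F : Type) [Field F] [Finite F] [CharP F 2] (P : F[X]), P.Monic → Irreducible P →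
    ∀ (k : ℕ) (g : F[X]), g.degree < ((k * P.natDegree : ℕ) : WithBot ℕ) →
      ∃ D ∈ DP P k, ∃ s : F[X], s.degree < ((k * P.natDegree : ℕ) : WithBot ℕ) ∧
        algebraMap F[X] (RatFunc F) g / algebraMap F[X] (RatFunc F) P ^ k = D +
          ((algebraMap F[X] (RatFunc F) s / algebraMap F[X] (RatFunc F) P ^ k) ^ 2 +
            algebraMap F[X] (RatFunc F) s / algebraMap F[X] (RatFunc F) P ^ k)

/-- **PfI** (100 lines). Polynomials: every polynomial of degree at most `k` is an odd polynomial plus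
a constant plus `℘` of a polynomial; `DI` adds a constant according to the coefficient of `t`.

Proof. `c t ^ (2 i) = (s t ^ i) ^ 2 = ℘(s t ^ i) + s t ^ i` with `s ^ 2 = c` (`F` is finite of characteristic
two), `i ≥ 1`; strong induction on the largest even exponent. We get
`p = ∑ c_i t ^ (2 i + 1) + c + ℘(y)`. Put `D = ∑ c_i t ^ (2 i + 1) + (κ if eps (c_0) ≠ 0)`, an element of
`DI κ k` (for `k = 0` the sum is empty and `D = 0`). -/
def S_PfI : Prop :=
  ∀ (F : Type) [Field F] [Finite F] [CharP F 2] (κ : F) (k : ℕ) (p : F[X]), p.natDegree ≤ k →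
    ∃ D ∈ DI κ k, ∃ (c : F) (s : F[X]), s.natDegree ≤ k ∧
      algebraMap F[X] (RatFunc F) p = D + RatFunc.C c +
        ((algebraMap F[X] (RatFunc F) s) ^ 2 + algebraMap F[X] (RatFunc F) s)

/-- **Dgr** (150 lines, uses `S_Fin2`). The sets `DP P e`, `DI κ e` are finite groups, increasing in
`e`, and `DI κ e` is unbounded.

Proof. Sums: add the coefficients (for `DI`: `eps` is additive and `κ + κ = 0`); `0`; `- f = f`. Finite:
finitely many choices of the `a i`, `c i`, `i < (e + 1) / 2`. Monotone: extend the coefficients by `0`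
(for `DI` with `e = 0` the only element is `0`; for `1 ≤ e ≤ e'` the coefficient `c 0` is the same; an
element for `e` with coefficients `c` is the element for `e'` with the coefficients `c i` for
`i < (e + 1) / 2` and `0` otherwise). Unbounded: the elements `t ^ (2 i + 1) + ..`, `i < (e + 1) / 2`
(coefficients `0, 1`) are different: `f ↦` the odd part of the polynomial `f`. -/
def S_Dgr : Prop :=
  ∀ (F : Type) [Field F] [Finite F] [CharP F 2] (κ : F) (P : F[X]), P.Monic → Irreducible P →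
    (∀ e, (0 ∈ DP P e ∧ (∀ f ∈ DP P e, ∀ g ∈ DP P e, f + g ∈ DP P e) ∧ (DP P e).Finite) ∧
      (0 ∈ DI κ e ∧ (∀ f ∈ DI κ e, ∀ g ∈ DI κ e, f + g ∈ DI κ e) ∧ (DI κ e).Finite)) ∧
    (∀ e e', e ≤ e' → DP P e ⊆ DP P e' ∧ DI κ e ⊆ DI κ e') ∧
    ∀ B : ℕ, ∃ e, B ≤ (DI κ e).ncard

/-- **Drg** (120 lines). Sizes of the elements of `DP P e`, `DI κ e` at all places.

Proof. `v_P (a / P ^ (2 i + 1)) = 2 ^ (2 i + 1)` if `a ≠ 0`, `deg a < deg P`; so the norm of an element of
`DP P e` is `2 ^ (2 i + 1)` for the largest `i` with `a i ≠ 0`. At another finite place `P` is a unit and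
the `a i` are integral. At infinity `deg a < deg P ≤ (2 i + 1) deg P`. For `DI`: polynomials, integral
at the finite places; at infinity the norm is `2 ^ (2 i + 1)` for the largest `i` with `c i ≠ 0`,
unless all `c i` are `0`, and then the element is `0` (`eps 0 = 0`). -/
def S_Drg : Prop :=
  ∀ (F : Type) [Field F] [Finite F] [CharP F 2] (κ : F) (P : F[X]), P.Monic → Irreducible P →
    ∀ (w : Option F[X]) (v : AbsoluteValue (RatFunc F) ℝ), IsPl w v → ∀ e,
      (∀ D ∈ DP P e, (w = some P → D ≠ 0 → ∃ i : ℕ, 2 * i + 1 ≤ e ∧ v D = 2 ^ (2 * i + 1)) ∧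
        (w ≠ some P → v D ≤ 1) ∧ (w = none → v D < 1)) ∧
      ∀ D ∈ DI κ e, (w = none → D ≠ 0 → ∃ i : ℕ, 2 * i + 1 ≤ e ∧ v D = 2 ^ (2 * i + 1)) ∧
        (w ≠ none → v D ≤ 1)

/-- **Tls** (200 lines, uses `S_LfP`, `S_LfI`, `S_Lc1`, `S_PfP`, `S_PfI`, `S_Drg`). The principal parts
represent the completion modulo integral elements and `℘`.

Proof. Existence at `P`: let `x ∈ K_v`, `f ∈ K` with `‖x - f‖ < 1`, so `x - f` is integral. Write
`f = a / (P ^ k b)` with `P ∤ b`; let `b b' ≡ 1` modulo `P ^ k` and `g` the remainder of `a b'` modulo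
`P ^ k`; `f - g / P ^ k = (a - g b) / (P ^ k b)` and `P ^ k ∣ a - g b`, so it is integral at `P`. Apply
`S_PfP` to `g / P ^ k`. Existence at infinity: `f = p + a / b` with `deg a < deg b`; apply `S_PfI` to `p`
(the constant is integral). Uniqueness: let `D = c + ℘(y)` with `‖c‖ ≤ 1` and `D ≠ 0`. By `S_Drg`
`‖D‖ = 2 ^ (2 i + 1) > 1`, so `‖℘(y)‖ = ‖D‖` and by `S_Lc1` (10) `‖D‖ = ‖y‖ ^ 2`, and `‖y‖` is a power of `2`
(`S_Lc1` (4), `v ϖ = 1 / 2`): contradiction (`2 i + 1 = 2 n`). -/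
def S_Tls : Prop :=
  ∀ (F : Type) [Field F] [Finite F] [CharP F 2] (κ : F) (w : Option F[X])
    (v : AbsoluteValue (RatFunc F) ℝ), IsPl w v →
    (∀ x : v.Completion, ∃ (e : ℕ) (D : RatFunc F),
      (match w with | none => D ∈ DI κ e | some P => D ∈ DP P e) ∧
      ∃ c y : v.Completion, ‖c‖ ≤ 1 ∧ x = algebraMap _ _ D + c + (y ^ 2 + y)) ∧
    ∀ (e : ℕ) (D : RatFunc F), (match w with | none => D ∈ DI κ e | some P => D ∈ DP P e) →
      ∀ c y : v.Completion, ‖c‖ ≤ 1 → algebraMap _ _ D = c + (y ^ 2 + y) → D = 0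

/-- **Res** (150 lines, uses `S_Has`). Restriction homomorphisms.

Proof. For `g ∈ Gal(L/M)` the homomorphism `x ↦ g (ι x)` is a `K`-embedding `Ω → L`; `Ω / K` is normal, so
it has the same image as `ι` (every `x ∈ Ω` is a root of its minimal polynomial, which splits in `Ω`;
the roots in `L` are the images of the roots), so there is a unique `σ : Ω → Ω` with
`g (ι x) = ι (σ x)`, an automorphism. Uniqueness gives a homomorphism `r`. Continuity at `1`: a basic
neighbourhood of `1` in `Gal(Ω/K)` is the fixing subgroup of a finite extension `E = K(x_1, ..., x_n)`; its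
preimage contains the fixing subgroup of `M(ι x_1, ..., ι x_n)`, which is open. So `rsH ι` has these
properties. (3) Let `θ ∈ Ω`, `θ ^ 2 + θ = f`; `ι θ` is a root of the same equation in `L` and
`g (ι θ) = ι (rsH ι g θ) = ι θ + o2 (hAS K Ω f (rsH ι g))` by `S_Has` (2) for `Ω / K`; use `S_Has` (2) for
`L / M`. -/
def S_Res : Prop :=
  ∀ (K Ω M L : Type) [Field K] [Field Ω] [Field M] [Field L] [Algebra K Ω] [Algebra K M]
    [Algebra K L] [Algebra M L] [IsScalarTower K M L] [CharP K 2] [IsGalois K Ω] [IsGalois M L]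
    (ι : Ω →ₐ[K] L),
    Continuous (rsH (M := M) ι) ∧ (∀ g : Gal(L/M), Rst ι g (rsH (M := M) ι g)) ∧
    (∀ (g : Gal(L/M)) (σ : Gal(Ω/K)), Rst ι g σ → σ = rsH (M := M) ι g) ∧
    ∀ (f : K) (g : Gal(L/M)), (∃ θ : Ω, θ ^ 2 + θ = algebraMap K Ω f) →
      hAS K Ω f (rsH (M := M) ι g) = hAS M L (algebraMap K M f) g

/-- **Lw** (250 lines, uses `S_LfP`, `S_LfI`, `S_Lc1`, `S_Has`, `S_Sep`, `S_Eps`, `S_Zor`, `S_Dgr`,
`S_Tls`, `S_Fr`). The local subgroup `W` and the element `φ`.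

Proof. Let `Γ = Gal(Kvs/K_v)` (compact), `f₁ ∈ K_v`, `‖f₁‖ ≤ 1` with `eps f₁ = 1` (`S_Eps`), `κ_v = hAS f₁`. For
`‖f‖ ≤ 1` we have `hAS f = eps f * κ_v`: if `eps f = 0` then `f ∈ ℘(K_v)` and `hAS f = 0`; if `eps f = 1` then
`eps (f + f₁) = 0` and `hAS f = hAS f₁`. Let `Y` be the additive group of all principal parts (the union
over `e` of `DP P e`, resp. `DI κ e`, a subgroup of `K` by `S_Dgr`), `h D = hAS D`. `hinj` of `S_Zor`: if
`hAS D + c κ_v = 0` then `D + c f₁ ∈ ℘(K_v)` (`S_Has` (4)), so `D = 0` by `S_Tls` (2), then `c f₁ ∈ ℘(K_v)` and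
`c = 0`. So `S_Zor` gives `W`, `φ`; (1), (2) follow from `hAS f = eps f * κ_v`. (3) is clear, (4): `S_Zor`.
(5): `hAS D = 0` on `W` implies `hAS D = 0`, so `D ∈ ℘(K_v)` and `D = 0` by `S_Tls` (2). (6) `UEx`: let `k` be a
`Hom2` on `W` and `c ∈ ZMod 2`. Let `k = hAS D` on `W`; `H = hAS D + c κ_v` has `H φ = c`. Uniqueness: by
`S_Sep` a `Hom2` `H` on `Γ` is `hAS x`, `x ∈ K_v`, `x = D + c' + ℘(y)` (`S_Tls` (1)), so
`H = hAS D + eps c' * κ_v`; if `H = 0` on `W` then `D = 0` by (5), and `H φ = eps c'`, so `H = 0` if moreover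
`H φ = 0`. -/
def S_Lw : Prop :=
  ∀ (F : Type) [Field F] [Finite F] [CharP F 2] (κ : F) (w : Option F[X])
    (v : AbsoluteValue (RatFunc F) ℝ), IsPl w v →
    ∃ (W : Subgroup Gal(Kvs v/v.Completion)) (φ : Gal(Kvs v/v.Completion)),
      (∀ f : v.Completion, ‖f‖ ≤ 1 → ∀ g ∈ W, hAS _ (Kvs v) f g = 0) ∧
      (∀ f : v.Completion, ‖f‖ ≤ 1 → hAS _ (Kvs v) f φ = eps f) ∧
      (∀ (e : ℕ) (D : RatFunc F), (match w with | none => D ∈ DI κ e | some P => D ∈ DP P e) →
        hAS _ (Kvs v) (algebraMap (RatFunc F) v.Completion D) φ = 0) ∧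
      (∀ k : W → ZMod 2, Hom2 k → ∃ (e : ℕ) (D : RatFunc F),
        (match w with | none => D ∈ DI κ e | some P => D ∈ DP P e) ∧
        ∀ g : W, k g = hAS _ (Kvs v) (algebraMap (RatFunc F) v.Completion D) g) ∧
      (∀ (e : ℕ) (D : RatFunc F), (match w with | none => D ∈ DI κ e | some P => D ∈ DP P e) →
        (∀ g ∈ W, hAS _ (Kvs v) (algebraMap (RatFunc F) v.Completion D) g = 0) → D = 0) ∧
      UEx (fun _ : Unit => W) φ

/-- **Dat** (60 lines, uses `S_Av`, `S_Lw`). The local data exist.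

Proof. For every `w : Option PP` choose the absolute value of `S_Av`, an embedding `Kgs F → Kvs v`
(`IsSepClosed.lift`; `Kgs F / K` is separable algebraic, `Kvs v` is separably closed) and `W`, `φ` of
`S_Lw`. -/
def S_Dat : Prop :=
  ∀ (F : Type) [Field F] [Finite F] [CharP F 2] (κ : F) (PP : Finset F[X]),
    (∀ P ∈ PP, P.Monic ∧ Irreducible P) → ∃ A : Dat F PP, A.Ok κ

end Pool.Agent.MP72W
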