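import Pool.Agent.Lib.MP_72e2e6_nt.W2.B.Defs

/-!
# MP_72e2e6_nt, theorem T3, part C (the places of `F(t)`): definitions

`F` is a finite field of characteristic two, `q = Nat.card F`, `K = RatFunc F`. Places are given by
absolute values `v : AbsoluteValue (RatFunc F) ℝ`; `v.Completion` is the completion `K_v`,
`SeparableClosure v.Completion` its separable closure, with the spectral norm.
-/

namespace Pool.Agent.MP72W

open Polynomial IntermediateField

/-- `v` is the absolute value of the place `w`: `none` is the place at infinity (`|f| = 2 ^ deg f`),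
`some P` the place of the monic irreducible polynomial `P` (`|P| = 1 / 2`). -/
def IsPl {F : Type} [Field F] (w : Option F[X]) (v : AbsoluteValue (RatFunc F) ℝ) : Prop :=
  match w with
  | none => ∀ f : RatFunc F, f ≠ 0 → v f = 2 ^ f.intDegree
  | some P => P.Monic ∧ Irreducible P ∧ ∀ p : F[X], p ≠ 0 →
      v (algebraMap F[X] (RatFunc F) p) = (1 / 2) ^ multiplicity P p

/-- The degree of a place. -/
def dgP {F : Type} [Field F] (w : Option F[X]) : ℕ :=
  match w with
  | none => 1
  | some P => P.natDegree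

/-- The uniformizer of a place. -/
noncomputable def unP {F : Type} [Field F] (w : Option F[X]) : RatFunc F :=
  match w with
  | none => RatFunc.X⁻¹
  | some P => algebraMap F[X] (RatFunc F) P

/-- The properties of the absolute values used in the local theory: `d` is the degree, `ϖ` a
uniformizer, `R` a system of representatives of the residue field. -/
structure LF {F : Type} [Field F] (v : AbsoluteValue (RatFunc F) ℝ) (d : ℕ) (ϖ : RatFunc F)
    (R : Finset (RatFunc F)) : Prop where
  na : IsNonarchimedean v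
  one : ∀ c : F, c ≠ 0 → v (RatFunc.C c) = 1
  pi0 : 0 < v ϖ
  pi1 : v ϖ < 1
  disc : ∀ x, x ≠ 0 → ∃ n : ℤ, v x = v ϖ ^ n
  dpos : 0 < d
  frob : ∀ x, v x ≤ 1 → v (x ^ (Nat.card F ^ d) - x) < 1
  card : R.card = Nat.card F ^ d
  int : ∀ r ∈ R, v r ≤ 1
  sep : ∀ r ∈ R, ∀ r' ∈ R, r ≠ r' → v (r - r') = 1
  cov : ∀ x, v x ≤ 1 → ∃ r ∈ R, v (x - r) < 1

/-- The separable closure of the completion. -/
abbrev Kvs {F : Type} [Field F] (v : AbsoluteValue (RatFunc F) ℝ) : Type :=
  SeparableClosure v.Completion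

/-- The separable closure of `F(t)`. -/
abbrev Kgs (F : Type) [Field F] : Type := SeparableClosure (RatFunc F)

/-- The norm on the separable closure of the completion. -/
noncomputable def nm {F : Type} [Field F] (v : AbsoluteValue (RatFunc F) ℝ) (x : Kvs v) : ℝ :=
  spectralNorm v.Completion (Kvs v) x

/-- The constants: elements `x` with `x ^ (q ^ n) = x` for some `n ≥ 1`. -/
def Cst (q : ℕ) (L : Type) [Field L] : Set L := {x | ∃ n : ℕ, 1 ≤ n ∧ x ^ q ^ n = x}

/-- The maximal unramified extension of the completion. -/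
noncomputable def Knr {F : Type} [Field F] (v : AbsoluteValue (RatFunc F) ℝ) :
    IntermediateField v.Completion (Kvs v) :=
  adjoin v.Completion (Cst (Nat.card F) (Kvs v))

/-- The maximal constant extension `F̄(t)` of `F(t)`. -/
noncomputable def Kgeo (F : Type) [Field F] : IntermediateField (RatFunc F) (Kgs F) :=
  adjoin (RatFunc F) (Cst (Nat.card F) (Kgs F))

/-- `g` acts on the constants as `x ↦ x ^ Q`. -/
def IsFro (q Q : ℕ) {L : Type} [Field L] (g : L → L) : Prop := ∀ x ∈ Cst q L, g x = x ^ Q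

/-- `g` acts trivially on the constants. -/
def IsGeo (q : ℕ) {L : Type} [Field L] (g : L → L) : Prop := ∀ x ∈ Cst q L, g x = x

open Classical in
/-- `0` if `f = x ^ 2 + x` in `L`, `1` otherwise. -/
noncomputable def eps {L : Type} [Field L] (f : L) : ZMod 2 := if ∃ x : L, x ^ 2 + x = f then 0 else 1

/-- The restriction of `g` to `Ω` along the embedding `ι` is `σ`. -/
def Rst {K Ω L : Type} [Field K] [Field Ω] [Field L] [Algebra K Ω] [Algebra K L]
    (ι : Ω →ₐ[K] L) (g : L → L) (σ : Gal(Ω/K)) : Prop := ∀ x, g (ι x) = ι (σ x)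

/-- The functions regular outside `PP` and infinity. -/
noncomputable def AS {F : Type} [Field F] (PP : Finset F[X]) : Subring (RatFunc F) where
  carrier := {f | ∃ (n : ℕ) (p : F[X]),
    f * algebraMap F[X] (RatFunc F) ((∏ P ∈ PP, P) ^ n) = algebraMap F[X] (RatFunc F) p}
  mul_mem' := by
    rintro a b ⟨n, p, hp⟩ ⟨m, r, hr⟩
    refine ⟨n + m, p * r, ?_⟩
    rw [pow_add, map_mul, map_mul, ← hp, ← hr]
    ring
  one_mem' := ⟨0, 1, by simp⟩
  add_mem' := by
    rintro a b ⟨n, p, hp⟩ ⟨m, r, hr⟩
    refine ⟨n + m, p * (∏ P ∈ PP, P) ^ m + r * (∏ P ∈ PP, P) ^ n, ?_⟩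
    rw [pow_add, map_mul, map_add, map_mul, map_mul, ← hp, ← hr]
    ring
  zero_mem' := ⟨0, 0, by simp⟩
  neg_mem' := by
    rintro a ⟨n, p, hp⟩
    exact ⟨n, -p, by rw [map_neg, ← hp]; ring⟩

/-- The principal parts at `P` with odd orders at most `e`. -/
def DP {F : Type} [Field F] (P : F[X]) (e : ℕ) : Set (RatFunc F) :=
  {f | ∃ a : ℕ → F[X], (∀ i, (a i).degree < P.degree) ∧
    f = ∑ i ∈ Finset.range ((e + 1) / 2),
      algebraMap F[X] (RatFunc F) (a i) / algebraMap F[X] (RatFunc F) P ^ (2 * i + 1)}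

open Classical in
/-- The polynomials with odd exponents at most `e`, and the constant term `0` or `κ` according to the
class of the coefficient of `t`. -/
def DI {F : Type} [Field F] (κ : F) (e : ℕ) : Set (RatFunc F) :=
  {f | ∃ c : ℕ → F, f = (∑ i ∈ Finset.range ((e + 1) / 2),
      RatFunc.C (c i) * RatFunc.X ^ (2 * i + 1)) +
      if 1 ≤ e ∧ eps (c 0) ≠ 0 then RatFunc.C κ else 0}

open Classical in
/-- The restriction homomorphism along an embedding (if it exists). -/
noncomputable def rsH {K Ω M L : Type} [Field K] [Field Ω] [Field M] [Field L] [Algebra K Ω]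
    [Algebra K L] [Algebra M L] (ι : Ω →ₐ[K] L) : Gal(L/M) →* Gal(Ω/K) :=
  if h : ∃ r : Gal(L/M) →* Gal(Ω/K), Continuous r ∧ ∀ g : Gal(L/M), Rst ι g (r g) then h.choose else 1

/-- The local data at the places in `PP` and at infinity: absolute values, embeddings, subgroups
`W w` and elements `φ w` of the local Galois groups. -/
structure Dat (F : Type) [Field F] (PP : Finset F[X]) where
  av : Option PP → AbsoluteValue (RatFunc F) ℝ
  emb : ∀ w, Kgs F →ₐ[RatFunc F] Kvs (av w)
  W : ∀ w, Subgroup Gal(Kvs (av w)/(av w).Completion)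
  φ : ∀ w, Gal(Kvs (av w)/(av w).Completion)

/-- The principal parts at `w`. -/
def Dw {F : Type} [Field F] {PP : Finset F[X]} (κ : F) (w : Option PP) (e : ℕ) :
    Set (RatFunc F) :=
  match w with
  | none => DI κ e
  | some P => DP P.1 e

/-- The properties of the local data. -/
structure Dat.Ok {F : Type} [Field F] {PP : Finset F[X]} (κ : F) (A : Dat F PP) : Prop where
  pl : ∀ w : Option PP, IsPl (w.map Subtype.val) (A.av w)
  wz : ∀ w (f : (A.av w).Completion), ‖f‖ ≤ 1 → ∀ g ∈ A.W w, hAS _ (Kvs (A.av w)) f g = 0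
  ph : ∀ w (f : (A.av w).Completion), ‖f‖ ≤ 1 → hAS _ (Kvs (A.av w)) f (A.φ w) = eps f
  dz : ∀ w e, ∀ D ∈ Dw κ w e,
    hAS _ (Kvs (A.av w)) (algebraMap (RatFunc F) (A.av w).Completion D) (A.φ w) = 0
  ex : ∀ w (k : A.W w → ZMod 2), Hom2 k → ∃ e, ∃ D ∈ Dw κ w e, ∀ g : A.W w,
    k g = hAS _ (Kvs (A.av w)) (algebraMap (RatFunc F) (A.av w).Completion D) g
  un : ∀ w e, ∀ D ∈ Dw κ w e,
    (∀ g ∈ A.W w, hAS _ (Kvs (A.av w))
      (algebraMap (RatFunc F) (A.av w).Completion D) g = 0) → D = 0
  uex : ∀ w, UEx (fun _ : Unit => A.W w) (A.φ w)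

/-- The Galois group of the maximal tower of Artin-Schreier extensions unramified outside `PP` and
infinity. -/
abbrev GS {F : Type} [Field F] (PP : Finset F[X]) : Type :=
  Gal((Om (AS PP) (RatFunc F) (Kgs F))/(RatFunc F))

/-- The restriction homomorphism from the local Galois group to `GS`. -/
noncomputable def rOm {F : Type} [Field F] {PP : Finset F[X]} {v : AbsoluteValue (RatFunc F) ℝ}
    (ι : Kgs F →ₐ[RatFunc F] Kvs v) : Gal(Kvs v/v.Completion) →* GS PP :=
  rsH (M := v.Completion) (ι.comp (Om (AS PP) (RatFunc F) (Kgs F)).val)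

/-- The family of part A. -/
noncomputable def famC {F : Type} [Field F] {PP : Finset F[X]} (κ : F) (A : Dat F PP) :
    Fam (GS PP) PP (AS PP) where
  W w := (A.W w).map (rOm (PP := PP) (A.emb w))
  φ w := rOm (PP := PP) (A.emb w) (A.φ w)
  h x := hAS (RatFunc F) (Om (AS PP) (RatFunc F) (Kgs F)) (x : RatFunc F)
  𝔇 w e := AddSubgroup.closure {x | (x : RatFunc F) ∈ Dw κ w e}

end Pool.Agent.MP72W
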