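import Pool.Agent.Lib.MP_72e2e6_nt.W2.C.Spec

namespace Pool.Agent.MP72W

open Polynomial IntermediateField

private theorem FrG_q (F : Type) [Field F] [Finite F] [CharP F 2] :
    ∃ r : ℕ, 1 ≤ r ∧ Nat.card F = 2 ^ r := by
  have : Fintype F := Fintype.ofFinite F
  obtain ⟨n, -, hn⟩ := FiniteField.card F 2
  exact ⟨n, n.pos, by rw [Nat.card_eq_fintype_card, hn]⟩

/-- constants in `F(t)` -/
private theorem FrG_1 (F : Type) [Field F] [Finite F] [CharP F 2] (x : RatFunc F) (n : ℕ)
    (hn : 1 ≤ n) (hx : x ^ Nat.card F ^ n = x) : ∃ c : F, x = RatFunc.C c := by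
  have hq : 1 < Nat.card F := Finite.one_lt_card
  have hN : 1 < Nat.card F ^ n := Nat.one_lt_pow (by omega) hq
  have hint : IsIntegral F[X] x := by
    refine ⟨X ^ Nat.card F ^ n - X, ?_, ?_⟩
    · apply monic_X_pow_sub
      rw [degree_X]
      exact_mod_cast hN
    · simp [hx]
  obtain ⟨p, rfl⟩ := IsIntegrallyClosed.isIntegral_iff.1 hint
  have hp : p ^ Nat.card F ^ n = p := by
    apply RatFunc.algebraMap_injective F
    rw [map_pow, hx]
  have hd : p.natDegree = 0 := by
    have h1 := congrArg natDegree hp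
    rw [natDegree_pow] at h1
    by_contra h0
    have h2 : 1 * p.natDegree < Nat.card F ^ n * p.natDegree :=
      Nat.mul_lt_mul_of_pos_right hN (Nat.pos_of_ne_zero h0)
    omega
  refine ⟨p.coeff 0, ?_⟩
  rw [← RatFunc.algebraMap_C]
  rw [← eq_C_of_natDegree_eq_zero hd]

section

variable {K L : Type} [Field K] [Field L] [Algebra K L] [CharP L 2] [IsGalois K L]

/-- the subfield of the elements with `x ^ (2 ^ m) = x` -/
private noncomputable def FrG_S (L : Type) [Field L] [CharP L 2] (m : ℕ) : Subfield L :=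
  (iterateFrobenius L 2 m).eqLocusField (RingHom.id L)

private theorem FrG_mem {m : ℕ} {x : L} : x ∈ FrG_S L m ↔ x ^ 2 ^ m = x := by
  unfold FrG_S
  rw [RingHom.mem_eqLocusField]
  rfl

private theorem FrG_fin {m : ℕ} (hm : 1 ≤ m) : Finite (FrG_S L m) := by
  classical
  have hne : (X ^ 2 ^ m - X : L[X]) ≠ 0 :=
    FiniteField.X_pow_card_sub_X_ne_zero _ (Nat.one_lt_two_pow (by omega))
  have h1 : (FrG_S L m : Set L) ⊆ (X ^ 2 ^ m - X : L[X]).roots.toFinset := by
    intro x hx
    have hx' : x ^ 2 ^ m = x := FrG_mem.1 hx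
    simp [hne, hx']
  exact ((Finset.finite_toSet _).subset h1).to_subtype

/-- Frobenius on a constant -/
private theorem FrG_A {r m : ℕ}
    (hK : ∀ x : K, (algebraMap K L x) ^ 2 ^ m = algebraMap K L x → x ^ 2 ^ r = x) (c : L)
    (hc : c ^ 2 ^ m = c) : ∃ g : Gal(L/K), g c = c ^ 2 ^ r := by
  have hint : IsIntegral K c := Algebra.IsIntegral.isIntegral c
  have hsp : ((minpoly K c).map (algebraMap K L)).Splits := Normal.splits inferInstance c
  have hmon : ((minpoly K c).map (algebraMap K L)).Monic := (minpoly.monic hint).map _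
  have hroot : ∀ y ∈ ((minpoly K c).map (algebraMap K L)).roots, y ∈ FrG_S L m := by
    intro y hy
    rw [mem_roots', IsRoot, eval_map_algebraMap] at hy
    have h1 : IsConjRoot K c y := (isConjRoot_iff_aeval_eq_zero hint).2 hy.2
    obtain ⟨σ, hσ⟩ := h1.symm.exists_algEquiv
    rw [FrG_mem, ← hσ, ← map_pow, hc]
  have hlift : (minpoly K c).map (algebraMap K L) ∈ Polynomial.lifts (FrG_S L m).subtype := by
    rw [hsp.eq_prod_roots_of_monic hmon]
    refine multiset_prod_mem _ fun p hp => ?_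
    obtain ⟨y, hy, rfl⟩ := Multiset.mem_map.1 hp
    exact (Polynomial.mem_lifts _).2 ⟨X - C ⟨y, hroot y hy⟩, by simp⟩
  obtain ⟨p', hp'⟩ := (Polynomial.mem_lifts _).1 hlift
  have hcoef : ∀ i, ((minpoly K c).coeff i) ^ 2 ^ r = (minpoly K c).coeff i := by
    intro i
    apply hK
    have h1 := congrArg (fun p => p.coeff i) hp'
    simp only [coeff_map] at h1
    rw [← h1]
    exact FrG_mem.1 (p'.coeff i).2
  have haev : aeval (c ^ 2 ^ r) (minpoly K c) = 0 := by
    have h1 := congrArg (iterateFrobenius L 2 r) (minpoly.aeval K c)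
    rw [map_zero, aeval_eq_sum_range, map_sum] at h1
    rw [aeval_eq_sum_range, ← h1]
    refine Finset.sum_congr rfl fun i _ => ?_
    rw [Algebra.smul_def, Algebra.smul_def, map_mul, map_pow, iterateFrobenius_def,
      iterateFrobenius_def, ← map_pow, hcoef]
  have h2 : IsConjRoot K c (c ^ 2 ^ r) := (isConjRoot_iff_aeval_eq_zero hint).2 haev
  exact h2.symm.exists_algEquiv

private theorem FrG_B {r m : ℕ} (hm : 1 ≤ m)
    (hK : ∀ x : K, (algebraMap K L x) ^ 2 ^ m = algebraMap K L x → x ^ 2 ^ r = x) :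
    ∃ g : Gal(L/K), ∀ x : L, x ^ 2 ^ m = x → g x = x ^ 2 ^ r := by
  have := FrG_fin (L := L) hm
  obtain ⟨u, hu⟩ := IsCyclic.exists_generator (α := (FrG_S L m)ˣ)
  obtain ⟨g, hg⟩ := FrG_A (K := K) hK (((u : FrG_S L m) : L)) (FrG_mem.1 (u : FrG_S L m).2)
  refine ⟨g, fun x hx => ?_⟩
  by_cases hx0 : x = 0
  · rw [hx0, map_zero, zero_pow (by positivity)]
  · have hxS : x ∈ FrG_S L m := FrG_mem.2 hx
    have hne : (⟨x, hxS⟩ : FrG_S L m) ≠ 0 := fun h => hx0 (congrArg Subtype.val h)
    obtain ⟨j, hj⟩ := Subgroup.mem_zpowers_iff.1 (hu (Units.mk0 ⟨x, hxS⟩ hne))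
    have h1 : (((u : FrG_S L m) : L)) ^ j = x := by
      have h2 := congrArg (fun w : (FrG_S L m)ˣ => ((w : FrG_S L m) : L)) hj
      have h3 : (((u : FrG_S L m) ^ j : FrG_S L m) : L) = ((u : FrG_S L m) : L) ^ j :=
        map_zpow₀ (FrG_S L m).subtype _ _
      rw [← h3, ← Units.val_zpow_eq_zpow_val]
      exact h2
    rw [← h1, map_zpow₀, hg, ← zpow_natCast, ← zpow_natCast, ← zpow_mul, ← zpow_mul, mul_comm]

open Pointwise in
private theorem FrG_closed (x y : L) : IsClosed {g : Gal(L/K) | g x = y} := by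
  rcases Set.eq_empty_or_nonempty {g : Gal(L/K) | g x = y} with h | ⟨g₀, hg₀⟩
  · rw [h]; exact isClosed_empty
  · have h1 : IsClosed (MulAction.stabilizer Gal(L/K) x : Set Gal(L/K)) :=
      Subgroup.isClosed_of_isOpen _ (stabilizer_isOpen_of_isIntegral x)
    have h2 : {g : Gal(L/K) | g x = y} =
        g₀ • (MulAction.stabilizer Gal(L/K) x : Set Gal(L/K)) := by
      ext g
      rw [mem_leftCoset_iff]
      show g x = y ↔ g₀⁻¹ * g ∈ MulAction.stabilizer Gal(L/K) x
      rw [MulAction.mem_stabilizer_iff]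
      have h3 : (g₀⁻¹ * g) • x = g₀⁻¹ (g x) := rfl
      rw [h3]
      have h4 : g₀ x = y := hg₀
      constructor
      · intro h
        rw [h, ← h4]
        exact g₀.symm_apply_apply x
      · intro h
        rw [← h4, ← congrArg g₀ h]
        exact (g₀.apply_symm_apply (g x)).symm
    rw [h2]
    exact h1.leftCoset g₀

end

theorem tFrG (hCst : S_Cst) : S_FrG := by
  intro F _ _ _
  obtain ⟨r, hr1, hqr⟩ := FrG_q F
  have : CharP (RatFunc F) 2 :=
    charP_of_injective_algebraMap (algebraMap F (RatFunc F)).injective 2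
  have : CharP (Kgs F) 2 :=
    charP_of_injective_algebraMap (algebraMap (RatFunc F) (Kgs F)).injective 2
  obtain ⟨-, -, -, -, -, hcard⟩ := hCst (Nat.card F) r hr1 hqr (Kgs F)
  have p1 : ∀ x : RatFunc F, algebraMap (RatFunc F) (Kgs F) x ∈ Cst (Nat.card F) (Kgs F) →
      ∃ c : F, x = RatFunc.C c := by
    rintro x ⟨n, hn, hx⟩
    apply FrG_1 F x n hn
    apply (algebraMap (RatFunc F) (Kgs F)).injective
    rw [map_pow, hx]
  have hpow : ∀ n : ℕ, Nat.card F ^ n = 2 ^ (r * n) := fun n => by rw [hqr, ← pow_mul]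
  have hK : ∀ n : ℕ, 1 ≤ n → ∀ x : RatFunc F,
      (algebraMap (RatFunc F) (Kgs F) x) ^ 2 ^ (r * n) = algebraMap (RatFunc F) (Kgs F) x →
      x ^ 2 ^ r = x := by
    intro n hn x hx
    rw [← hpow] at hx
    obtain ⟨c, rfl⟩ := p1 x ⟨n, hn, hx⟩
    have : Fintype F := Fintype.ofFinite F
    rw [← map_pow, ← hqr, Nat.card_eq_fintype_card, FiniteField.pow_card]
  have p2 : ∃ g : Gal(Kgs F/RatFunc F), IsFro (Nat.card F) (Nat.card F) g := by
    obtain ⟨t, ht⟩ : ∃ t : ℕ → Set Gal(Kgs F/RatFunc F), t = fun n =>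
      {g | ∀ x : Kgs F, x ^ 2 ^ (r * (n + 1)) = x → g x = x ^ 2 ^ r} := ⟨_, rfl⟩
    have hcl : ∀ n, IsClosed (t n) := by
      intro n
      have : t n = ⋂ x : {x : Kgs F // x ^ 2 ^ (r * (n + 1)) = x},
          {g : Gal(Kgs F/RatFunc F) | g x.1 = x.1 ^ 2 ^ r} := by
        ext g
        rw [ht, Set.mem_iInter]
        exact ⟨fun h x => h x.1 x.2, fun h x hx => h ⟨x, hx⟩⟩
      rw [this]
      exact isClosed_iInter fun x => FrG_closed _ _
    have hne : (⋂ n, t n).Nonempty := by
      refine IsCompact.nonempty_iInter_of_directed_nonempty_isCompact_isClosed t ?_ ?_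
        (fun n => (hcl n).isCompact) hcl
      · intro n m
        have hsub : ∀ (n m k : ℕ), k + 1 = (n + 1) * (m + 1) → t k ⊆ t n := by
          intro n m k hk g hg
          rw [ht] at hg ⊢
          intro x hx
          apply hg
          rw [hk, ← mul_assoc, pow_mul]
          have : ∀ j : ℕ, x ^ (2 ^ (r * (n + 1))) ^ j = x := by
            intro j
            induction j with
            | zero => simp
            | succ j ih => rw [pow_succ, pow_mul, ih, hx]
          exact this _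
        refine ⟨(n + 1) * (m + 1) - 1, hsub n m _ ?_, hsub m n _ ?_⟩
        · exact Nat.sub_add_cancel (Nat.mul_pos (by omega) (by omega))
        · rw [mul_comm (m + 1)]
          exact Nat.sub_add_cancel (Nat.mul_pos (by omega) (by omega))
      · intro n
        obtain ⟨g, hg⟩ := FrG_B (K := RatFunc F) (L := Kgs F) (r := r) (m := r * (n + 1))
          (Nat.mul_pos hr1 (by omega)) (hK (n + 1) (by omega))
        exact ⟨g, by rw [ht]; exact hg⟩
    obtain ⟨g, hg⟩ := hne
    refine ⟨g, ?_⟩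
    rintro x ⟨n, hn, hx⟩
    have h1 := Set.mem_iInter.1 hg (n - 1)
    rw [ht] at h1
    have h2 := h1 x (by rw [Nat.sub_add_cancel hn, ← hpow]; exact hx)
    rw [h2, hqr]
  have p3 : ∀ g : Gal(Kgs F/RatFunc F), IsGeo (Nat.card F) g ↔ ∀ x ∈ Kgeo F, g x = x := by
    intro g
    constructor
    · intro h x hx
      unfold Kgeo at hx
      induction hx using IntermediateField.adjoin_induction with
      | mem x hx => exact h x hx
      | algebraMap x => exact g.commutes x
      | add x y _ _ hx hy => rw [map_add, hx, hy]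
      | inv x _ hx => rw [map_inv₀, hx]
      | mul x y _ _ hx hy => rw [map_mul, hx, hy]
    · intro h x hx
      exact h x (IntermediateField.subset_adjoin _ _ hx)
  have p4 : ∀ (L : Type) [Field L] [Algebra (RatFunc F) L] (ι : Kgs F →ₐ[RatFunc F] L),
      (∀ c ∈ Cst (Nat.card F) (Kgs F), ι c ∈ Cst (Nat.card F) L) ∧
      ∀ c ∈ Cst (Nat.card F) L, ∃ c' ∈ Cst (Nat.card F) (Kgs F), ι c' = c := by
    intro L _ _ ι
    constructor
    · rintro c ⟨n, hn, hc⟩
      exact ⟨n, hn, by rw [← map_pow, hc]⟩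
    · rintro c ⟨n, hn, hc⟩
      classical
      obtain ⟨N, hN⟩ : ∃ N, N = Nat.card F ^ n := ⟨_, rfl⟩
      have hN1 : 1 < N := by
        rw [hN]
        exact Nat.one_lt_pow (by omega) Finite.one_lt_card
      rw [← hN] at hc
      have hne : (X ^ N - X : L[X]) ≠ 0 := FiniteField.X_pow_card_sub_X_ne_zero _ hN1
      have hnd : (X ^ N - X : L[X]).natDegree = N :=
        FiniteField.X_pow_card_sub_X_natDegree_eq _ hN1
      obtain ⟨A, hA⟩ : ∃ A : Set (Kgs F), A = {x | x ^ N = x} := ⟨_, rfl⟩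
      have hAc : A.ncard = N := by
        rw [hA, hN]
        exact hcard n hn
      have hB : ((X ^ N - X : L[X]).roots.toFinset : Set L).ncard ≤ N := by
        rw [Set.ncard_coe_finset]
        refine (Multiset.toFinset_card_le _).trans ((card_roots' _).trans ?_)
        rw [hnd]
      have hsub : ι '' A ⊆ ((X ^ N - X : L[X]).roots.toFinset : Set L) := by
        rintro _ ⟨x, hx, rfl⟩
        rw [hA] at hx
        have hx' : (ι x) ^ N = ι x := by
          rw [← map_pow]
          exact congrArg ι hx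
        simp [hne, hx']
      have heq : ι '' A = ((X ^ N - X : L[X]).roots.toFinset : Set L) := by
        apply Set.eq_of_subset_of_ncard_le hsub
        have hinj : Function.Injective ι := ι.toRingHom.injective
        rw [Set.ncard_image_of_injective _ hinj, hAc]
        exact hB
      have hcr : c ∈ ((X ^ N - X : L[X]).roots.toFinset : Set L) := by
        simp [hne, hc]
      rw [← heq] at hcr
      obtain ⟨c', hc', hcc⟩ := hcr
      rw [hA] at hc'
      exact ⟨c', ⟨n, hn, by rw [← hN]; exact hc'⟩, hcc⟩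
  refine ⟨p1, p2, p3, p4, ?_⟩
  intro L _ _ ι g σ hR
  obtain ⟨h1, h2⟩ := p4 L ι
  have hinj : Function.Injective ι := ι.toRingHom.injective
  constructor
  · constructor
    · intro h c hc
      apply hinj
      rw [← hR c]
      exact h _ (h1 c hc)
    · intro h c hc
      obtain ⟨c', hc', rfl⟩ := h2 c hc
      rw [hR c', h c' hc']
  · intro Q
    constructor
    · intro h c hc
      apply hinj
      rw [← hR c, map_pow]
      exact h _ (h1 c hc)
    · intro h c hc
      obtain ⟨c', hc', rfl⟩ := h2 c hc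
      rw [hR c', h c' hc', map_pow]

end Pool.Agent.MP72W
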