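import Pool.Agent.Lib.MP_72e2e6_nt.W2.C.Spec

/-!
# MP_72e2e6_nt, theorem T3, part C, Tls (helper19)
-/

namespace Pool.Agent.MP72W

open Polynomial IntermediateField

private theorem Tls_alg {K : Type} [Field K] {A B G Q N : K} (hQ : Q ≠ 0) (hB : B ≠ 0)
    (h : A - G * B = Q * N) : A / (Q * B) - G / Q = N / B := by
  rw [div_sub_div _ _ (mul_ne_zero hQ hB) hQ, div_eq_div_iff (mul_ne_zero (mul_ne_zero hQ hB) hQ) hB]
  linear_combination (Q * B) * h

/-- The decomposition at a finite place. -/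
private theorem Tls_fin {F : Type} [Field F] {P : F[X]} {v : AbsoluteValue (RatFunc F) ℝ}
    (hP : IsPl (some P) v) (f : RatFunc F) :
    ∃ (k : ℕ) (g : F[X]), g.degree < ((k * P.natDegree : ℕ) : WithBot ℕ) ∧
      v (f - algebraMap F[X] (RatFunc F) g / algebraMap F[X] (RatFunc F) P ^ k) ≤ 1 := by
  classical
  obtain ⟨hmon, hirr, hval⟩ := hP
  have hP0 : P ≠ 0 := hirr.ne_zero
  have hd0 : f.denom ≠ 0 := f.denom_ne_zero
  obtain ⟨k, b, hPb, hb⟩ := WfDvdMonoid.max_power_factor hd0 hirr
  have hb0 : b ≠ 0 := by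
    rintro rfl
    rw [mul_zero] at hb
    exact hd0 hb
  have hcop : IsCoprime (P ^ k) b :=
    ((hirr.coprime_iff_not_dvd).mpr hPb).pow_left
  obtain ⟨u, w, huw⟩ := hcop
  have hmk : (P ^ k).Monic := hmon.pow k
  set g : F[X] := (f.num * w) %ₘ (P ^ k) with hg
  set q : F[X] := (f.num * w) /ₘ (P ^ k) with hq
  have hgq : g + P ^ k * q = f.num * w := Polynomial.modByMonic_add_div _ _
  refine ⟨k, g, ?_, ?_⟩
  · have h1 : g.degree < (P ^ k).degree := Polynomial.degree_modByMonic_lt _ hmk
    rw [Polynomial.degree_eq_natDegree hmk.ne_zero, hmon.natDegree_pow] at h1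
    exact h1
  · have inj := RatFunc.algebraMap_injective F
    have hPk : algebraMap F[X] (RatFunc F) P ^ k ≠ 0 := by
      apply pow_ne_zero
      rw [Ne, map_eq_zero_iff _ inj]
      exact hP0
    have hbR : algebraMap F[X] (RatFunc F) b ≠ 0 := by
      rw [Ne, map_eq_zero_iff _ inj]
      exact hb0
    have hf : f = algebraMap F[X] (RatFunc F) f.num /
        (algebraMap F[X] (RatFunc F) P ^ k * algebraMap F[X] (RatFunc F) b) := by
      rw [← map_pow, ← map_mul, ← hb]
      exact (RatFunc.num_div_denom f).symm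
    have hnum : f.num - g * b = P ^ k * (f.num * u + q * b) := by
      linear_combination (-f.num) * huw - b * hgq
    have hdiff : f - algebraMap F[X] (RatFunc F) g / algebraMap F[X] (RatFunc F) P ^ k =
        algebraMap F[X] (RatFunc F) (f.num * u + q * b) / algebraMap F[X] (RatFunc F) b := by
      have h2 := congrArg (algebraMap F[X] (RatFunc F)) hnum
      rw [map_sub, map_mul, map_mul, map_pow] at h2
      have h3 := Tls_alg hPk hbR h2
      rw [← hf] at h3
      exact h3
    rw [hdiff, map_div₀]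
    have hvb : v (algebraMap F[X] (RatFunc F) b) = 1 := by
      rw [hval b hb0, multiplicity_eq_zero.mpr hPb, pow_zero]
    rw [hvb, div_one]
    by_cases h0 : f.num * u + q * b = 0
    · rw [h0, map_zero, map_zero]
      norm_num
    · rw [hval _ h0]
      exact pow_le_one₀ (by norm_num) (by norm_num)

/-- The decomposition at infinity. -/
private theorem Tls_inf {F : Type} [Field F] {v : AbsoluteValue (RatFunc F) ℝ}
    (hP : IsPl (none : Option F[X]) v) (f : RatFunc F) :
    ∃ p : F[X], v (f - algebraMap F[X] (RatFunc F) p) ≤ 1 := by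
  have hval : ∀ f : RatFunc F, f ≠ 0 → v f = 2 ^ f.intDegree := hP
  have hd0 : f.denom ≠ 0 := f.denom_ne_zero
  set g : F[X] := f.num %ₘ f.denom with hg
  set q : F[X] := f.num /ₘ f.denom with hq
  have hgq : g + f.denom * q = f.num := Polynomial.modByMonic_add_div _ _
  refine ⟨q, ?_⟩
  have inj := RatFunc.algebraMap_injective F
  have hbR : algebraMap F[X] (RatFunc F) f.denom ≠ 0 := by
    rw [Ne, map_eq_zero_iff _ inj]
    exact hd0
  have hdiff : f - algebraMap F[X] (RatFunc F) q =
      algebraMap F[X] (RatFunc F) g / algebraMap F[X] (RatFunc F) f.denom := by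
    have h1 := congrArg (algebraMap F[X] (RatFunc F)) hgq
    rw [map_add, map_mul] at h1
    have h2 := RatFunc.num_div_denom f
    rw [← h1] at h2
    rw [eq_div_iff hbR, sub_mul]
    have h3 := (div_eq_iff hbR).mp h2
    linear_combination -h3
  rw [hdiff]
  by_cases h0 : g = 0
  · rw [h0, map_zero, zero_div, map_zero]
    norm_num
  · have hgR : algebraMap F[X] (RatFunc F) g ≠ 0 := by
      rw [Ne, map_eq_zero_iff _ inj]
      exact h0
    rw [hval _ (div_ne_zero hgR hbR), RatFunc.intDegree_div hgR hbR, RatFunc.intDegree_polynomial,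
      RatFunc.intDegree_polynomial]
    have h1 : g.degree < f.denom.degree := Polynomial.degree_modByMonic_lt _ f.monic_denom
    have h2 : g.natDegree < f.denom.natDegree := Polynomial.natDegree_lt_natDegree h0 h1
    apply zpow_le_one_of_nonpos₀ (by norm_num)
    omega

private theorem Tls_par (i : ℕ) (n : ℤ) : (2 : ℝ) ^ (2 * i + 1) ≠ (((1 / 2 : ℝ)) ^ n) ^ 2 := by
  intro h
  have h1 : (((1 / 2 : ℝ)) ^ n) ^ 2 = (2 : ℝ) ^ (-(2 * n)) := by
    rw [one_div, inv_zpow', ← zpow_natCast, ← zpow_mul]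
    congr 1
    push_cast
    ring
  rw [h1, ← zpow_natCast] at h
  have h2 := zpow_right_injective₀ (by norm_num : (0 : ℝ) < 2) (by norm_num : (2 : ℝ) ≠ 1) h
  push_cast at h2
  omega

/-- Uniqueness. -/
private theorem Tls_uni {F : Type} [Field F] [Finite F] [CharP F 2]
    {v : AbsoluteValue (RatFunc F) ℝ} {d : ℕ} {ϖ : RatFunc F} {R : Finset (RatFunc F)}
    (hLc1 : S_Lc1) (hLF : LF v d ϖ R) (hϖ : v ϖ = 1 / 2) {D : RatFunc F} (i : ℕ)
    (hD : v D = 2 ^ (2 * i + 1)) (c y : v.Completion) (hc : ‖c‖ ≤ 1)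
    (h : algebraMap (RatFunc F) v.Completion D = c + (y ^ 2 + y)) : False := by
  obtain ⟨l1, -, l3, l4, -, -, -, -, -, l10⟩ := hLc1 F v d ϖ R hLF
  haveI := l3
  have h1 : ‖algebraMap (RatFunc F) v.Completion D‖ = 2 ^ (2 * i + 1) := by rw [l1, hD]
  have h2 : 1 < ‖algebraMap (RatFunc F) v.Completion D‖ := by
    rw [h1]
    exact one_lt_pow₀ (by norm_num) (by omega)
  have h3 : y ^ 2 + y = algebraMap (RatFunc F) v.Completion D - c := by
    rw [h]
    ring
  have h4 : ‖y ^ 2 + y‖ = ‖algebraMap (RatFunc F) v.Completion D‖ := by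
    rw [h3]
    have hne : ‖algebraMap (RatFunc F) v.Completion D‖ ≠ ‖-c‖ := by
      rw [norm_neg]
      linarith [hc.trans_lt h2 |>.ne']
    have h5 := IsUltrametricDist.norm_add_eq_max_of_norm_ne_norm hne
    rw [← sub_eq_add_neg, norm_neg] at h5
    rw [h5]
    exact max_eq_left (hc.trans h2.le)
  have h5 := l10 y (by rw [h4]; exact h2)
  rw [h4, h1] at h5
  have hy0 : y ≠ 0 := by
    rintro rfl
    rw [norm_zero] at h5
    linarith [h5.1]
  obtain ⟨n, hn⟩ := l4 y hy0
  rw [hn, hϖ] at h5
  exact Tls_par i n h5.2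

theorem tTls (hLfP : S_LfP) (hLfI : S_LfI) (hLc1 : S_Lc1) (hPfP : S_PfP) (hPfI : S_PfI)
    (hDrg : S_Drg) : S_Tls := by
  intro F _ _ _ κ w v hv
  rcases w with _ | P
  · obtain ⟨R, hLF⟩ := hLfI F v hv
    obtain ⟨l1, l2, l3, l4, l5, l6, l7, l8, l9, l10⟩ := hLc1 F v 1 _ R hLF
    haveI := l3
    have hval : ∀ f : RatFunc F, f ≠ 0 → v f = 2 ^ f.intDegree := hv
    refine ⟨fun x => ?_, fun e D hD c y hc h => ?_⟩
    · obtain ⟨f, hf⟩ := l2 x 1 one_pos
      obtain ⟨p, hp⟩ := Tls_inf hv f
      obtain ⟨D, hD, c0, s, -, hs⟩ := hPfI F κ p.natDegree p le_rfl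
      have hc0 : v (RatFunc.C c0) ≤ 1 := by
        by_cases h0 : c0 = 0
        · rw [h0, map_zero, map_zero]
          norm_num
        · exact (hLF.one c0 h0).le
      refine ⟨p.natDegree, D, hD, algebraMap (RatFunc F) v.Completion (RatFunc.C c0) +
        algebraMap (RatFunc F) v.Completion (f - algebraMap F[X] (RatFunc F) p) +
        (x - algebraMap (RatFunc F) v.Completion f),
        algebraMap (RatFunc F) v.Completion (algebraMap F[X] (RatFunc F) s), ?_, ?_⟩
      · refine (IsUltrametricDist.norm_add_le_max _ _).trans (max_le ?_ hf.le)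
        refine (IsUltrametricDist.norm_add_le_max _ _).trans (max_le ?_ ?_)
        · rw [l1]
          exact hc0
        · rw [l1]
          exact hp
      · have h1 := congrArg (algebraMap (RatFunc F) v.Completion) hs
        rw [map_add, map_add, map_add, map_pow] at h1
        rw [map_sub]
        linear_combination h1
    · by_contra hne
      obtain ⟨i, -, hi⟩ := ((hDrg F κ X monic_X irreducible_X none v hv e).2 D hD).1 rfl hne
      refine Tls_uni hLc1 hLF ?_ i hi c y hc h
      rw [map_inv₀, hval _ RatFunc.X_ne_zero, RatFunc.intDegree_X]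
      norm_num
  · have hv' := hv
    obtain ⟨hmon, hirr, hval⟩ := hv'
    obtain ⟨R, hLF⟩ := hLfP F P v hv
    obtain ⟨l1, l2, l3, l4, l5, l6, l7, l8, l9, l10⟩ := hLc1 F v _ _ R hLF
    haveI := l3
    refine ⟨fun x => ?_, fun e D hD c y hc h => ?_⟩
    · obtain ⟨f, hf⟩ := l2 x 1 one_pos
      obtain ⟨k, g, hg, hp⟩ := Tls_fin hv f
      obtain ⟨D, hD, s, -, hs⟩ := hPfP F P hmon hirr k g hg
      refine ⟨k, D, hD, algebraMap (RatFunc F) v.Completion
          (f - algebraMap F[X] (RatFunc F) g / algebraMap F[X] (RatFunc F) P ^ k) +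
        (x - algebraMap (RatFunc F) v.Completion f),
        algebraMap (RatFunc F) v.Completion
          (algebraMap F[X] (RatFunc F) s / algebraMap F[X] (RatFunc F) P ^ k), ?_, ?_⟩
      · refine (IsUltrametricDist.norm_add_le_max _ _).trans (max_le ?_ hf.le)
        rw [l1]
        exact hp
      · have h1 := congrArg (algebraMap (RatFunc F) v.Completion) hs
        rw [map_add, map_add, map_pow] at h1
        rw [map_sub]
        linear_combination h1
    · by_contra hne
      obtain ⟨i, -, hi⟩ := ((hDrg F κ P hmon hirr (some P) v hv e).1 D hD).1 rfl hne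
      refine Tls_uni hLc1 hLF ?_ i hi c y hc h
      rw [hval P hirr.ne_zero]
      have hm : multiplicity P P = 1 := multiplicity_self
      rw [hm, pow_one]

end Pool.Agent.MP72W
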